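import Pool.Agent.H628R4.SP.Defs
import Pool.Agent.H620R2.Gauge.Base

/-!
# The objects of the proof
-/

namespace Pool.Agent.H628R4.SP

open Pool.Agent.NPC Pool.Agent.H620R2.Gauge Finset H568R2 Pool.Agent.H676
open Filter (atTop)

/-- The code string for the question whether algorithm number `e` accepts `x`. -/
def codeL (e κ : ℕ) (x : List Bool) : List Bool :=
  List.replicate e true ++ false :: (List.replicate ((x.length + 2) ^ κ) true ++ false :: x)

/-- The walk in the binary tree of `x`: the answer to the question `⟨x, a⟩` tells where to go
from the node `a`. -/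
def walk (A : Oracle) (x : List Bool) : ℕ → List Bool
  | 0 => []
  | j + 1 => walk A x j ++ [A (pairBits x (walk A x j))]

/-- The first test language (in `P^A`): the bit at the node reached after `2 |x|` steps. -/
def testT (A : Oracle) : Set (List Bool) :=
  {x | A (pairBits x (walk A x (2 * x.length))) = true}

/-- `(⌊log₂ n⌋ + 1)²` -/
def side (n : ℕ) : ℕ := (Nat.log 2 n + 1) ^ 2

/-- The second test language (in polylogarithmic space): the parity of the number of the strings
`x w` in the oracle with `|w| = (⌊log₂ |x|⌋ + 1)²`. -/
def testP (A : Oracle) : Set (List Bool) :=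
  {x | Odd (univ.filter (fun w : Fin (side x.length) → Bool =>
    A (x ++ List.ofFn w) = true)).card}

/-- all strings of length `n` -/
def strs (n : ℕ) : Finset (List Bool) := univ.image (fun g : Fin n → Bool => List.ofFn g)

/-- the bad inputs: the walk ends in `W` -/
def bad (n : ℕ) (W : Finset (List Bool)) (A : Oracle) : Finset (List Bool) :=
  (strs n).filter (fun x => pairBits x (walk A x (2 * n)) ∈ W)

/-- the good inputs: the walk does not end in `W` -/
def good (n : ℕ) (W : Finset (List Bool)) (A : Oracle) : Finset (List Bool) :=
  (strs n).filter (fun x => pairBits x (walk A x (2 * n)) ∉ W)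

end Pool.Agent.H628R4.SP
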