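import Pool.Agent.H628R4.SP.BaseT

/-!
# Certificates outside the other blocks
-/

namespace Pool.Agent.H628R4.SP

open Pool.Agent.NPC Pool.Agent.H620R2.Gauge Finset

/-- The function `V` is forced to be true by at most `p` bits of `a` outside the other blocks. -/
def CertP {I κ : Type*} (B : κ → Finset I) (p : ℕ) (V : (I → Bool) → Bool) (k : κ)
    (a : I → Bool) : Prop :=
  ∃ A : Finset I, A.card ≤ p ∧ (∀ k', k' ≠ k → Disjoint A (B k')) ∧
    ∀ y : I → Bool, (∀ i ∈ A, y i = a i) → V y = true

end Pool.Agent.H628R4.SP
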