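import Pool.Agent.H628R4.SP.Base

/-!
# The tally test languages
-/

namespace Pool.Agent.H628R4.SP

open Pool.Agent.NPC Pool.Agent.H620R2.Gauge

/-- Tally languages: all their elements consist of the letter `true` only. -/
def Tally (L : Set (List Bool)) : Prop := ∀ x ∈ L, ∀ b ∈ x, b = true

/-- The first tally test language. -/
def testT1 (A : Oracle) : Set (List Bool) := {x | (∀ b ∈ x, b = true) ∧ x ∈ testT A}

/-- The second tally test language. -/
def testP1 (A : Oracle) : Set (List Bool) := {x | (∀ b ∈ x, b = true) ∧ x ∈ testP A}

/-- the end of the walk -/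
def leaf (A : Oracle) (x : List Bool) : List Bool := pairBits x (walk A x (2 * x.length))

end Pool.Agent.H628R4.SP
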