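import Pool.Agent.H620R2.Gauge.Defs

/-!
# Space bounded machines with an oracle

A machine has finitely many states, `h` two-way heads on a read-only input tape (between two end
markers), a work tape of `s` cells (between two end markers), and a write-only query tape of `l`
cells, which is erased whenever a question is asked. While the query tape is not empty, the machine
works deterministically (the convention of Ruzzo, Simon and Tompa).
-/

namespace Pool.Agent.H628R4.SP

open Pool.Agent.NPC Pool.Agent.H620R2.Gauge

/-- Head moves. -/
inductive Mv : Type
  | left
  | stay
  | right
  deriving DecidableEq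

/-- What a head can see: the left end marker, the right end marker, or a letter. -/
inductive Cell (α : Type) : Type
  | lend
  | rend
  | letter (a : α)

/-- The actions of a machine: accept; ask whether the contents of the query tape is in the oracle,
erase the query tape, and go to the state `q₁` (answer yes) or `q₀` (answer no); or go to the state
`q`, move the input heads by `mv`, write the letter `g` into the cell under the work head (`none`:
nothing is written), move the work head by `wm`, and append the bit `o` to the query tape (`none`:
nothing is appended). -/
inductive Act (Q Γ : Type) (h : ℕ) : Type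
  | acc : Act Q Γ h
  | ask (q₁ q₀ : Q) : Act Q Γ h
  | go (q : Q) (mv : Fin h → Mv) (g : Option Γ) (wm : Mv) (o : Option Bool) : Act Q Γ h

/-- A (nondeterministic) machine with the set `Q` of states, the work alphabet `Γ` and `h` input
heads: the initial state, the blank letter, and the possible actions, as a function of the state
and of what the heads see. -/
structure Mach (Q Γ : Type) (h : ℕ) : Type where
  /-- the initial state -/
  start : Q
  /-- the blank letter: all cells of the work tape contain it in the beginning -/
  blank : Γ
  /-- the possible actions -/
  act : Q → (Fin h → Cell Bool) → Cell Γ → List (Act Q Γ h)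

/-- A configuration: the state, the positions of the input heads, the contents of the work tape,
the position of the work head, and the contents of the query tape. Position `0` is the left end
marker, position `i + 1` is the cell number `i`. -/
structure Cfg (Q Γ : Type) (h : ℕ) : Type where
  /-- the state -/
  q : Q
  /-- the positions of the input heads -/
  pos : Fin h → ℕ
  /-- the work tape -/
  tape : List Γ
  /-- the position of the work head -/
  wp : ℕ
  /-- the query tape -/
  qt : List Bool

/-- A head on a tape with `n` cells stays between the end markers `0` and `n + 1`. -/
def move (n : ℕ) : Mv → ℕ → ℕ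
  | .left, i => i - 1
  | .stay, i => i
  | .right, i => min (i + 1) (n + 1)

/-- What the head at position `i` sees. -/
def look {α : Type} (t : List α) (i : ℕ) : Cell α :=
  if i = 0 then .lend else
    match t[i - 1]? with
    | some a => .letter a
    | none => .rend

variable {Q Γ : Type} {h : ℕ}

/-- Write a letter into the cell under the head; nothing can be written on the end markers. -/
def put (t : List Γ) (i : ℕ) : Option Γ → List Γ
  | none => t
  | some g => if i = 0 then t else t.set (i - 1) g

/-- The actions which the machine can choose in a configuration: if the query tape is not empty,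
only the first one of the list. -/
def Mach.can (M : Mach Q Γ h) (x : List Bool) (c : Cfg Q Γ h) : List (Act Q Γ h) :=
  if c.qt = [] then M.act c.q (fun i => look x (c.pos i)) (look c.tape c.wp)
  else (M.act c.q (fun i => look x (c.pos i)) (look c.tape c.wp)).take 1

/-- The effect of an action, with oracle `A`, on input `x`, with a query tape of `l` cells (if the
query tape would become longer, the machine stops without accepting). -/
def Does (A : Oracle) (x : List Bool) (l : ℕ) : Act Q Γ h → Cfg Q Γ h → Cfg Q Γ h → Prop
  | .acc, _, _ => False
  | .ask q₁ q₀, c, c' => c' = ⟨if A c.qt = true then q₁ else q₀, c.pos, c.tape, c.wp, []⟩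
  | .go q mv g wm o, c, c' => (c.qt ++ o.toList).length ≤ l ∧
      c' = ⟨q, fun i => move x.length (mv i) (c.pos i), put c.tape c.wp g,
        move c.tape.length wm c.wp, c.qt ++ o.toList⟩

/-- `c'` is a possible next configuration after `c`. -/
def Mach.Next (M : Mach Q Γ h) (A : Oracle) (x : List Bool) (l : ℕ) (c c' : Cfg Q Γ h) : Prop :=
  ∃ a ∈ M.can x c, Does A x l a c c'

/-- The initial configuration, with `s` cells of work tape. -/
def Mach.init (M : Mach Q Γ h) (s : ℕ) : Cfg Q Γ h :=
  ⟨M.start, fun _ => 0, List.replicate s M.blank, 0, []⟩

/-- The machine accepts `x` with oracle `A`, `s` cells of work tape and `l` cells of query tape: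
some computation reaches a configuration in which it can accept. -/
def Mach.Acc (M : Mach Q Γ h) (A : Oracle) (s l : ℕ) (x : List Bool) : Prop :=
  ∃ c : Cfg Q Γ h, Relation.ReflTransGen (M.Next A x l) (M.init s) c ∧ Act.acc ∈ M.can x c

/-- The machine is deterministic. -/
def Mach.Det (M : Mach Q Γ h) : Prop := ∀ q y g, (M.act q y g).length ≤ 1

/-- `L` is in `DSPACE((log n)^c)` relative to `A`: it is accepted by a deterministic machine (any
number of states, letters and input heads) with `(⌊log₂ n⌋ + 1) ^ c` cells of work tape and with
polynomially many cells of query tape. -/
def InDLogPow (A : Oracle) (c : ℕ) (L : Set (List Bool)) : Prop :=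
  ∃ (k m h d : ℕ) (M : Mach (Fin k) (Fin m) h), M.Det ∧
    ∀ x, x ∈ L ↔ M.Acc A ((Nat.log 2 x.length + 1) ^ c) ((x.length + 2) ^ d) x

/-- `L` is in `NSPACE((log n)^c)` relative to `A`. -/
def InNLogPow (A : Oracle) (c : ℕ) (L : Set (List Bool)) : Prop :=
  ∃ (k m h d : ℕ) (M : Mach (Fin k) (Fin m) h),
    ∀ x, x ∈ L ↔ M.Acc A ((Nat.log 2 x.length + 1) ^ c) ((x.length + 2) ^ d) x

/-- deterministic logarithmic space relative to `A` -/
def IsLogSpace (A : Oracle) (L : Set (List Bool)) : Prop := InDLogPow A 1 L

/-- deterministic polylogarithmic space relative to `A` -/
def IsPolylog (A : Oracle) (L : Set (List Bool)) : Prop := ∃ c, InDLogPow A c L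

/-- nondeterministic polylogarithmic space relative to `A` -/
def IsNPolylog (A : Oracle) (L : Set (List Bool)) : Prop := ∃ c, InNLogPow A c L

end Pool.Agent.H628R4.SP
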