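import Pool.Agent.H628R4.SP.Base
import Pool.Agent.H620R2.Gauge.C
import Pool.Agent.H620R2.Gauge2.Null
import Pool.Agent.H620R2.Gauge.X
import Pool.Agent.H620R2.Gauge.Y

/-! Task ASY: the choice of the input length and the number of oracle bits. -/

namespace Pool.Agent.H628R4.SP

open Pool.Agent.NPC Pool.Agent.H620R2.Gauge Finset H568R2 Pool.Agent.H676
open Filter (atTop)

theorem asyT (Q : Polynomial ℕ) (f : ℕ → ℝ)
    (hf : ∀ ε : ℝ, 0 < ε → ∃ᶠ N : ℕ in Filter.atTop, f N ≤ 2 ^ (Real.logb 2 N) ^ ε)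
    (δ : ℝ) (hδ : 0 < δ) (n₀ : ℕ) :
    ∃ n N : ℕ, n₀ ≤ n ∧ 2 ^ (Q.eval n) ≤ N ∧ (2 / 2 ^ 2 ^ (n - 1) : ℝ) * 2 ^ f N ≤ δ := by
  obtain ⟨n, N, u, h1, -, h3, h4, h5⟩ := asym 1 0 Q f hf δ hδ (n₀ + 4)
  refine ⟨n, N, by omega, ?_, ?_⟩
  · exact (Nat.pow_le_pow_right (by norm_num) (by omega)).trans h4
  · refine le_trans ?_ h5
    refine mul_le_mul_of_nonneg_right ?_ (by positivity)
    -- the last term of `bnd`
    have hx : (0 : ℝ) ≤ 1 - (1 / (24 * 2 ^ (2 * u))) ^ 1 := by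
      rw [pow_one, sub_nonneg, div_le_one (by positivity)]
      have : (1 : ℝ) ≤ 2 ^ (2 * u) := one_le_pow₀ (by norm_num)
      linarith
    have h6 : (1 / 2 : ℝ) ^ 2 ^ u ≤ bnd 1 0 n u := by
      unfold bnd
      simp only [Polynomial.eval_zero, pow_zero, one_mul]
      have h7 : (0 : ℝ) ≤ ((1 : ℕ) : ℝ) * (1 / 2) ^ (2 ^ (2 * u) + 1) := by positivity
      have h8 : (0 : ℝ) ≤ 2 ^ u * (2 ^ (3 * u) + 1) *
          (1 - (1 / (24 * 2 ^ (2 * u))) ^ 1) ^ (2 ^ n / (2 ^ (3 * u) + 1)) := by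
        have := pow_nonneg hx (2 ^ n / (2 ^ (3 * u) + 1))
        positivity
      linarith
    refine le_trans ?_ h6
    have h9 : 2 ^ u + 1 ≤ 2 ^ (n - 1) := by
      have h10 : u + 1 ≤ n - 1 := by omega
      have h11 : 2 ^ (u + 1) ≤ 2 ^ (n - 1) := Nat.pow_le_pow_right (by norm_num) h10
      have h12 : 1 ≤ 2 ^ u := Nat.one_le_two_pow
      rw [pow_succ] at h11
      omega
    rw [one_div, inv_pow, div_le_iff₀ (by positivity), ← div_eq_inv_mul,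
      le_div_iff₀ (by positivity)]
    calc (2 : ℝ) * 2 ^ 2 ^ u = 2 ^ (2 ^ u + 1) := by rw [pow_succ]; ring
      _ ≤ 2 ^ 2 ^ (n - 1) := pow_le_pow_right₀ (by norm_num) h9

end Pool.Agent.H628R4.SP
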