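import Pool.Agent.H628R4.SP.BaseT
import Pool.Agent.H620R2.Gauge.C
import Pool.Agent.H620R2.Gauge2.Null
import Pool.Agent.H620R2.Gauge.X

set_option autoImplicit false

/-!
# Task CHK
-/

namespace Pool.Agent.H628R4.SP

open Pool.Agent.NPC Pool.Agent.H620R2.Gauge Finset H568R2 Pool.Agent.H676 Pool.Agent.H628R4.SP
open Filter (atTop)

section CHK

variable {Q Γ : Type} {h : ℕ}

/-- move head `0` only -/
def CHK_mv (h : ℕ) (d : Mv) : Fin (h + 1) → Mv := fun i => if i = 0 then d else .stay

/-- lift of the actions -/
def CHK_act : Act Q Γ (h + 1) → Act (Option (Option Q)) Γ (h + 1)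
  | .acc => .acc
  | .ask q₁ q₀ => .ask (some (some q₁)) (some (some q₀))
  | .go q mv g wm o => .go (some (some q)) mv g wm o

/-- lift of the configurations -/
def CHK_cfg (c : Cfg Q Γ (h + 1)) : Cfg (Option (Option Q)) Γ (h + 1) :=
  ⟨some (some c.q), c.pos, c.tape, c.wp, c.qt⟩

/-- the machine -/
def CHK_mach (M : Mach Q Γ (h + 1)) : Mach (Option (Option Q)) Γ (h + 1) where
  start := none
  blank := M.blank
  act q y g :=
    match q with
    | none => match y 0 with
      | .lend => [.go none (CHK_mv h .right) none .stay none]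
      | .letter true => [.go none (CHK_mv h .right) none .stay none]
      | .letter false => []
      | .rend => [.go (some none) (CHK_mv h .left) none .stay none]
    | some none => match y 0 with
      | .lend => [.go (some (some M.start)) (fun _ => .stay) none .stay none]
      | _ => [.go (some none) (CHK_mv h .left) none .stay none]
    | some (some q) => (M.act q y g).map CHK_act

theorem CHK_det (M : Mach Q Γ (h + 1)) (hM : M.Det) : (CHK_mach M).Det := by
  intro q y g
  match q with
  | none =>
    change (match y 0 with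
      | .lend => [Act.go none (CHK_mv h .right) none .stay none]
      | .letter true => [.go none (CHK_mv h .right) none .stay none]
      | .letter false => []
      | .rend => [.go (some none) (CHK_mv h .left) none .stay none] :
        List (Act (Option (Option Q)) Γ (h + 1))).length ≤ 1
    split <;> simp
  | some none =>
    change (match y 0 with
      | .lend => [Act.go (some (some M.start)) (fun _ => .stay) none .stay none]
      | _ => [.go (some none) (CHK_mv h .left) none .stay none] :
        List (Act (Option (Option Q)) Γ (h + 1))).length ≤ 1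
    split <;> simp
  | some (some q) =>
    change ((M.act q y g).map CHK_act).length ≤ 1
    rw [List.length_map]
    exact hM q y g

theorem CHK_can (M : Mach Q Γ (h + 1)) (x : List Bool) (c : Cfg Q Γ (h + 1)) :
    (CHK_mach M).can x (CHK_cfg c) = (M.can x c).map CHK_act := by
  unfold Mach.can
  by_cases hc : c.qt = []
  · rw [if_pos hc, if_pos (show (CHK_cfg c).qt = [] from hc)]
    rfl
  · rw [if_neg hc, if_neg (show ¬ (CHK_cfg c).qt = [] from hc), List.map_take]
    rfl

theorem CHK_does (A : Oracle) (x : List Bool) (l : ℕ) (a : Act Q Γ (h + 1))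
    (c : Cfg Q Γ (h + 1)) (c' : Cfg (Option (Option Q)) Γ (h + 1)) :
    Does A x l (CHK_act a) (CHK_cfg c) c' ↔ ∃ d, c' = CHK_cfg d ∧ Does A x l a c d := by
  cases a with
  | acc => simp [CHK_act, Does]
  | ask q₁ q₀ =>
    simp only [CHK_act, Does]
    constructor
    · intro hc
      refine ⟨_, ?_, rfl⟩
      rw [hc]
      unfold CHK_cfg
      by_cases hA : A c.qt = true
      · simp [hA]
      · simp [hA]
    · rintro ⟨d, rfl, rfl⟩
      unfold CHK_cfg
      by_cases hA : A c.qt = true
      · simp [hA]
      · simp [hA]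
  | go q mv g wm o =>
    simp only [CHK_act, Does]
    constructor
    · rintro ⟨h1, h2⟩
      exact ⟨⟨q, fun i => move x.length (mv i) (c.pos i), put c.tape c.wp g,
        move c.tape.length wm c.wp, c.qt ++ o.toList⟩, h2, h1, rfl⟩
    · rintro ⟨d, rfl, h1, rfl⟩
      exact ⟨h1, rfl⟩

theorem CHK_next (M : Mach Q Γ (h + 1)) (A : Oracle) (x : List Bool) (l : ℕ)
    (c : Cfg Q Γ (h + 1)) (c' : Cfg (Option (Option Q)) Γ (h + 1)) :
    (CHK_mach M).Next A x l (CHK_cfg c) c' ↔ ∃ d, c' = CHK_cfg d ∧ M.Next A x l c d := by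
  unfold Mach.Next
  rw [CHK_can]
  constructor
  · rintro ⟨a, ha, hd⟩
    obtain ⟨b, hb, rfl⟩ := List.mem_map.mp ha
    obtain ⟨d, hd1, hd2⟩ := (CHK_does A x l b c c').mp hd
    exact ⟨d, hd1, b, hb, hd2⟩
  · rintro ⟨d, hd1, b, hb, hd2⟩
    exact ⟨_, List.mem_map_of_mem hb, (CHK_does A x l b c c').mpr ⟨d, hd1, hd2⟩⟩

theorem CHK_reach (M : Mach Q Γ (h + 1)) (A : Oracle) (x : List Bool) (l : ℕ)
    (c : Cfg Q Γ (h + 1)) (c' : Cfg (Option (Option Q)) Γ (h + 1)) :
    Relation.ReflTransGen ((CHK_mach M).Next A x l) (CHK_cfg c) c' ↔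
      ∃ d, c' = CHK_cfg d ∧ Relation.ReflTransGen (M.Next A x l) c d := by
  constructor
  · intro hr
    induction hr with
    | refl => exact ⟨c, rfl, Relation.ReflTransGen.refl⟩
    | tail _ hn ih =>
      obtain ⟨d, rfl, hd⟩ := ih
      obtain ⟨e, he1, he2⟩ := (CHK_next M A x l d _).mp hn
      exact ⟨e, he1, hd.tail he2⟩
  · rintro ⟨d, rfl, hd⟩
    induction hd with
    | refl => exact Relation.ReflTransGen.refl
    | tail _ hn ih => exact ih.tail ((CHK_next M A x l _ _).mpr ⟨_, rfl, hn⟩)

theorem CHK_acc (M : Mach Q Γ (h + 1)) (x : List Bool) (c : Cfg Q Γ (h + 1)) :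
    Act.acc ∈ (CHK_mach M).can x (CHK_cfg c) ↔ Act.acc ∈ M.can x c := by
  rw [CHK_can, List.mem_map]
  constructor
  · rintro ⟨a, ha, hb⟩
    cases a with
    | acc => exact ha
    | ask q₁ q₀ => simp [CHK_act] at hb
    | go q mv g wm o => simp [CHK_act] at hb
  · intro ha
    exact ⟨_, ha, rfl⟩

theorem CHK_canlen {Q' : Type} {M' : Mach Q' Γ (h + 1)} (hM : M'.Det) (x : List Bool)
    (c : Cfg Q' Γ (h + 1)) {a b : Act Q' Γ (h + 1)} (ha : a ∈ M'.can x c)
    (hb : b ∈ M'.can x c) : a = b := by
  have hl : (M'.can x c).length ≤ 1 := by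
    unfold Mach.can
    split_ifs
    · exact hM _ _ _
    · exact (List.length_take_le' _ _).trans (hM _ _ _)
  match hcan : M'.can x c, hl, ha, hb with
  | [], _, ha, _ => simp at ha
  | [e], _, ha, hb =>
    rw [List.mem_singleton] at ha hb
    rw [ha, hb]
  | _ :: _ :: _, hl, _, _ => simp at hl

theorem CHK_doesu {Q' : Type} (A : Oracle) (x : List Bool) (l : ℕ) (a : Act Q' Γ (h + 1))
    (c d e : Cfg Q' Γ (h + 1)) (hd : Does A x l a c d) (he : Does A x l a c e) : d = e := by
  cases a with
  | acc => exact hd.elim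
  | ask q₁ q₀ => exact Eq.trans hd (Eq.symm he)
  | go q mv g wm o => exact hd.2.trans he.2.symm

theorem CHK_uniq {Q' : Type} {M' : Mach Q' Γ (h + 1)} (hM : M'.Det) (A : Oracle) (x : List Bool)
    (l : ℕ) : Relator.RightUnique (M'.Next A x l) := by
  rintro c d e ⟨a, ha, hd⟩ ⟨b, hb, he⟩
  have := CHK_canlen hM x c ha hb
  subst this
  exact CHK_doesu A x l a c d e hd he

/-- if the machine reaches `c₁`, it accepts iff it accepts from `c₁` -/
theorem CHK_from {Q' : Type} {M' : Mach Q' Γ (h + 1)} (hM : M'.Det) (A : Oracle) (x : List Bool)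
    (l : ℕ) (c₀ c₁ : Cfg Q' Γ (h + 1)) (h1 : Relation.ReflTransGen (M'.Next A x l) c₀ c₁) :
    (∃ c, Relation.ReflTransGen (M'.Next A x l) c₀ c ∧ Act.acc ∈ M'.can x c) ↔
      ∃ c, Relation.ReflTransGen (M'.Next A x l) c₁ c ∧ Act.acc ∈ M'.can x c := by
  constructor
  · rintro ⟨c, hc, ha⟩
    rcases Relation.ReflTransGen.total_of_right_unique (CHK_uniq hM A x l) h1 hc with h2 | h2
    · exact ⟨c, h2, ha⟩
    · rcases Relation.ReflTransGen.cases_head h2 with h3 | ⟨d, h3, -⟩
      · subst h3
        exact ⟨c, Relation.ReflTransGen.refl, ha⟩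
      · obtain ⟨a, ha', hd⟩ := h3
        have := CHK_canlen hM x c ha ha'
        subst this
        exact hd.elim
  · rintro ⟨c, hc, ha⟩
    exact ⟨c, h1.trans hc, ha⟩

/-- configurations of the checking part -/
def CHK_at (q : Option (Option Q)) (p : ℕ) (t : List Γ) : Cfg (Option (Option Q)) Γ (h + 1) :=
  ⟨q, fun i => if i = 0 then p else 0, t, 0, []⟩

theorem CHK_step (M : Mach Q Γ (h + 1)) (A : Oracle) (x : List Bool) (l : ℕ) (t : List Γ)
    (q q' : Option (Option Q)) (p : ℕ) (d : Mv)
    (hact : (CHK_mach M).act q (fun i => look x (if i = 0 then p else 0)) (look t 0) =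
      [.go q' (CHK_mv h d) none .stay none]) :
    (CHK_mach M).Next A x l (CHK_at q p t) (CHK_at q' (move x.length d p) t) := by
  refine ⟨.go q' (CHK_mv h d) none .stay none, ?_, ?_⟩
  · unfold Mach.can
    rw [if_pos (show (CHK_at (h := h) q p t).qt = [] from rfl)]
    change _ ∈ (CHK_mach M).act q (fun i => look x (if i = 0 then p else 0)) (look t 0)
    rw [hact]
    simp
  · refine ⟨by simp [CHK_at], ?_⟩
    unfold CHK_at
    congr 1
    funext i
    by_cases hi : i = 0
    · simp [hi, CHK_mv]
    · simp [hi, CHK_mv, move]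

theorem CHK_right (M : Mach Q Γ (h + 1)) (A : Oracle) (x : List Bool) (l : ℕ) (t : List Γ)
    (hx : ∀ b ∈ x, b = true) (p : ℕ) (hp : p ≤ x.length + 1) :
    Relation.ReflTransGen ((CHK_mach M).Next A x l) (CHK_at none 0 t) (CHK_at none p t) := by
  induction p with
  | zero => exact Relation.ReflTransGen.refl
  | succ p ih =>
    refine (ih (by omega)).tail ?_
    have hmv : move x.length .right p = p + 1 := by
      change min (p + 1) (x.length + 1) = p + 1
      omega
    have := CHK_step M A x l t none none p .right (by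
      by_cases hp0 : p = 0
      · subst hp0
        simp [CHK_mach, look]
      · have hlt : p - 1 < x.length := by omega
        have hb : x[p - 1] = true := hx _ (List.getElem_mem hlt)
        simp [CHK_mach, look, hp0, List.getElem?_eq_getElem hlt, hb])
    rwa [hmv] at this

theorem CHK_left (M : Mach Q Γ (h + 1)) (A : Oracle) (x : List Bool) (l : ℕ) (t : List Γ)
    (p : ℕ) :
    Relation.ReflTransGen ((CHK_mach M).Next A x l) (CHK_at (some none) p t)
      (CHK_at (some none) 0 t) := by
  induction p with
  | zero => exact Relation.ReflTransGen.refl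
  | succ p ih =>
    refine Relation.ReflTransGen.head ?_ ih
    have := CHK_step M A x l t (some none) (some none) (p + 1) .left (by
      simp only [CHK_mach, look]
      cases hc : x[p + 1 - 1]? <;> simp_all)
    exact this

theorem CHK_all (M : Mach Q Γ (h + 1)) (A : Oracle) (x : List Bool) (s l : ℕ)
    (hx : ∀ b ∈ x, b = true) :
    Relation.ReflTransGen ((CHK_mach M).Next A x l) ((CHK_mach M).init s)
      (CHK_cfg (M.init s)) := by
  have e0 : (CHK_mach M).init s = CHK_at none 0 (List.replicate s M.blank) := by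
    unfold Mach.init CHK_at
    congr 1
    funext i
    simp
  have e1 : CHK_cfg (M.init s) = CHK_at (h := h) (some (some M.start)) 0
      (List.replicate s M.blank) := by
    unfold Mach.init CHK_at CHK_cfg
    congr 1
    funext i
    simp
  rw [e0, e1]
  refine (CHK_right M A x l _ hx (x.length + 1) le_rfl).trans ?_
  refine Relation.ReflTransGen.head (CHK_step M A x l _ none (some none) (x.length + 1) .left
    (by simp [CHK_mach, look])) ?_
  refine (CHK_left M A x l _ _).tail ?_
  refine ⟨.go (some (some M.start)) (fun _ => .stay) none .stay none, ?_, ?_⟩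
  · unfold Mach.can
    rw [if_pos (show (CHK_at (h := h) _ _ _).qt = [] from rfl)]
    simp [CHK_mach, CHK_at, look]
  · refine ⟨by simp [CHK_at], ?_⟩
    unfold CHK_at
    congr 1

theorem CHK_never (M : Mach Q Γ (h + 1)) (A : Oracle) (x : List Bool) (s l : ℕ)
    (hx : ¬ ∀ b ∈ x, b = true) (c : Cfg (Option (Option Q)) Γ (h + 1))
    (hc : Relation.ReflTransGen ((CHK_mach M).Next A x l) ((CHK_mach M).init s) c) :
    c.q = none ∧ c.qt = [] ∧ ∀ j, j + 1 < c.pos 0 → x[j]? = some true := by
  induction hc with
  | refl => exact ⟨rfl, rfl, fun j hj => absurd hj (by simp [Mach.init])⟩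
  | @tail c c' _ hn ih =>
    obtain ⟨h1, h2, h3⟩ := ih
    obtain ⟨a, ha, hd⟩ := hn
    unfold Mach.can at ha
    rw [if_pos h2, h1] at ha
    have hright : ∀ (hlet : c.pos 0 = 0 ∨ x[c.pos 0 - 1]? = some true)
        (hd' : Does A x l (.go none (CHK_mv h .right) none .stay none) c c'),
        c'.q = none ∧ c'.qt = [] ∧ ∀ j, j + 1 < c'.pos 0 → x[j]? = some true := by
      intro hlet hd'
      obtain ⟨-, rfl⟩ := hd'
      refine ⟨rfl, by simp [h2], ?_⟩
      intro j hj
      have hj' : j + 1 < min (c.pos 0 + 1) (x.length + 1) := hj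
      by_cases hj2 : j + 1 < c.pos 0
      · exact h3 j hj2
      · have hj3 : j + 1 = c.pos 0 := by omega
        rcases hlet with h0 | h0
        · omega
        · rw [← hj3] at h0
          simpa using h0
    change a ∈ (match look x (c.pos 0) with
      | .lend => [Act.go none (CHK_mv h .right) none .stay none]
      | .letter true => [.go none (CHK_mv h .right) none .stay none]
      | .letter false => []
      | .rend => [.go (some none) (CHK_mv h .left) none .stay none] :
        List (Act (Option (Option Q)) Γ (h + 1))) at ha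
    by_cases hp0 : c.pos 0 = 0
    · rw [show look x (c.pos 0) = .lend by simp [look, hp0]] at ha
      simp only [List.mem_singleton] at ha
      subst ha
      exact hright (Or.inl hp0) hd
    · rcases hxc : x[c.pos 0 - 1]? with _ | b
      · exfalso
        apply hx
        intro b hb
        obtain ⟨j, hj, rfl⟩ := List.getElem_of_mem hb
        rw [List.getElem?_eq_none_iff] at hxc
        have := h3 j (by omega)
        rw [List.getElem?_eq_getElem hj] at this
        exact Option.some.inj this
      · cases b with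
        | false =>
          rw [show look x (c.pos 0) = .letter false by simp [look, hp0, hxc]] at ha
          simp at ha
        | true =>
          rw [show look x (c.pos 0) = .letter true by simp [look, hp0, hxc]] at ha
          simp only [List.mem_singleton] at ha
          subst ha
          exact hright (Or.inr hxc) hd

end CHK

theorem check {Q Γ : Type} [Fintype Q] {h : ℕ} (M : Mach Q Γ (h + 1)) (hM : M.Det) :
    ∃ (Q' : Type) (_ : Fintype Q') (M' : Mach Q' Γ (h + 1)), M'.Det ∧
      ∀ A s l x, M'.Acc A s l x ↔ (∀ b ∈ x, b = true) ∧ M.Acc A s l x := by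
  refine ⟨Option (Option Q), inferInstance, CHK_mach M, CHK_det M hM, ?_⟩
  intro A s l x
  by_cases hx : ∀ b ∈ x, b = true
  · unfold Mach.Acc
    rw [CHK_from (CHK_det M hM) A x l _ _ (CHK_all M A x s l hx)]
    constructor
    · rintro ⟨c, hc, ha⟩
      obtain ⟨d, rfl, hd⟩ := (CHK_reach M A x l _ c).mp hc
      exact ⟨hx, d, hd, (CHK_acc M x d).mp ha⟩
    · rintro ⟨-, d, hd, ha⟩
      exact ⟨CHK_cfg d, (CHK_reach M A x l _ _).mpr ⟨d, rfl, hd⟩, (CHK_acc M x d).mpr ha⟩
  · constructor
    · rintro ⟨c, hc, ha⟩
      exfalso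
      obtain ⟨h1, h2, -⟩ := CHK_never M A x s l hx c hc
      unfold Mach.can at ha
      rw [if_pos h2, h1] at ha
      change Act.acc ∈ (match look x (c.pos 0) with
        | .lend => [Act.go none (CHK_mv h .right) none .stay none]
        | .letter true => [.go none (CHK_mv h .right) none .stay none]
        | .letter false => []
        | .rend => [.go (some none) (CHK_mv h .left) none .stay none] :
          List (Act (Option (Option Q)) Γ (h + 1))) at ha
      split at ha <;> simp at ha
    · rintro ⟨h, -⟩
      exact absurd h hx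

end Pool.Agent.H628R4.SP
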