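import Pool.Agent.H628R4.SP.Base
import Pool.Agent.H620R2.Gauge.S
import Pool.Agent.H620R2.Gauge.A1

/-! D2: if many leaves are good, then the answers are seldom all correct. -/

namespace Pool.Agent.H628R4.SP

open Pool.Agent.NPC Pool.Agent.H620R2.Gauge Finset H568R2 Pool.Agent.H676
open Filter (atTop)

theorem D2_pair {x w x' w' : List Bool} (h : pairBits x w = pairBits x' w') :
    x = x' ∧ w = w' := by
  induction x generalizing x' with
  | nil =>
    cases x' with
    | nil =>
      simp [pairBits] at h
      exact ⟨rfl, h⟩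
    | cons b x' => simp [pairBits] at h
  | cons a x ih =>
    cases x' with
    | nil => simp [pairBits] at h
    | cons b x' =>
      have e : ∀ (c : Bool) (y z : List Bool), pairBits (c :: y) z = true :: c :: pairBits y z := by
        intro c y z
        simp [pairBits]
      rw [e, e] at h
      simp only [List.cons.injEq, true_and] at h
      obtain ⟨h1, h2⟩ := h
      obtain ⟨h3, h4⟩ := ih h2
      exact ⟨by rw [h1, h3], h4⟩

theorem D2_walk_length (A : Oracle) (x : List Bool) (j : ℕ) : (walk A x j).length = j := by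
  induction j with
  | zero => rfl
  | succ j ih => simp [walk, ih]

theorem D2_strs {n : ℕ} {x : List Bool} (h : x ∈ strs n) : x.length = n := by
  unfold strs at h
  obtain ⟨g, -, rfl⟩ := Finset.mem_image.1 h
  simp

theorem D2_walk_congr {A A' : Oracle} (n : ℕ)
    (h : ∀ y : List Bool, y.length ≤ 4 * n → A y = A' y) {x : List Bool} (hx : x ∈ strs n) (j : ℕ)
    (hj : j ≤ 2 * n) : walk A x j = walk A' x j := by
  induction j with
  | zero => rfl
  | succ j ih =>
    have h1 := ih (by omega)
    rw [walk, walk, ← h1]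
    congr 2
    apply h
    rw [length_pairBits, D2_walk_length, D2_strs hx]
    omega

theorem D2_idx_inj {y y' : List Bool} (h : idx y = idx y') : y = y' := by
  rw [← str_idx y, h, str_idx]

/-- a chosen enumeration -/
noncomputable def D2_ch (K : ℕ) (F : Finset (List Bool)) : Fin K → List Bool :=
  if h : K ≤ F.card then fun i => (F.equivFin.symm (Fin.castLE h i)).1 else fun _ => []

theorem D2_ch_mem {K : ℕ} {F : Finset (List Bool)} (h : K ≤ F.card) (j : Fin K) :
    D2_ch K F j ∈ F := by
  unfold D2_ch
  rw [dif_pos h]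
  exact (F.equivFin.symm (Fin.castLE h j)).2

theorem D2_ch_inj {K : ℕ} {F : Finset (List Bool)} (h : K ≤ F.card) :
    Function.Injective (D2_ch K F) := by
  unfold D2_ch
  rw [dif_pos h]
  intro i j hij
  have h1 := F.equivFin.symm.injective (Subtype.ext hij)
  exact Fin.castLE_injective h h1

/-- the positions of the chosen leaves -/
noncomputable def D2_pos (n N K : ℕ) (F : Finset (List Bool)) (v : Fin N → Bool) (j : Fin K) : ℕ :=
  idx (pairBits (D2_ch K F j) (walk (orc N v) (D2_ch K F j) (2 * n)))

open Classical in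
/-- flip the bits at the chosen leaves -/
noncomputable def D2_flip (n N K : ℕ) (F : Finset (List Bool)) (v : Fin N → Bool)
    (T : Fin K → Bool) : Fin N → Bool :=
  fun i => if ∃ j, T j = true ∧ D2_pos n N K F v j = i then !(v i) else v i

section

variable {n N K : ℕ} {F : Finset (List Bool)} {W : Finset (List Bool)} {v : Fin N → Bool}

theorem D2_orc_flip (T : Fin K → Bool) (y : List Bool)
    (hy : ∀ j, y ≠ pairBits (D2_ch K F j) (walk (orc N v) (D2_ch K F j) (2 * n))) :
    orc N (D2_flip n N K F v T) y = orc N v y := by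
  unfold orc
  split_ifs with h
  · unfold D2_flip
    rw [if_neg]
    rintro ⟨j, -, hj⟩
    exact hy j (D2_idx_inj hj.symm)
  · rfl

theorem D2_good_mem (hF : K ≤ (good n W (orc N v)).card) (j : Fin K) :
    D2_ch K (good n W (orc N v)) j ∈ strs n ∧
    pairBits (D2_ch K (good n W (orc N v)) j)
      (walk (orc N v) (D2_ch K (good n W (orc N v)) j) (2 * n)) ∉ W := by
  have h1 := D2_ch_mem hF j
  unfold good at h1 ⊢
  exact Finset.mem_filter.1 h1

theorem D2_short (hF : K ≤ (good n W (orc N v)).card) (T : Fin K → Bool) (y : List Bool)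
    (hy : y.length ≤ 4 * n) :
    orc N (D2_flip n N K (good n W (orc N v)) v T) y = orc N v y := by
  apply D2_orc_flip
  intro j h
  have h1 := D2_strs (D2_good_mem hF j).1
  rw [h, length_pairBits, D2_walk_length, h1] at hy
  omega

theorem D2_W (hF : K ≤ (good n W (orc N v)).card) (T : Fin K → Bool) (y : List Bool)
    (hy : y ∈ W) :
    orc N (D2_flip n N K (good n W (orc N v)) v T) y = orc N v y := by
  apply D2_orc_flip
  intro j h
  rw [h] at hy
  exact (D2_good_mem hF j).2 hy

theorem D2_good (hF : K ≤ (good n W (orc N v)).card) (T : Fin K → Bool) :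
    good n W (orc N (D2_flip n N K (good n W (orc N v)) v T)) = good n W (orc N v) := by
  have key : ∀ A A' : Oracle, (∀ x ∈ strs n, walk A x (2 * n) = walk A' x (2 * n)) →
      good n W A = good n W A' := by
    intro A A' h
    unfold good
    apply Finset.filter_congr
    intro x hx
    rw [h x hx]
  exact key _ _ fun x hx => D2_walk_congr n (D2_short hF T) hx (2 * n) le_rfl

end

open Classical in
theorem few_good (n N : ℕ) (hN : 2 ^ (4 * n + 2) ≤ N) (W : Finset (List Bool))
    (G : List Bool → (Fin N → Bool) → Bool)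
    (hG : ∀ x v v', (∀ y ∈ W, orc N v y = orc N v' y) → G x v = G x v') :
    (univ.filter (fun v : Fin N → Bool =>
      (∀ x ∈ strs n, (x ∈ testT (orc N v) ↔ G x v = true)) ∧
      2 ^ (n - 1) ≤ (good n W (orc N v)).card)).card * 2 ^ 2 ^ (n - 1) ≤ 2 ^ N := by
  generalize 2 ^ (n - 1) = K
  have hcard : (univ.filter (fun v : Fin N → Bool =>
      (∀ x ∈ strs n, (x ∈ testT (orc N v) ↔ G x v = true)) ∧
      K ≤ (good n W (orc N v)).card)).card * 2 ^ K =
      ((univ.filter (fun v : Fin N → Bool =>
      (∀ x ∈ strs n, (x ∈ testT (orc N v) ↔ G x v = true)) ∧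
      K ≤ (good n W (orc N v)).card)) ×ˢ (univ : Finset (Fin K → Bool))).card := by
    rw [Finset.card_product]
    simp
  have hcard2 : 2 ^ N = (univ : Finset (Fin N → Bool)).card := by simp
  rw [hcard, hcard2]
  refine Finset.card_le_card_of_injOn
    (fun p => D2_flip n N K (good n W (orc N p.1)) p.1 p.2) (fun _ _ => Finset.mem_univ _) ?_
  rintro ⟨v, T⟩ hv ⟨v', T'⟩ hv' he
  simp only [Finset.coe_product, Set.mem_prod, Finset.mem_coe, Finset.mem_filter,
    Finset.mem_univ, true_and, and_true] at hv hv'
  obtain ⟨h1, h2⟩ := hv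
  obtain ⟨h1', h2'⟩ := hv'
  simp only at he
  -- the good sets agree
  have hF : good n W (orc N v) = good n W (orc N v') := by
    rw [← D2_good h2 T, he, D2_good h2' T']
  -- the walks agree
  have hwalk : ∀ x ∈ strs n, walk (orc N v) x (2 * n) = walk (orc N v') x (2 * n) := by
    intro x hx
    rw [← D2_walk_congr n (D2_short h2 T) hx (2 * n) le_rfl, he,
      D2_walk_congr n (D2_short h2' T') hx (2 * n) le_rfl]
  have hGG : ∀ x, G x v = G x v' := by
    intro x
    have e1 := hG x _ v (D2_W h2 T)
    have e2 := hG x _ v' (D2_W h2' T')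
    rw [← e1, he, e2]
  rw [← hF] at he h2'
  have hmem : ∀ j : Fin K, D2_ch K (good n W (orc N v)) j ∈ strs n := fun j =>
    (D2_good_mem h2 j).1
  have hpos : ∀ j : Fin K, D2_pos n N K (good n W (orc N v)) v' j =
      D2_pos n N K (good n W (orc N v)) v j := by
    intro j
    unfold D2_pos
    rw [hwalk _ (hmem j)]
  have hlt : ∀ j : Fin K, D2_pos n N K (good n W (orc N v)) v j < N := by
    intro j
    have a1 := idx_lt (pairBits (D2_ch K (good n W (orc N v)) j)
      (walk (orc N v) (D2_ch K (good n W (orc N v)) j) (2 * n)))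
    rw [length_pairBits, D2_walk_length, D2_strs (hmem j)] at a1
    unfold D2_pos
    have a2 : 2 * n + 1 + 2 * n + 1 = 4 * n + 2 := by ring
    rw [a2] at a1
    omega
  have hinj : ∀ j j' : Fin K, D2_pos n N K (good n W (orc N v)) v j =
      D2_pos n N K (good n W (orc N v)) v j' → j = j' := by
    intro j j' h
    exact D2_ch_inj h2 (D2_pair (D2_idx_inj h)).1
  have hv0 : ∀ j : Fin K, v ⟨_, hlt j⟩ = v' ⟨_, hlt j⟩ := by
    intro j
    have a1 := h1 _ (hmem j)
    have a2 := h1' _ (hmem j)
    rw [hGG] at a1
    have a3 := a1.trans a2.symm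
    unfold testT at a3
    simp only [Set.mem_ofPred_eq] at a3
    rw [D2_strs (hmem j), ← hwalk _ (hmem j)] at a3
    have a4 : ∀ w : Fin N → Bool, orc N w (pairBits (D2_ch K (good n W (orc N v)) j)
        (walk (orc N v) (D2_ch K (good n W (orc N v)) j) (2 * n))) = w ⟨_, hlt j⟩ := by
      intro w
      exact dif_pos (hlt j)
    rw [a4, a4] at a3
    exact Bool.eq_iff_iff.2 a3
  have hT : T = T' := by
    funext j
    have a1 := congrFun he ⟨_, hlt j⟩
    unfold D2_flip at a1
    have a2 : ∀ S : Fin K → Bool, (∃ j', S j' = true ∧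
        D2_pos n N K (good n W (orc N v)) v j' = D2_pos n N K (good n W (orc N v)) v j) ↔
        S j = true := by
      intro S
      constructor
      · rintro ⟨j', hj', hj⟩
        rw [← hinj _ _ hj]
        exact hj'
      · intro h
        exact ⟨j, h, rfl⟩
    simp only [hpos, a2] at a1
    rw [hv0 j] at a1
    generalize v' ⟨_, hlt j⟩ = b at a1
    cases hTj : T j <;> cases hTj' : T' j <;> simp [hTj, hTj'] at a1 ⊢
  subst hT
  have hvv : v = v' := by
    funext i
    have a1 := congrFun he i
    unfold D2_flip at a1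
    simp only [hpos] at a1
    split_ifs at a1 with h
    · simpa using a1
    · exact a1
  rw [hvv]

end Pool.Agent.H628R4.SP
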