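import Pool.Agent.H628R4.SP.Base

set_option autoImplicit false

/-! Task DEC: a machine which writes the code string on its query tape and asks. -/

namespace Pool.Agent.H628R4.SP

open Pool.Agent.NPC Pool.Agent.H620R2.Gauge

namespace DEC

/-- the states -/
inductive QQ (e κ : ℕ) : Type
  | pre (i : Fin (e + 1))
  | pr
  | inc (j : Fin (κ + 1))
  | rew (j : Fin (κ + 1))
  | copy
  | yes
  | no

/-- an encoding of the states -/
def QQ.enc {e κ : ℕ} : QQ e κ → (Fin (e + 1) ⊕ Fin (κ + 1) ⊕ Fin (κ + 1)) ⊕ Fin 4
  | .pre i => .inl (.inl i)
  | .inc j => .inl (.inr (.inl j))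
  | .rew j => .inl (.inr (.inr j))
  | .pr => .inr 0
  | .copy => .inr 1
  | .yes => .inr 2
  | .no => .inr 3

theorem QQ.enc_inj {e κ : ℕ} : Function.Injective (QQ.enc (e := e) (κ := κ)) := by
  intro a b h
  cases a <;> cases b <;> simp [QQ.enc] at h ⊢ <;> exact h

noncomputable instance {e κ : ℕ} : Fintype (QQ e κ) := Fintype.ofInjective _ QQ.enc_inj

/-- move only the head `j` -/
def mv1 {κ : ℕ} (j : Fin (κ + 1)) (m : Mv) : Fin (κ + 1) → Mv := fun i => if i = j then m else .stay

/-- the machine -/
def mach (e κ : ℕ) : Mach (QQ e κ) Unit (κ + 1) where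
  start := .pre 0
  blank := ()
  act q y _ := match q with
    | .pre i => if h : i.val < e then
        [.go (.pre ⟨i.val + 1, by omega⟩) (fun _ => .stay) none .stay (some true)]
        else [.go .pr (fun _ => .stay) none .stay (some false)]
    | .pr => [.go (.inc 0) (fun _ => .stay) none .stay (some true)]
    | .inc j => if j.val < κ then
        (match y j with
          | .rend => [.go (.rew j) (fun _ => .stay) none .stay none]
          | _ => [.go .pr (mv1 j .right) none .stay none])
        else [.go .copy (mv1 j .right) none .stay (some false)]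
    | .rew j => if h : j.val < κ then
        (match y j with
          | .lend => [.go (.inc ⟨j.val + 1, by omega⟩) (fun _ => .stay) none .stay none]
          | _ => [.go (.rew j) (mv1 j .left) none .stay none])
        else []
    | .copy => match y (Fin.last κ) with
        | .letter b => [.go .copy (mv1 (Fin.last κ) .right) none .stay (some b)]
        | .rend => [.ask .yes .no]
        | .lend => []
    | .yes => [.acc]
    | .no => []

theorem mach_det (e κ : ℕ) : (mach e κ).Det := by
  intro q y g
  cases q with
  | pre i => simp only [mach]; split <;> simp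
  | pr => simp [mach]
  | inc j =>
    simp only [mach]
    split
    · split <;> simp
    · simp
  | rew j =>
    simp only [mach]
    split
    · split <;> simp
    · simp
  | copy =>
    simp only [mach]
    split <;> simp
  | yes => simp [mach]
  | no => simp [mach]

section general

variable {Q Γ : Type} {h : ℕ} {M : Mach Q Γ h}

theorem can_eq (hM : M.Det) (x : List Bool) (c : Cfg Q Γ h) :
    M.can x c = M.act c.q (fun i => look x (c.pos i)) (look c.tape c.wp) := by
  unfold Mach.can
  split
  · rfl
  · exact List.take_of_length_le (hM _ _ _)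

theorem next_unique (hM : M.Det) {A : Oracle} {x : List Bool} {l : ℕ} {c c1 c2 : Cfg Q Γ h}
    (h1 : M.Next A x l c c1) (h2 : M.Next A x l c c2) : c1 = c2 := by
  obtain ⟨a1, ha1, hd1⟩ := h1
  obtain ⟨a2, ha2, hd2⟩ := h2
  rw [can_eq hM] at ha1 ha2
  have hlen := hM c.q (fun i => look x (c.pos i)) (look c.tape c.wp)
  have haa : a1 = a2 := by
    generalize hL : M.act c.q (fun i => look x (c.pos i)) (look c.tape c.wp) = L at ha1 ha2 hlen
    match L, hlen, ha1, ha2 with
    | [], _, ha1, _ => simp at ha1
    | [a], _, ha1, ha2 =>
      rw [List.mem_singleton.1 ha1, List.mem_singleton.1 ha2]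
    | a :: b :: L, hlen, _, _ => simp at hlen
  subst haa
  match a1, hd1, hd2 with
  | .acc, hd1, _ => exact absurd hd1 (by simp [Does])
  | .ask q1 q0, hd1, hd2 => exact hd1.trans hd2.symm
  | .go q mv g wm o, hd1, hd2 => exact hd1.2.trans hd2.2.symm

theorem no_next_of_acc (hM : M.Det) {A : Oracle} {x : List Bool} {l : ℕ} {c c1 : Cfg Q Γ h}
    (h1 : Act.acc ∈ M.can x c) : ¬ M.Next A x l c c1 := by
  rintro ⟨a2, ha2, hd2⟩
  rw [can_eq hM] at h1 ha2
  have hlen := hM c.q (fun i => look x (c.pos i)) (look c.tape c.wp)
  generalize hL : M.act c.q (fun i => look x (c.pos i)) (look c.tape c.wp) = L at h1 ha2 hlen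
  match L, hlen, h1, ha2 with
  | [], _, h1, _ => simp at h1
  | [a], _, h1, ha2 =>
    rw [List.mem_singleton] at h1 ha2
    rw [ha2, ← h1] at hd2
    exact hd2
  | a :: b :: L, hlen, _, _ => simp at hlen

theorem reach_unique (hM : M.Det) {A : Oracle} {x : List Bool} {l : ℕ} {a b c : Cfg Q Γ h}
    (hab : Relation.ReflTransGen (M.Next A x l) a b) (hb : ∀ b', ¬ M.Next A x l b b')
    (hac : Relation.ReflTransGen (M.Next A x l) a c) :
    Relation.ReflTransGen (M.Next A x l) c b := by
  induction hac with
  | refl => exact hab
  | tail _ hcd ih =>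
    rcases Relation.ReflTransGen.cases_head ih with h1 | ⟨d, h1, h2⟩
    · exact absurd (h1 ▸ hcd) (hb _)
    · rw [next_unique hM hcd h1]
      exact h2

/-- acceptance of a deterministic machine, if a halting configuration is known -/
theorem acc_iff (hM : M.Det) {A : Oracle} {x : List Bool} {s l : ℕ} {b : Cfg Q Γ h}
    (hb : Relation.ReflTransGen (M.Next A x l) (M.init s) b) (hn : ∀ b', ¬ M.Next A x l b b') :
    M.Acc A s l x ↔ Act.acc ∈ M.can x b := by
  constructor
  · rintro ⟨c, hc, hacc⟩
    have h1 := reach_unique hM hb hn hc
    rcases Relation.ReflTransGen.cases_head h1 with h2 | ⟨d, h2, -⟩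
    · rw [← h2]; exact hacc
    · exact absurd h2 (no_next_of_acc hM hacc)
  · intro h1
    exact ⟨b, hb, h1⟩

end general

section run

variable {e κ : ℕ} {A : Oracle} {x : List Bool} {l : ℕ} {T : List Unit} {u : ℕ}

/-- reachability of configurations with the work tape `T` and the work head at `u` -/
def Go (e κ : ℕ) (A : Oracle) (x : List Bool) (l : ℕ) (T : List Unit) (u : ℕ) (q : QQ e κ)
    (pos : Fin (κ + 1) → ℕ) (w : List Bool) (q' : QQ e κ) (pos' : Fin (κ + 1) → ℕ)
    (w' : List Bool) : Prop :=
  Relation.ReflTransGen ((mach e κ).Next A x l) ⟨q, pos, T, u, w⟩ ⟨q', pos', T, u, w'⟩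

theorem step_go {q : QQ e κ} {pos : Fin (κ + 1) → ℕ} {w : List Bool} {q' : QQ e κ}
    {mv : Fin (κ + 1) → Mv} {o : Option Bool} {pos' : Fin (κ + 1) → ℕ} {w' : List Bool}
    (h : (mach e κ).act q (fun i => look x (pos i)) (look T u) = [.go q' mv none .stay o])
    (hp : (fun i => move x.length (mv i) (pos i)) = pos') (hw : w ++ o.toList = w')
    (hl : w'.length ≤ l) : Go e κ A x l T u q pos w q' pos' w' := by
  refine Relation.ReflTransGen.single ⟨.go q' mv none .stay o, ?_, ?_⟩
  · rw [can_eq (mach_det e κ)]
    simp only
    rw [h]
    exact List.mem_singleton_self _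
  · refine ⟨?_, ?_⟩
    · simp only
      rw [hw]; exact hl
    · simp only [put, move]
      rw [hw]
      congr 1
      exact hp.symm

theorem stay_pos (pos : Fin (κ + 1) → ℕ) :
    (fun i => move x.length ((fun _ => Mv.stay : Fin (κ + 1) → Mv) i) (pos i)) = pos := rfl

theorem right_pos (pos : Fin (κ + 1) → ℕ) (j : Fin (κ + 1)) (h : pos j ≤ x.length) :
    (fun i => move x.length (mv1 j Mv.right i) (pos i)) = Function.update pos j (pos j + 1) := by
  funext i
  unfold mv1
  by_cases hi : i = j
  · subst hi
    rw [if_pos rfl, Function.update_self]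
    simp only [move]
    omega
  · rw [if_neg hi, Function.update_of_ne hi]
    rfl

theorem left_pos (pos : Fin (κ + 1) → ℕ) (j : Fin (κ + 1)) :
    (fun i => move x.length (mv1 j Mv.left i) (pos i)) = Function.update pos j (pos j - 1) := by
  funext i
  unfold mv1
  by_cases hi : i = j
  · subst hi
    rw [if_pos rfl, Function.update_self]
    rfl
  · rw [if_neg hi, Function.update_of_ne hi]
    rfl

theorem look_rend : look x (x.length + 1) = Cell.rend := by
  unfold look
  simp

theorem look_le {p : ℕ} (hp : p ≤ x.length) : look x p ≠ Cell.rend := by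
  unfold look
  split
  · simp
  · rename_i h0
    have : p - 1 < x.length := by omega
    rw [List.getElem?_eq_getElem this]
    simp

theorem look_pos {p : ℕ} (hp : p ≠ 0) : look x p ≠ Cell.lend := by
  unfold look
  rw [if_neg hp]
  split <;> simp

/-- rewinding -/
theorem rewind (j : Fin (κ + 1)) (hj : j.val < κ) (p : ℕ) (pos : Fin (κ + 1) → ℕ) (w : List Bool)
    (hl : w.length ≤ l) :
    Go e κ A x l T u (.rew j) (Function.update pos j p) w (.rew j) (Function.update pos j 0) w := by
  induction p with
  | zero => exact Relation.ReflTransGen.refl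
  | succ p ih =>
    refine Relation.ReflTransGen.trans ?_ ih
    refine step_go (mv := mv1 j .left) (o := none) ?_ ?_ (by simp) hl
    · have hne : look x (Function.update pos j (p + 1) j) ≠ Cell.lend := by
        rw [Function.update_self]
        exact look_pos (Nat.succ_ne_zero p)
      simp only [mach, dif_pos hj]
    · rw [left_pos]
      simp

/-- the odometer -/
theorem odometer (j : ℕ) : ∀ (hj : j < κ + 1) (pos : Fin (κ + 1) → ℕ) (w : List Bool),
    (∀ i : Fin (κ + 1), i.val < j → pos i = 0) → w.length + (x.length + 2) ^ j ≤ l →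
    Go e κ A x l T u .pr pos w (.inc ⟨j, hj⟩) pos
      (w ++ List.replicate ((x.length + 2) ^ j) true) := by
  induction j with
  | zero =>
    intro hj pos w _ hl
    refine step_go (mv := fun _ => .stay) (o := some true) rfl rfl (by simp) ?_
    simpa using hl
  | succ j ih =>
    intro hj pos w hpos hl
    have hjκ : j < κ := by omega
    have hj1 : j < κ + 1 := by omega
    have h0 : pos ⟨j, hj1⟩ = 0 := hpos ⟨j, hj1⟩ (Nat.lt_succ_self j)
    have hpow : (x.length + 2) ^ (j + 1) = (x.length + 2) * (x.length + 2) ^ j := by ring
    -- the rounds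
    have rounds : ∀ r : ℕ, r ≤ x.length + 1 →
        Go e κ A x l T u .pr pos w (.inc ⟨j, hj1⟩) (Function.update pos ⟨j, hj1⟩ r)
          (w ++ List.replicate ((r + 1) * (x.length + 2) ^ j) true) := by
      intro r
      induction r with
      | zero =>
        intro _
        have h1 := ih hj1 pos w (fun i hi => hpos i (by omega)) (by
          rw [hpow] at hl
          have : (x.length + 2) ^ j ≤ (x.length + 2) * (x.length + 2) ^ j :=
            Nat.le_mul_of_pos_left _ (by omega)
          omega)
        have h2 : Function.update pos ⟨j, hj1⟩ 0 = pos := by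
          rw [← h0, Function.update_eq_self]
        rw [h2]
        simpa using h1
      | succ r ihr =>
        intro hr
        refine Relation.ReflTransGen.trans (ihr (by omega)) ?_
        have hbd : (r + 1 + 1) * (x.length + 2) ^ j ≤ (x.length + 2) * (x.length + 2) ^ j :=
          Nat.mul_le_mul_right _ (by omega)
        have hbd' : (r + 1) * (x.length + 2) ^ j + (x.length + 2) ^ j =
          (r + 1 + 1) * (x.length + 2) ^ j := by ring
        have s1 : Go e κ A x l T u (.inc ⟨j, hj1⟩) (Function.update pos ⟨j, hj1⟩ r)
            (w ++ List.replicate ((r + 1) * (x.length + 2) ^ j) true) .pr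
            (Function.update pos ⟨j, hj1⟩ (r + 1))
            (w ++ List.replicate ((r + 1) * (x.length + 2) ^ j) true) := by
          refine step_go (mv := mv1 ⟨j, hj1⟩ .right) (o := none) ?_ ?_ (by simp) ?_
          · have hne : look x (Function.update pos ⟨j, hj1⟩ r ⟨j, hj1⟩) ≠ Cell.rend := by
              rw [Function.update_self]
              exact look_le (by omega)
            simp only [mach, if_pos hjκ]
          · rw [right_pos _ _ (by rw [Function.update_self]; omega)]
            simp
          · simp only [List.length_append, List.length_replicate]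
            omega
        refine Relation.ReflTransGen.trans s1 ?_
        have h1 := ih hj1 (Function.update pos ⟨j, hj1⟩ (r + 1))
          (w ++ List.replicate ((r + 1) * (x.length + 2) ^ j) true) (by
            intro i hi
            rw [Function.update_of_ne]
            · exact hpos i (by omega)
            · intro h; rw [h] at hi; exact absurd hi (lt_irrefl _)) (by
            simp only [List.length_append, List.length_replicate]
            omega)
        rw [List.append_assoc, ← List.replicate_add, hbd'] at h1
        exact h1
    have h1 := rounds (x.length + 1) le_rfl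
    refine Relation.ReflTransGen.trans h1 ?_
    have hrep : (x.length + 1 + 1) * (x.length + 2) ^ j = (x.length + 2) ^ (j + 1) := by
      rw [hpow]
    rw [hrep]
    have hlw : (w ++ List.replicate ((x.length + 2) ^ (j + 1)) true).length ≤ l := by
      simp only [List.length_append, List.length_replicate]
      exact hl
    have s2 : Go e κ A x l T u (.inc ⟨j, hj1⟩) (Function.update pos ⟨j, hj1⟩ (x.length + 1))
        (w ++ List.replicate ((x.length + 2) ^ (j + 1)) true) (.rew ⟨j, hj1⟩)
        (Function.update pos ⟨j, hj1⟩ (x.length + 1))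
        (w ++ List.replicate ((x.length + 2) ^ (j + 1)) true) := by
      refine step_go (mv := fun _ => .stay) (o := none) ?_ rfl (by simp) hlw
      have he : look x (Function.update pos ⟨j, hj1⟩ (x.length + 1) ⟨j, hj1⟩) = Cell.rend := by
        rw [Function.update_self]
        exact look_rend
      simp only [mach, if_pos hjκ, he]
    refine Relation.ReflTransGen.trans s2 ?_
    refine Relation.ReflTransGen.trans (rewind ⟨j, hj1⟩ hjκ (x.length + 1) pos _ hlw) ?_
    have h2 : Function.update pos ⟨j, hj1⟩ 0 = pos := by
      rw [← h0, Function.update_eq_self]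
    rw [h2]
    refine step_go (mv := fun _ => .stay) (o := none) ?_ rfl (by simp) hlw
    have he : look x (pos ⟨j, hj1⟩) = Cell.lend := by
      rw [h0]
      rfl
    simp only [mach, dif_pos hjκ, he]

/-- copying -/
theorem copying (r : ℕ) : ∀ (p : ℕ) (pos : Fin (κ + 1) → ℕ) (w : List Bool),
    p + r = x.length → pos (Fin.last κ) = p + 1 → w.length + r ≤ l →
    Go e κ A x l T u .copy pos w .copy (Function.update pos (Fin.last κ) (x.length + 1))
      (w ++ x.drop p) := by
  induction r with
  | zero =>
    intro p pos w hp hpos _
    have h1 : x.drop p = [] := List.drop_eq_nil_of_le (by omega)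
    have h2 : Function.update pos (Fin.last κ) (x.length + 1) = pos := by
      have : x.length + 1 = pos (Fin.last κ) := by omega
      rw [this, Function.update_eq_self]
    rw [h1, h2, List.append_nil]
    exact Relation.ReflTransGen.refl
  | succ r ih =>
    intro p pos w hp hpos hl
    have hlt : p < x.length := by omega
    have h1 : x.drop p = x[p] :: x.drop (p + 1) := List.drop_eq_getElem_cons hlt
    have h2 := ih (p + 1) (Function.update pos (Fin.last κ) (p + 2)) (w ++ [x[p]]) (by omega)
      (by rw [Function.update_self]) (by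
        simp only [List.length_append, List.length_singleton]; omega)
    rw [Function.update_idem] at h2
    rw [h1]
    have h3 : w ++ x[p] :: x.drop (p + 1) = w ++ [x[p]] ++ x.drop (p + 1) := by simp
    rw [h3]
    refine Relation.ReflTransGen.trans ?_ h2
    refine step_go (mv := mv1 (Fin.last κ) .right) (o := some x[p]) ?_ ?_ (by simp) (by
      simp only [List.length_append, List.length_singleton]; omega)
    · have he : look x (pos (Fin.last κ)) = Cell.letter x[p] := by
        unfold look
        rw [hpos]
        simp [hlt]
      simp only [mach, he]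
    · rw [right_pos _ _ (by rw [hpos]; omega), hpos]

/-- the prefix of ones -/
theorem prefix_ones (i : ℕ) : ∀ (hi : i < e + 1) (pos : Fin (κ + 1) → ℕ), i ≤ l →
    Go e κ A x l T u (.pre 0) pos [] (.pre ⟨i, hi⟩) pos (List.replicate i true) := by
  induction i with
  | zero => intro _ _ _; exact Relation.ReflTransGen.refl
  | succ i ih =>
    intro hi pos hl
    refine Relation.ReflTransGen.trans (ih (by omega) pos (by omega)) ?_
    refine step_go (mv := fun _ => .stay) (o := some true) ?_ rfl ?_ (by simpa using hl)
    · have : i < e := by omega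
      simp only [mach, dif_pos this]
    · rw [List.replicate_succ']
      rfl

end run

theorem length_codeL (e κ : ℕ) (x : List Bool) :
    (codeL e κ x).length = e + 2 + (x.length + 2) ^ κ + x.length := by
  unfold codeL
  simp only [List.length_append, List.length_replicate, List.length_cons]
  omega

theorem bound (e κ n : ℕ) : e + 2 + (n + 2) ^ κ + n ≤ (n + 2) ^ (κ + (e + 3)) := by
  have h1 : 2 ^ (e + 2) ≤ (n + 2) ^ (e + 2) := Nat.pow_le_pow_left (by omega) _
  have h2 : e + 2 < 2 ^ (e + 2) := Nat.lt_two_pow_self
  have h3 : (n + 2) ^ (e + 3) = (n + 2) * (n + 2) ^ (e + 2) := by ring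
  have h4 : (n + 2) * (e + 3) ≤ (n + 2) ^ (e + 3) := by
    rw [h3]
    exact Nat.mul_le_mul_left _ (by omega)
  have h5 : e + 2 + n + 1 ≤ (n + 2) ^ (e + 3) := by
    refine le_trans ?_ h4
    nlinarith
  have h6 : 1 ≤ (n + 2) ^ κ := Nat.one_le_pow _ _ (by omega)
  rw [pow_add]
  calc e + 2 + (n + 2) ^ κ + n = (n + 2) ^ κ + (e + 2 + n) := by ring
    _ ≤ (n + 2) ^ κ + (n + 2) ^ κ * (e + 2 + n) := by
        have := Nat.le_mul_of_pos_left (e + 2 + n) h6
        omega
    _ = (n + 2) ^ κ * (e + 2 + n + 1) := by ring
    _ ≤ (n + 2) ^ κ * (n + 2) ^ (e + 3) := Nat.mul_le_mul_left _ h5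

end DEC

open DEC in
theorem dec (e κ : ℕ) : ∃ (Q : Type) (_ : Fintype Q) (M : Mach Q Unit (κ + 1)) (d : ℕ), M.Det ∧
    ∀ (A : Oracle) (s : ℕ) (x : List Bool),
      M.Acc A s ((x.length + 2) ^ d) x ↔ A (codeL e κ x) = true := by
  refine ⟨QQ e κ, inferInstance, mach e κ, κ + (e + 3), mach_det e κ, fun A s x => ?_⟩
  have hbd := bound e κ x.length
  set l := (x.length + 2) ^ (κ + (e + 3)) with hl
  set T : List Unit := List.replicate s () with hT
  have g1 : Go e κ A x l T 0 (.pre 0) (fun _ => 0) [] (.pre ⟨e, by omega⟩) (fun _ => 0)
      (List.replicate e true) := prefix_ones e (by omega) _ (by omega)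
  have g2 : Go e κ A x l T 0 (.pre ⟨e, by omega⟩) (fun _ => 0) (List.replicate e true) .pr
      (fun _ => 0) (List.replicate e true ++ [false]) := by
    refine step_go (mv := fun _ => .stay) (o := some false) ?_ rfl rfl ?_
    · simp only [mach, dif_neg (lt_irrefl e)]
    · simp only [List.length_append, List.length_replicate, List.length_singleton]; omega
  have g3 := odometer (e := e) (κ := κ) (A := A) (x := x) (l := l) (T := T) (u := 0) κ
    (by omega) (fun _ => 0) (List.replicate e true ++ [false]) (fun _ _ => rfl) (by
      simp only [List.length_append, List.length_replicate, List.length_singleton]; omega)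
  have g4 : Go e κ A x l T 0 (.inc ⟨κ, by omega⟩) (fun _ => 0)
      (List.replicate e true ++ [false] ++ List.replicate ((x.length + 2) ^ κ) true) .copy
      (Function.update (fun _ => 0) (Fin.last κ) 1)
      (List.replicate e true ++ [false] ++ List.replicate ((x.length + 2) ^ κ) true ++ [false]) := by
    refine step_go (mv := mv1 (Fin.last κ) .right) (o := some false) ?_ ?_ rfl ?_
    · simp only [mach, if_neg (lt_irrefl κ)]
      rfl
    · rw [right_pos _ _ (Nat.zero_le _)]
    · simp only [List.length_append, List.length_replicate, List.length_singleton]; omega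
  have g5 := copying (e := e) (κ := κ) (A := A) (x := x) (l := l) (T := T) (u := 0) x.length 0
    (Function.update (fun _ => 0) (Fin.last κ) 1)
    (List.replicate e true ++ [false] ++ List.replicate ((x.length + 2) ^ κ) true ++ [false])
    (by omega) (by rw [Function.update_self]) (by
      simp only [List.length_append, List.length_replicate, List.length_singleton]; omega)
  rw [Function.update_idem] at g5
  have hcode : List.replicate e true ++ [false] ++ List.replicate ((x.length + 2) ^ κ) true ++
      [false] ++ x.drop 0 = codeL e κ x := by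
    unfold codeL
    simp
  rw [hcode] at g5
  have g := (((g1.trans g2).trans g3).trans g4).trans g5
  -- the question
  have hlook : look x (Function.update (fun _ => 0) (Fin.last κ) (x.length + 1)
      (Fin.last κ : Fin (κ + 1))) = Cell.rend := by
    rw [Function.update_self]; exact look_rend
  let b : Cfg (QQ e κ) Unit (κ + 1) := ⟨if A (codeL e κ x) = true then .yes else .no,
    Function.update (fun _ => 0) (Fin.last κ) (x.length + 1), T, 0, []⟩
  have hask : (mach e κ).Next A x l
      ⟨.copy, Function.update (fun _ => 0) (Fin.last κ) (x.length + 1), T, 0, codeL e κ x⟩ b := by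
    refine ⟨.ask .yes .no, ?_, rfl⟩
    rw [can_eq (mach_det e κ)]
    simp only [mach, hlook]
    exact List.mem_singleton_self _
  have hb : Relation.ReflTransGen ((mach e κ).Next A x l) ((mach e κ).init s) b :=
    Relation.ReflTransGen.tail g hask
  by_cases hA : A (codeL e κ x) = true
  · have hbq : b = ⟨.yes, Function.update (fun _ => 0) (Fin.last κ) (x.length + 1), T, 0, []⟩ := by
      simp only [b, hA, if_true]
    have hacc : Act.acc ∈ (mach e κ).can x b := by
      rw [can_eq (mach_det e κ), hbq]
      exact List.mem_singleton_self _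
    refine ⟨fun _ => hA, fun _ => ⟨b, hb, hacc⟩⟩
  · have hbq : b = ⟨.no, Function.update (fun _ => 0) (Fin.last κ) (x.length + 1), T, 0, []⟩ := by
      simp only [b, if_neg hA]
    have hcan : (mach e κ).can x b = [] := by
      rw [can_eq (mach_det e κ), hbq]
      rfl
    have hn : ∀ b', ¬ (mach e κ).Next A x l b b' := by
      rintro b' ⟨a, ha, -⟩
      rw [hcan] at ha
      simp at ha
    rw [acc_iff (mach_det e κ) hb hn, hcan]
    simp [hA]

end Pool.Agent.H628R4.SP
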