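import Pool.Agent.H628R4.SP.Base

set_option autoImplicit false

/-! Task RUN (by helper747): the states and the letters may be taken to form `Fin k`, `Fin m`. -/

namespace Pool.Agent.H628R4.SP

open Pool.Agent.NPC Pool.Agent.H620R2.Gauge

namespace RUN

variable {Q Γ Q' Γ' : Type} {h : ℕ}

/-- transport of what a head sees -/
def cm {α β : Type} (f : α → β) : Cell α → Cell β
  | .lend => .lend
  | .rend => .rend
  | .letter a => .letter (f a)

/-- transport of an action -/
def am (a : Q → Q') (b : Γ → Γ') : Act Q Γ h → Act Q' Γ' h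
  | .acc => .acc
  | .ask q₁ q₀ => .ask (a q₁) (a q₀)
  | .go q mv g wm o => .go (a q) mv (g.map b) wm o

/-- the transported machine -/
def tr (M : Mach Q Γ h) (a : Q ≃ Q') (b : Γ ≃ Γ') : Mach Q' Γ' h where
  start := a M.start
  blank := b M.blank
  act := fun q y g => (M.act (a.symm q) y (cm b.symm g)).map (am a b)

/-- the transported configuration -/
def phi (a : Q ≃ Q') (b : Γ ≃ Γ') (c : Cfg Q Γ h) : Cfg Q' Γ' h :=
  ⟨a c.q, c.pos, c.tape.map b, c.wp, c.qt⟩

theorem phi_surj (a : Q ≃ Q') (b : Γ ≃ Γ') (d : Cfg Q' Γ' h) : ∃ c, phi a b c = d := by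
  refine ⟨⟨a.symm d.q, d.pos, d.tape.map b.symm, d.wp, d.qt⟩, ?_⟩
  simp [phi]

theorem phi_inj (a : Q ≃ Q') (b : Γ ≃ Γ') {c c' : Cfg Q Γ h} (hc : phi a b c = phi a b c') :
    c = c' := by
  cases c; cases c'
  simp only [phi, Cfg.mk.injEq, EmbeddingLike.apply_eq_iff_eq] at hc
  obtain ⟨h1, h2, h3, h4, h5⟩ := hc
  have h6 := List.map_injective_iff.2 b.injective h3
  rw [h1, h2, h6, h4, h5]

theorem cm_symm (b : Γ ≃ Γ') (y : Cell Γ) : cm b.symm (cm b y) = y := by
  cases y <;> simp [cm]

theorem look_phi (b : Γ ≃ Γ') (t : List Γ) (i : ℕ) : look (t.map b) i = cm b (look t i) := by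
  unfold look
  split_ifs with hi
  · rfl
  · rw [List.getElem?_map]
    cases t[i - 1]? <;> rfl

theorem put_phi (b : Γ ≃ Γ') (t : List Γ) (i : ℕ) (o : Option Γ) :
    put (t.map b) i (o.map b) = (put t i o).map b := by
  cases o with
  | none => rfl
  | some g =>
    simp only [put, Option.map_some]
    split_ifs
    · rfl
    · rw [List.map_set]

theorem can_phi (M : Mach Q Γ h) (a : Q ≃ Q') (b : Γ ≃ Γ') (x : List Bool) (c : Cfg Q Γ h) :
    (tr M a b).can x (phi a b c) = (M.can x c).map (am a b) := by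
  have h1 : (tr M a b).act (phi a b c).q (fun i => look x ((phi a b c).pos i))
      (look (phi a b c).tape (phi a b c).wp) =
      (M.act c.q (fun i => look x (c.pos i)) (look c.tape c.wp)).map (am a b) := by
    simp only [tr, phi, look_phi, cm_symm, Equiv.symm_apply_apply]
  unfold Mach.can
  rw [h1]
  have h2 : (phi a b c).qt = c.qt := rfl
  rw [h2]
  split_ifs
  · rfl
  · rw [List.map_take]

theorem does_phi (a : Q ≃ Q') (b : Γ ≃ Γ') (A : Oracle) (x : List Bool) (l : ℕ) (u : Act Q Γ h)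
    (c c' : Cfg Q Γ h) :
    Does A x l (am a b u) (phi a b c) (phi a b c') ↔ Does A x l u c c' := by
  cases u with
  | acc => exact Iff.rfl
  | ask q₁ q₀ =>
    simp only [am, Does]
    have h2 : (⟨if A (phi a b c).qt = true then a q₁ else a q₀, (phi a b c).pos,
        (phi a b c).tape, (phi a b c).wp, []⟩ : Cfg Q' Γ' h) =
        phi a b ⟨if A c.qt = true then q₁ else q₀, c.pos, c.tape, c.wp, []⟩ := by
      by_cases hA : A c.qt = true <;> simp [phi, hA]
    rw [h2]
    exact ⟨fun h => phi_inj a b h, fun h => by rw [h]⟩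
  | go q mv g wm o =>
    simp only [am, Does]
    have h2 : (⟨a q, fun i => move x.length (mv i) ((phi a b c).pos i),
        put (phi a b c).tape (phi a b c).wp (g.map b),
        move (phi a b c).tape.length wm (phi a b c).wp, (phi a b c).qt ++ o.toList⟩ :
          Cfg Q' Γ' h) =
        phi a b ⟨q, fun i => move x.length (mv i) (c.pos i), put c.tape c.wp g,
          move c.tape.length wm c.wp, c.qt ++ o.toList⟩ := by
      simp only [phi, put_phi, List.length_map]
    rw [h2]
    have h3 : (phi a b c).qt = c.qt := rfl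
    rw [h3]
    refine and_congr_right fun _ => ?_
    exact ⟨fun h => phi_inj a b h, fun h => by rw [h]⟩

theorem next_iff (M : Mach Q Γ h) (a : Q ≃ Q') (b : Γ ≃ Γ') (A : Oracle) (x : List Bool) (l : ℕ)
    (c c' : Cfg Q Γ h) :
    (tr M a b).Next A x l (phi a b c) (phi a b c') ↔ M.Next A x l c c' := by
  unfold Mach.Next
  rw [can_phi]
  constructor
  · rintro ⟨u, hu, hd⟩
    obtain ⟨r, hr, rfl⟩ := List.mem_map.1 hu
    exact ⟨r, hr, (does_phi a b A x l r c c').1 hd⟩
  · rintro ⟨r, hr, hd⟩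
    exact ⟨_, List.mem_map.2 ⟨r, hr, rfl⟩, (does_phi a b A x l r c c').2 hd⟩

theorem init_phi (M : Mach Q Γ h) (a : Q ≃ Q') (b : Γ ≃ Γ') (s : ℕ) :
    (tr M a b).init s = phi a b (M.init s) := by
  simp [Mach.init, tr, phi]

theorem reach_iff (M : Mach Q Γ h) (a : Q ≃ Q') (b : Γ ≃ Γ') (A : Oracle) (x : List Bool) (l : ℕ)
    (c c' : Cfg Q Γ h) :
    Relation.ReflTransGen ((tr M a b).Next A x l) (phi a b c) (phi a b c') ↔
      Relation.ReflTransGen (M.Next A x l) c c' := by
  constructor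
  · intro h
    have key : ∀ d, Relation.ReflTransGen ((tr M a b).Next A x l) (phi a b c) d →
        ∀ c', phi a b c' = d → Relation.ReflTransGen (M.Next A x l) c c' := by
      intro d hd
      induction hd with
      | refl =>
        intro c' hc'
        rw [phi_inj a b hc']
      | tail _ hn ih =>
        intro c' hc'
        rename_i d₁ d₂ _
        obtain ⟨c₁, hc₁⟩ := phi_surj a b d₁
        refine (ih c₁ hc₁).tail ?_
        rw [← next_iff M a b, hc₁, hc']
        exact hn
    exact key _ h c' rfl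
  · intro h
    exact Relation.ReflTransGen.lift (phi a b)
      (fun c c' hcc => (next_iff M a b A x l c c').2 hcc) _ _ h

theorem am_acc (a : Q ≃ Q') (b : Γ ≃ Γ') (L : List (Act Q Γ h)) :
    Act.acc ∈ L.map (am a b) ↔ Act.acc ∈ L := by
  rw [List.mem_map]
  constructor
  · rintro ⟨u, hu, he⟩
    cases u with
    | acc => exact hu
    | ask _ _ => exact absurd he (by simp [am])
    | go _ _ _ _ _ => exact absurd he (by simp [am])
  · intro hL
    exact ⟨_, hL, rfl⟩

theorem acc_iff (M : Mach Q Γ h) (a : Q ≃ Q') (b : Γ ≃ Γ') (A : Oracle) (s l : ℕ)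
    (x : List Bool) : (tr M a b).Acc A s l x ↔ M.Acc A s l x := by
  unfold Mach.Acc
  rw [init_phi]
  constructor
  · rintro ⟨d, hd, ha⟩
    obtain ⟨c, rfl⟩ := phi_surj a b d
    rw [can_phi, am_acc] at ha
    exact ⟨c, (reach_iff M a b A x l _ _).1 hd, ha⟩
  · rintro ⟨c, hc, ha⟩
    refine ⟨phi a b c, (reach_iff M a b A x l _ _).2 hc, ?_⟩
    rw [can_phi, am_acc]
    exact ha

theorem det (M : Mach Q Γ h) (a : Q ≃ Q') (b : Γ ≃ Γ') (hM : M.Det) : (tr M a b).Det := by
  intro q y g
  simp only [tr, List.length_map]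
  exact hM _ _ _

end RUN

theorem transport {Q Γ : Type} [Fintype Q] [Fintype Γ] {h : ℕ} (M : Mach Q Γ h) (hM : M.Det) :
    ∃ (k m : ℕ) (M' : Mach (Fin k) (Fin m) h), M'.Det ∧
      ∀ A s l x, M'.Acc A s l x ↔ M.Acc A s l x := by
  classical
  exact ⟨Fintype.card Q, Fintype.card Γ,
    RUN.tr M (Fintype.equivFin Q) (Fintype.equivFin Γ), RUN.det M _ _ hM, RUN.acc_iff M _ _⟩

end Pool.Agent.H628R4.SP
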