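import Pool.Agent.H628R4.SP.Base
import Pool.Agent.H620R2.Gauge.C
import Pool.Agent.H620R2.Gauge2.Null
import Pool.Agent.H620R2.Gauge.X
import Pool.Agent.H628R4.SP.F_DEC
import Pool.Agent.H628R4.SP.F_RUN

/-!
# DECL: the decoder in logarithmic space
-/

namespace Pool.Agent.H628R4.SP

open Pool.Agent.NPC Pool.Agent.H620R2.Gauge Finset H568R2 Pool.Agent.H676
open Filter (atTop)

theorem dec_log (e κ : ℕ) (A : Oracle) : IsLogSpace A {x | A (codeL e κ x) = true} := by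
  obtain ⟨Q, hQ, M, d, hM, hacc⟩ := dec e κ
  obtain ⟨k, m, M', hM', hacc'⟩ := transport M hM
  refine ⟨k, m, κ + 1, d, M', hM', fun x => ?_⟩
  rw [hacc' A _ _ x, hacc A _ x]
  rfl

end Pool.Agent.H628R4.SP
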