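import Pool.Agent.H628R4.SP.BaseT
import Pool.Agent.H620R2.Gauge.C
import Pool.Agent.H620R2.Gauge2.Null
import Pool.Agent.H620R2.Gauge.X
import Pool.Agent.H620R2.Gauge.S
import Pool.Agent.H620R2.Gauge.A1

/-! G2: if many leaves are good, then the answers are seldom all correct (adapted from helper240's
proof of D2). -/

namespace Pool.Agent.H628R4.SP

open Pool.Agent.NPC Pool.Agent.H620R2.Gauge Finset H568R2 Pool.Agent.H676
open Filter (atTop)

theorem G2_pair {x w x' w' : List Bool} (h : pairBits x w = pairBits x' w') :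
    x = x' ∧ w = w' := by
  induction x generalizing x' with
  | nil =>
    cases x' with
    | nil =>
      simp [pairBits] at h
      exact ⟨rfl, h⟩
    | cons b x' => simp [pairBits] at h
  | cons a x ih =>
    cases x' with
    | nil => simp [pairBits] at h
    | cons b x' =>
      have e : ∀ (c : Bool) (y z : List Bool), pairBits (c :: y) z = true :: c :: pairBits y z := by
        intro c y z
        simp [pairBits]
      rw [e, e] at h
      simp only [List.cons.injEq, true_and] at h
      obtain ⟨h1, h2⟩ := h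
      obtain ⟨h3, h4⟩ := ih h2
      exact ⟨by rw [h1, h3], h4⟩

theorem G2_walk_length (A : Oracle) (x : List Bool) (j : ℕ) : (walk A x j).length = j := by
  induction j with
  | zero => rfl
  | succ j ih => simp [walk, ih]

theorem G2_leaf_length (A : Oracle) (x : List Bool) : (leaf A x).length = 4 * x.length + 1 := by
  unfold leaf
  rw [length_pairBits, G2_walk_length]
  omega

theorem G2_walk_congr {A A' : Oracle} {x : List Bool}
    (h : ∀ a : List Bool, a.length < 2 * x.length → A (pairBits x a) = A' (pairBits x a)) (j : ℕ)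
    (hj : j ≤ 2 * x.length) : walk A x j = walk A' x j := by
  induction j with
  | zero => rfl
  | succ j ih =>
    have h1 := ih (by omega)
    rw [walk, walk, ← h1, h _ (by rw [G2_walk_length]; omega)]

theorem G2_idx_inj {y y' : List Bool} (h : idx y = idx y') : y = y' := by
  rw [← str_idx y, h, str_idx]

/-- a chosen enumeration -/
noncomputable def G2_ch (K : ℕ) (F : Finset (List Bool)) : Fin K → List Bool :=
  if h : K ≤ F.card then fun i => (F.equivFin.symm (Fin.castLE h i)).1 else fun _ => []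

theorem G2_ch_mem {K : ℕ} {F : Finset (List Bool)} (h : K ≤ F.card) (j : Fin K) :
    G2_ch K F j ∈ F := by
  unfold G2_ch
  rw [dif_pos h]
  exact (F.equivFin.symm (Fin.castLE h j)).2

theorem G2_ch_inj {K : ℕ} {F : Finset (List Bool)} (h : K ≤ F.card) :
    Function.Injective (G2_ch K F) := by
  unfold G2_ch
  rw [dif_pos h]
  intro i j hij
  have h1 := F.equivFin.symm.injective (Subtype.ext hij)
  exact Fin.castLE_injective h h1

/-- the positions of the chosen leaves -/
noncomputable def G2_pos (N K : ℕ) (F : Finset (List Bool)) (v : Fin N → Bool) (j : Fin K) : ℕ :=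
  idx (leaf (orc N v) (G2_ch K F j))

open Classical in
/-- flip the bits at the chosen leaves -/
noncomputable def G2_flip (N K : ℕ) (F : Finset (List Bool)) (v : Fin N → Bool)
    (T : Fin K → Bool) : Fin N → Bool :=
  fun i => if ∃ j, T j = true ∧ G2_pos N K F v j = i then !(v i) else v i

section

variable {N K : ℕ} {F : Finset (List Bool)} {W : Finset (List Bool)} {v : Fin N → Bool}

theorem G2_orc_flip (T : Fin K → Bool) (y : List Bool)
    (hy : ∀ j, y ≠ leaf (orc N v) (G2_ch K F j)) :
    orc N (G2_flip N K F v T) y = orc N v y := by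
  unfold orc
  split_ifs with h
  · unfold G2_flip
    rw [if_neg]
    rintro ⟨j, -, hj⟩
    exact hy j (G2_idx_inj hj.symm)
  · rfl

theorem G2_short (T : Fin K → Bool) (x a : List Bool) (ha : a.length < 2 * x.length) :
    orc N (G2_flip N K F v T) (pairBits x a) = orc N v (pairBits x a) := by
  apply G2_orc_flip
  intro j h
  unfold leaf at h
  obtain ⟨h1, h2⟩ := G2_pair h
  rw [h2, G2_walk_length, ← h1] at ha
  omega

theorem G2_leaf (T : Fin K → Bool) (x : List Bool) :
    leaf (orc N (G2_flip N K F v T)) x = leaf (orc N v) x := by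
  unfold leaf
  rw [G2_walk_congr (fun a ha => G2_short T x a ha) (2 * x.length) le_rfl]

theorem G2_W (hK : K ≤ F.card) (hF : ∀ x ∈ F, leaf (orc N v) x ∉ W) (T : Fin K → Bool)
    (y : List Bool) (hy : y ∈ W) : orc N (G2_flip N K F v T) y = orc N v y := by
  apply G2_orc_flip
  intro j h
  rw [h] at hy
  exact hF _ (G2_ch_mem hK j) hy

end

open Classical in
theorem few_goodG (b N u : ℕ) (hN : 2 ^ (4 * b + 2) ≤ N) (X : Finset (List Bool))
    (hX : ∀ x ∈ X, x.length ≤ b) (W : Finset (List Bool))
    (G : List Bool → (Fin N → Bool) → Bool)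
    (hG : ∀ x v v', (∀ y ∈ W, orc N v y = orc N v' y) → G x v = G x v') :
    (univ.filter (fun v : Fin N → Bool =>
      (∀ x ∈ X, (x ∈ testT (orc N v) ↔ G x v = true)) ∧
      u ≤ (X.filter (fun x => leaf (orc N v) x ∉ W)).card)).card * 2 ^ u ≤ 2 ^ N := by
  obtain ⟨Fs, hFs⟩ : ∃ Fs : (Fin N → Bool) → Finset (List Bool),
      ∀ v, Fs v = X.filter (fun x => leaf (orc N v) x ∉ W) := ⟨_, fun v => rfl⟩
  simp only [← hFs]
  have hmemF : ∀ v x, x ∈ Fs v ↔ x ∈ X ∧ leaf (orc N v) x ∉ W := by
    intro v x
    rw [hFs, Finset.mem_filter]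
  have hFflip : ∀ (v : Fin N → Bool) (T : Fin u → Bool),
      Fs (G2_flip N u (Fs v) v T) = Fs v := by
    intro v T
    ext x
    rw [hmemF, hmemF, G2_leaf]
  have hcard : (univ.filter (fun v : Fin N → Bool =>
      (∀ x ∈ X, (x ∈ testT (orc N v) ↔ G x v = true)) ∧
      u ≤ (Fs v).card)).card * 2 ^ u =
      ((univ.filter (fun v : Fin N → Bool =>
      (∀ x ∈ X, (x ∈ testT (orc N v) ↔ G x v = true)) ∧
      u ≤ (Fs v).card)) ×ˢ (univ : Finset (Fin u → Bool))).card := by
    rw [Finset.card_product]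
    simp
  have hcard2 : 2 ^ N = (univ : Finset (Fin N → Bool)).card := by simp
  rw [hcard, hcard2]
  refine Finset.card_le_card_of_injOn
    (fun p => G2_flip N u (Fs p.1) p.1 p.2) (fun _ _ => Finset.mem_univ _) ?_
  rintro ⟨v, T⟩ hv ⟨v', T'⟩ hv' he
  simp only [Finset.coe_product, Set.mem_prod, Finset.mem_coe, Finset.mem_filter,
    Finset.mem_univ, true_and, and_true] at hv hv'
  obtain ⟨h1, h2⟩ := hv
  obtain ⟨h1', h2'⟩ := hv'
  simp only at he
  -- the good sets agree
  have hF : Fs v = Fs v' := by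
    rw [← hFflip v T, he, hFflip v' T']
  -- the leaves agree
  have hleaf : ∀ x, leaf (orc N v) x = leaf (orc N v') x := by
    intro x
    rw [← G2_leaf (F := Fs v) T x, he, G2_leaf]
  have hGG : ∀ x, G x v = G x v' := by
    intro x
    have e1 := hG x _ v (G2_W h2 (fun x hx => ((hmemF v x).1 hx).2) T)
    have e2 := hG x _ v' (G2_W h2' (fun x hx => ((hmemF v' x).1 hx).2) T')
    rw [← e1, he, e2]
  rw [← hF] at he h2'
  have hmem : ∀ j : Fin u, G2_ch u (Fs v) j ∈ X := fun j =>
    ((hmemF v _).1 (G2_ch_mem h2 j)).1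
  have hpos : ∀ j : Fin u, G2_pos N u (Fs v) v' j = G2_pos N u (Fs v) v j := by
    intro j
    unfold G2_pos
    rw [hleaf]
  have hlt : ∀ j : Fin u, G2_pos N u (Fs v) v j < N := by
    intro j
    have a1 := idx_lt (leaf (orc N v) (G2_ch u (Fs v) j))
    rw [G2_leaf_length] at a1
    unfold G2_pos
    have a2 := hX _ (hmem j)
    have a3 : 2 ^ (4 * (G2_ch u (Fs v) j).length + 1 + 1) ≤ 2 ^ (4 * b + 2) :=
      Nat.pow_le_pow_right (by norm_num) (by omega)
    omega
  have hinj : ∀ j j' : Fin u, G2_pos N u (Fs v) v j = G2_pos N u (Fs v) v j' → j = j' := by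
    intro j j' h
    exact G2_ch_inj h2 (G2_pair (G2_idx_inj h)).1
  have hv0 : ∀ j : Fin u, v ⟨_, hlt j⟩ = v' ⟨_, hlt j⟩ := by
    intro j
    have a1 := h1 _ (hmem j)
    have a2 := h1' _ (hmem j)
    rw [hGG] at a1
    have a3 := a1.trans a2.symm
    have b1 : ∀ w : Fin N → Bool, (G2_ch u (Fs v) j ∈ testT (orc N w)) ↔
        orc N w (leaf (orc N w) (G2_ch u (Fs v) j)) = true := fun w => Iff.rfl
    rw [b1, b1, ← hleaf] at a3
    have a4 : ∀ w : Fin N → Bool, orc N w (leaf (orc N v) (G2_ch u (Fs v) j)) =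
        w ⟨_, hlt j⟩ := by
      intro w
      exact dif_pos (hlt j)
    rw [a4, a4] at a3
    exact Bool.eq_iff_iff.2 a3
  have hT : T = T' := by
    funext j
    have a1 := congrFun he ⟨_, hlt j⟩
    unfold G2_flip at a1
    have a2 : ∀ S : Fin u → Bool, (∃ j', S j' = true ∧
        G2_pos N u (Fs v) v j' = G2_pos N u (Fs v) v j) ↔ S j = true := by
      intro S
      constructor
      · rintro ⟨j', hj', hj⟩
        rw [← hinj _ _ hj]
        exact hj'
      · intro h
        exact ⟨j, h, rfl⟩
    simp only [hpos, a2] at a1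
    rw [hv0 j] at a1
    generalize v' ⟨_, hlt j⟩ = b at a1
    cases hTj : T j <;> cases hTj' : T' j <;> simp [hTj, hTj'] at a1 ⊢
  subst hT
  have hvv : v = v' := by
    funext i
    have a1 := congrFun he i
    unfold G2_flip at a1
    simp only [hpos] at a1
    split_ifs at a1 with h
    · simpa using a1
    · exact a1
  rw [hvv]

end Pool.Agent.H628R4.SP
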