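import Pool.Agent.H628R4.SP.Base
import Pool.Agent.H620R2.Gauge.C
import Pool.Agent.H620R2.Gauge2.Null
import Pool.Agent.H620R2.Gauge.X
import Pool.Agent.H628R4.SP.F_DECL
import Pool.Agent.H628R4.SP.F_COD
import Pool.Agent.H620R2.Gauge.Q
import Pool.Agent.H620R2.Gauge.M

/-! The other direction: too many oracles (helper616, after helper620's NonNull.lean). -/

namespace Pool.Agent.H628R4.SP

open Pool.Agent.NPC Pool.Agent.H620R2.Gauge Finset H568R2 Pool.Agent.H676
open Filter (atTop)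

theorem not_nullL (f : ℕ → ℝ) (ε : ℝ) (hε : 0 < ε)
    (hf : ∀ᶠ N : ℕ in Filter.atTop, 2 ^ (Real.logb 2 N) ^ ε < f N) (O : Set Oracle)
    (hO : ∀ A : Oracle, (∀ L, IsPSPACE A L → IsLogSpace A L) → A ∈ O) :
    ¬ Null f O := by
  classical
  intro hnull
  obtain ⟨K, hK⟩ := exists_nat_gt (1 / ε)
  have hK' : 1 < ε * K := by
    rw [div_lt_iff₀ hε] at hK
    linarith
  obtain ⟨κ, Φ, hR0, hΦ0, hΦO0⟩ := exists_codingL K
  let R : ℕ → Polynomial ℕ := fun e => (Polynomial.X + Polynomial.C 2) ^ (κ e)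
  have hRe : ∀ e n, (R e).eval n = (n + 2) ^ (κ e) := by
    intro e n
    simp [R]
  have hR : ∀ e n, (n + e + 1) ^ K ≤ (R e).eval n := by
    intro e n
    rw [hRe]
    exact hR0 e n
  have hcode : ∀ e x, code R e x = codeL e (κ e) x := by
    intro e x
    unfold code codeL
    rw [hRe]
  have hΦ : ∀ B y, (∀ e x, y ≠ code R e x) → Φ B y = B y := by
    intro B y h
    apply hΦ0
    intro e x
    rw [← hcode]
    exact h e x
  have hΦO : ∀ B L, IsPSPACE (Φ B) L → IsLogSpace (Φ B) L := by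
    intro B L hL
    obtain ⟨e, he⟩ := hΦO0 B L hL
    have h1 : L = {x | Φ B (codeL e (κ e) x) = true} := by
      ext x
      exact he x
    rw [h1]
    exact dec_log e (κ e) (Φ B)
  have hsp := sparse R hR hε hK'
  obtain ⟨N₀, hN₀⟩ := Filter.eventually_atTop.1 (hf.and hsp)
  -- the bound for the short sequences
  obtain ⟨δ, hδ, hδ1, hδ2⟩ : ∃ δ : ℝ, 0 < δ ∧ δ < 1 ∧
      ∀ N < N₀, δ < 2 ^ (f N - N) := by
    have h1 : ∀ M : ℕ, ∃ δ : ℝ, 0 < δ ∧ δ < 1 ∧ ∀ N < M, δ < 2 ^ (f N - N) := by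
      intro M
      induction M with
      | zero => exact ⟨1 / 2, by norm_num, by norm_num, fun N hN => by omega⟩
      | succ M ih =>
        obtain ⟨δ, h1, h2, h3⟩ := ih
        have h4 : (0 : ℝ) < 2 ^ (f M - M) := Real.rpow_pos_of_pos (by norm_num) _
        refine ⟨min δ (2 ^ (f M - M) / 2), lt_min h1 (by positivity),
          (min_le_left _ _).trans_lt h2, ?_⟩
        intro N hN
        rcases Nat.lt_succ_iff_lt_or_eq.1 hN with h | h
        · exact (min_le_left _ _).trans_lt (h3 N h)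
        · subst h
          exact (min_le_right _ _).trans_lt (by linarith)
    exact h1 N₀
  obtain ⟨S, hS, hsum⟩ := hnull δ hδ
  have hm := mass Φ {y | ∃ e x, y = code R e x} (fun B y hy => hΦ B y (by
    intro e x h
    exact hy ⟨e, x, h⟩)) S (fun B => hS (Φ B) (hO _ (hΦO B)))
  have hle : ∀ σ : S, ENNReal.ofReal
      (2 ^ ((((Finset.range σ.1.length).filter
        (fun i => str i ∈ {y | ∃ e x, y = code R e x})).card : ℝ) - (σ.1.length : ℝ))) ≤
      ENNReal.ofReal (2 ^ (f σ.1.length - σ.1.length)) := by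
    intro σ
    have hlen : N₀ ≤ σ.1.length := by
      by_contra hlt
      push Not at hlt
      have h1 := hδ2 _ hlt
      have h2 : ENNReal.ofReal (2 ^ (f σ.1.length - σ.1.length)) ≤ ENNReal.ofReal δ :=
        (ENNReal.le_tsum σ).trans hsum
      have h3 := (ENNReal.ofReal_le_ofReal_iff hδ.le).1 h2
      linarith
    obtain ⟨h1, h2⟩ := hN₀ _ hlen
    apply ENNReal.ofReal_le_ofReal
    apply Real.rpow_le_rpow_of_exponent_le (by norm_num)
    have h3 : (((Finset.range σ.1.length).filter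
        (fun i => str i ∈ {y | ∃ e x, y = code R e x})).card : ℝ) ≤
        2 ^ (Real.logb 2 σ.1.length) ^ ε := by
      refine le_trans (le_of_eq ?_) h2
      congr 2
    linarith
  have h1 : (1 : ENNReal) ≤ ENNReal.ofReal δ := hm.trans ((ENNReal.tsum_le_tsum hle).trans hsum)
  rw [← ENNReal.ofReal_one] at h1
  have h2 := (ENNReal.ofReal_le_ofReal_iff hδ.le).1 h1
  linarith


end Pool.Agent.H628R4.SP
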