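import Pool.Agent.H628R4.SP.BaseT
import Pool.Agent.H620R2.Gauge.C
import Pool.Agent.H620R2.Gauge2.Null
import Pool.Agent.H620R2.Gauge.X
import Pool.Agent.H620R2.Gauge.Q

/-! SPT (helper873): the tally codes are sparse. -/

namespace Pool.Agent.H628R4.SP

open Pool.Agent.NPC Pool.Agent.H620R2.Gauge Finset H568R2 Pool.Agent.H676
open Filter (atTop)

theorem SPT_length (e κ n : ℕ) : (codeL e κ (List.replicate n true)).length =
    e + ((n + 2) ^ κ + (n + 1) + 1) := by
  unfold codeL
  simp only [List.length_append, List.length_replicate, List.length_cons]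

open Classical in
theorem SPT_nat {K : ℕ} (hK : 1 ≤ K) (κ : ℕ → ℕ)
    (hκ : ∀ e n, (n + e + 1) ^ K ≤ (n + 2) ^ (κ e)) (N J : ℕ) (hJ : Nat.log 2 N < (J + 1) ^ K) :
    ((Finset.range N).filter
      (fun i => ∃ e n, str i = codeL e (κ e) (List.replicate n true))).card ≤ J * J := by
  let P : ℕ → Prop := fun i => ∃ e n, str i = codeL e (κ e) (List.replicate n true)
  let w : ℕ → ℕ × ℕ := fun i => if h : P i then (h.choose, h.choose_spec.choose) else (0, 0)
  have hw : ∀ i, (h : P i) → w i = (h.choose, h.choose_spec.choose) := fun i h => dif_pos h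
  have hcode : ∀ i, (h : P i) → str i =
      codeL h.choose (κ h.choose) (List.replicate h.choose_spec.choose true) :=
    fun i h => h.choose_spec.choose_spec
  have hc : (Finset.range J ×ˢ Finset.range J).card = J * J := by
    rw [Finset.card_product, Finset.card_range]
  rw [← hc]
  apply Finset.card_le_card_of_injOn w
  · intro i hi
    rw [Finset.mem_coe, Finset.mem_filter, Finset.mem_range] at hi
    have hP : P i := hi.2
    have h1 := hcode i hP
    have h2 := SPT_length hP.choose (κ hP.choose) hP.choose_spec.choose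
    rw [← h1, length_str] at h2
    have h3 := hκ hP.choose hP.choose_spec.choose
    have h4 : Nat.log 2 (i + 1) ≤ Nat.log 2 N := Nat.log_mono_right (by omega)
    have h5 : (hP.choose_spec.choose + hP.choose + 1) ^ K < (J + 1) ^ K := by omega
    have h6 : hP.choose_spec.choose + hP.choose + 1 < J + 1 :=
      lt_of_pow_lt_pow_left₀ K (by omega) h5
    rw [hw i hP, Finset.mem_coe, Finset.mem_product, Finset.mem_range, Finset.mem_range]
    exact ⟨by show hP.choose < J; omega, by show hP.choose_spec.choose < J; omega⟩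
  · intro i hi j hj hij
    rw [Finset.mem_coe, Finset.mem_filter] at hi hj
    have hPi : P i := hi.2
    have hPj : P j := hj.2
    rw [hw i hPi, hw j hPj, Prod.mk.injEq] at hij
    apply str_injective
    have h4 : ∀ (e e' n n' : ℕ), e = e' → n = n' →
        codeL e (κ e) (List.replicate n true) = codeL e' (κ e') (List.replicate n' true) := by
      intro e e' n n' he hn
      rw [he, hn]
    rw [hcode i hPi, hcode j hPj]
    exact h4 _ _ _ _ hij.1 hij.2

open Classical in
theorem sparseT {K : ℕ} (κ : ℕ → ℕ) (hκ : ∀ e n, (n + e + 1) ^ K ≤ (n + 2) ^ (κ e))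
    {ε : ℝ} (hε : 0 < ε) (hK : 2 < ε * K) :
    ∀ᶠ N : ℕ in atTop, (((Finset.range N).filter
      (fun i => ∃ e n, str i = codeL e (κ e) (List.replicate n true))).card : ℝ) ≤
        (Real.logb 2 N) ^ ε := by
  have hK1 : 1 ≤ K := by
    rcases Nat.eq_zero_or_pos K with h | h
    · subst h; simp at hK; linarith
    · exact h
  have hK0 : (0 : ℝ) < K := by exact_mod_cast hK1
  filter_upwards [Filter.eventually_ge_atTop 2] with N hN
  set L := Real.logb 2 N with hL
  have hN' : (2 : ℝ) ≤ N := by exact_mod_cast hN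
  have hL1 : 1 ≤ L := by
    rw [hL, Real.le_logb_iff_rpow_le (by norm_num) (by linarith)]
    simpa using hN'
  have hL0 : 0 < L := by linarith
  set J := Nat.floor (L ^ (1 / (K : ℝ))) with hJdef
  have hJle : (J : ℝ) ≤ L ^ (1 / (K : ℝ)) := Nat.floor_le (Real.rpow_nonneg hL0.le _)
  have hJ : Nat.log 2 N < (J + 1) ^ K := by
    have h3 : L ^ (1 / (K : ℝ)) < (J : ℝ) + 1 := Nat.lt_floor_add_one _
    have h4 : L < ((J : ℝ) + 1) ^ K := by
      have h5 : (L ^ (1 / (K : ℝ))) ^ K < ((J : ℝ) + 1) ^ K :=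
        pow_lt_pow_left₀ h3 (Real.rpow_nonneg hL0.le _) (by omega)
      have h6 : (L ^ (1 / (K : ℝ))) ^ K = L := by
        rw [one_div, Real.rpow_inv_natCast_pow hL0.le (by omega)]
      rw [h6] at h5
      exact h5
    have h7 : (Nat.log 2 N : ℝ) ≤ L := by
      rw [hL, Real.le_logb_iff_rpow_le (by norm_num) (by linarith), Real.rpow_natCast]
      have := Nat.pow_log_le_self 2 (show N ≠ 0 by omega)
      exact_mod_cast this
    have h8 : (Nat.log 2 N : ℝ) < ((J : ℝ) + 1) ^ K := lt_of_le_of_lt h7 h4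
    exact_mod_cast h8
  have h9 := SPT_nat hK1 κ hκ N J hJ
  have h10 : L ^ (1 / (K : ℝ)) * L ^ (1 / (K : ℝ)) ≤ L ^ ε := by
    rw [← Real.rpow_add hL0]
    apply Real.rpow_le_rpow_of_exponent_le hL1
    rw [← add_div, div_le_iff₀ hK0]
    linarith
  have hJ0 : (0 : ℝ) ≤ J := Nat.cast_nonneg J
  calc (((Finset.range N).filter
      (fun i => ∃ e n, str i = codeL e (κ e) (List.replicate n true))).card : ℝ)
      ≤ ((J * J : ℕ) : ℝ) := by exact_mod_cast h9
    _ = (J : ℝ) * J := by push_cast; rfl
    _ ≤ L ^ (1 / (K : ℝ)) * L ^ (1 / (K : ℝ)) :=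
        mul_le_mul hJle hJle hJ0 (hJ0.trans hJle)
    _ ≤ L ^ ε := h10

end Pool.Agent.H628R4.SP
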