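import Pool.Agent.H628R4.SP.Base
import Pool.Agent.H620R2.Gauge.C
import Pool.Agent.H620R2.Gauge2.Null
import Pool.Agent.H620R2.Gauge.X

set_option autoImplicit false

namespace Pool.Agent.H628R4.SP

open Pool.Agent.NPC Pool.Agent.H620R2.Gauge Finset H568R2 Pool.Agent.H676 Pool.Agent.H628R4.SP
open Filter (atTop)

lemma SID_poly_le (p : Polynomial ℕ) (n : ℕ) (hn : 1 ≤ n) :
    p.eval n ≤ (∑ i ∈ Finset.range (p.natDegree + 1), p.coeff i) * n ^ p.natDegree := by
  rw [Polynomial.eval_eq_sum_range, Finset.sum_mul]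
  refine Finset.sum_le_sum fun i hi => ?_
  rw [Finset.mem_range] at hi
  exact Nat.mul_le_mul_left _ (Nat.pow_le_pow_right hn (by omega))

theorem side_large (p : Polynomial ℕ) : ∀ᶠ n : ℕ in atTop, p.eval n < 2 ^ side n := by
  set C := ∑ i ∈ Finset.range (p.natDegree + 1), p.coeff i with hC
  filter_upwards [Filter.eventually_ge_atTop (max (C + 1) (2 ^ (p.natDegree + 1)))] with n hn
  have h1 : C + 1 ≤ n := le_trans (le_max_left _ _) hn
  have h2 : 2 ^ (p.natDegree + 1) ≤ n := le_trans (le_max_right _ _) hn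
  have hn1 : 1 ≤ n := by omega
  have h3 : p.natDegree + 1 ≤ Nat.log 2 n := Nat.le_log_of_pow_le (by norm_num) h2
  have h4 : n < 2 ^ (Nat.log 2 n + 1) := Nat.lt_pow_succ_log_self (by norm_num) n
  calc p.eval n ≤ C * n ^ p.natDegree := SID_poly_le p n hn1
    _ ≤ n * n ^ p.natDegree := Nat.mul_le_mul_right _ (by omega)
    _ = n ^ (p.natDegree + 1) := by rw [pow_succ, mul_comm]
    _ ≤ n ^ (Nat.log 2 n + 1) := Nat.pow_le_pow_right hn1 (by omega)
    _ < (2 ^ (Nat.log 2 n + 1)) ^ (Nat.log 2 n + 1) := Nat.pow_lt_pow_left h4 (by omega)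
    _ = 2 ^ side n := by rw [← pow_mul]; unfold side; ring_nf

end Pool.Agent.H628R4.SP
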