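import Pool.Agent.H628R4.SP.Base
import Pool.Agent.H620R2.Gauge.X

/-! XOR: independent parities of disjoint blocks beat shallow decision trees. -/

namespace Pool.Agent.H628R4.SP

open Pool.Agent.NPC Pool.Agent.H620R2.Gauge Finset H568R2 Pool.Agent.H676
open Filter (atTop)

theorem xor_bound' {I : Type*} [Fintype I] [DecidableEq I] {ι : Type*} [DecidableEq ι]
    (X : Finset ι) (B : ι → Finset I)
    (hB : ∀ x ∈ X, ∀ x' ∈ X, x ≠ x' → Disjoint (B x) (B x')) (g : ι → (I → Bool) → Bool) (t : ℕ)
    (hg : ∀ x ∈ X, DTr t (g x)) (hs : ∀ x ∈ X, t < (B x).card) :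
    Ex unif (fun a : I → Bool =>
      if ∀ x ∈ X, g x a = par (B x) a then (1 : ℝ) else 0) ≤ (1 / 2) ^ X.card := by
  have e1 : ∀ a : I → Bool,
      (if ∀ x ∈ X, g x a = par (B x) a then (1 : ℝ) else 0) =
      (1 / 2) ^ X.card * ∑ S ∈ X.powerset,
        ∏ x ∈ S, (sgb (g x a) * sgb (par (B x) a)) := by
    intro a
    rw [← Finset.prod_one_add, ← Finset.prod_const, ← Finset.prod_mul_distrib]
    rw [← Finset.prod_congr rfl fun x _ => ind_eq (g x a) (par (B x) a)]
    split_ifs with h
    · rw [Finset.prod_congr rfl fun x hx => if_pos (h x hx), Finset.prod_const_one]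
    · push Not at h
      obtain ⟨x, hx, hne⟩ := h
      exact (Finset.prod_eq_zero hx (if_neg hne)).symm
  rw [funext e1, Ex_smul, Ex_sum]
  have e2 : ∀ S ∈ X.powerset, S ≠ ∅ → Ex unif (fun a : I → Bool =>
      ∏ x ∈ S, (sgb (g x a) * sgb (par (B x) a))) = 0 := by
    intro S hS hne
    have hSX := Finset.mem_powerset.1 hS
    let U : Finset I := S.biUnion B
    have hdis : (S : Set ι).PairwiseDisjoint B := by
      intro x hx y hy hxy
      exact hB x (hSX hx) y (hSX hy) hxy
    have e3 : ∀ a : I → Bool, ∏ x ∈ S, (sgb (g x a) * sgb (par (B x) a)) =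
        (∏ x ∈ S, sgb (g x a)) * ch (fun i => decide (i ∈ U)) a := by
      intro a
      have e4 : ch (fun i => decide (i ∈ U)) a = ∏ i ∈ U, sgb (a i) := by
        unfold ch
        rw [← Finset.prod_subset (Finset.subset_univ U)]
        · refine Finset.prod_congr rfl fun i hi => ?_
          simp [hi, sgb]
        · intro i _ hi
          simp [hi]
      rw [e4, Finset.prod_biUnion hdis, Finset.prod_mul_distrib,
        Finset.prod_congr rfl fun x _ => sgb_par (B x) a]
    rw [funext e3, Ex_unif]
    have hd : Deg (S.card * t) (fun a => ∏ x ∈ S, sgb (g x a)) :=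
      deg_prod S (fun x a => sgb (g x a)) t fun x hx => deg_sgb (hg x (hSX hx))
    have hw : S.card * t < wt (fun i => decide (i ∈ U)) := by
      have h1 : (univ.filter (fun i => decide (i ∈ U) = true)) = U := by
        ext i; simp
      unfold wt
      rw [h1, Finset.card_biUnion hdis]
      have h2 : ∑ _x ∈ S, t < ∑ x ∈ S, (B x).card :=
        Finset.sum_lt_sum_of_nonempty (Finset.nonempty_iff_ne_empty.2 hne)
          fun x hx => hs x (hSX hx)
      rwa [Finset.sum_const, smul_eq_mul] at h2
    have h0 := hd _ hw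
    unfold co at h0
    exact h0
  rw [Finset.sum_eq_single ∅ (fun S hS hne => e2 S hS hne)
    (fun h => absurd (Finset.empty_mem_powerset X) h)]
  simp only [Finset.prod_empty]
  rw [Ex_const (by unfold unif; rw [Fintype.sum_bool]; norm_num)]
  rw [mul_one]

end Pool.Agent.H628R4.SP
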