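import Pool.Agent.H628R4.SP.BaseT
import Pool.Agent.H620R2.Gauge.C
import Pool.Agent.H620R2.Gauge2.Null
import Pool.Agent.H620R2.Gauge.X
import Pool.Agent.H628R4.SP.F_AST
import Pool.Agent.H628R4.SP.F_SID
import Pool.Agent.H628R4.SP.F_XOR

/-! The second tally test language is hard for polynomial time (task NPT, helper139, after
helper774's NULP). -/

namespace Pool.Agent.H628R4.SP

open Pool.Agent.NPC Pool.Agent.H620R2.Gauge Finset H568R2 Pool.Agent.H676
open Filter (atTop)

open Classical in
/-- the positions of the strings `x w` with `|w| = s` -/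
noncomputable def npt_B (N s : ℕ) (x : List Bool) : Finset (Fin N) :=
  univ.filter (fun i => ∃ w : Fin s → Bool, str i = x ++ List.ofFn w)

theorem npt_card_filter (N s : ℕ) (x : List Bool) (hN : 2 ^ (x.length + s + 1) ≤ N + 1)
    (P : List Bool → Prop) [DecidablePred P] :
    ((npt_B N s x).filter (fun i : Fin N => P (str i))).card =
      (univ.filter (fun w : Fin s → Bool => P (x ++ List.ofFn w))).card := by
  symm
  have hlen : ∀ w : Fin s → Bool, (x ++ List.ofFn w).length = x.length + s := by
    intro w
    rw [List.length_append, List.length_ofFn]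
  have hlt : ∀ w : Fin s → Bool, idx (x ++ List.ofFn w) < N := by
    intro w
    have h1 := idx_lt (x ++ List.ofFn w)
    rw [hlen] at h1
    omega
  refine Finset.card_bij (fun w _ => ⟨idx (x ++ List.ofFn w), hlt w⟩) ?_ ?_ ?_
  · intro w hw
    rw [Finset.mem_filter] at hw
    rw [Finset.mem_filter, npt_B, Finset.mem_filter]
    refine ⟨⟨Finset.mem_univ _, w, ?_⟩, ?_⟩
    · exact str_idx _
    · show P (str (idx (x ++ List.ofFn w)))
      rw [str_idx]; exact hw.2
  · intro w hw w' hw' h
    have h1 : idx (x ++ List.ofFn w) = idx (x ++ List.ofFn w') := by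
      simpa using h
    have h2 : x ++ List.ofFn w = x ++ List.ofFn w' := by
      rw [← str_idx (x ++ List.ofFn w), h1, str_idx]
    exact List.ofFn_injective (List.append_cancel_left h2)
  · intro i hi
    rw [Finset.mem_filter, npt_B, Finset.mem_filter] at hi
    obtain ⟨⟨_, w, hw⟩, hP⟩ := hi
    refine ⟨w, ?_, ?_⟩
    · rw [Finset.mem_filter]
      exact ⟨mem_univ _, by rw [← hw]; exact hP⟩
    · apply Fin.ext
      show idx (x ++ List.ofFn w) = i
      rw [← hw, idx_str]

theorem npt_card (N s : ℕ) (x : List Bool) (hN : 2 ^ (x.length + s + 1) ≤ N + 1) :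
    (npt_B N s x).card = 2 ^ s := by
  have h := npt_card_filter N s x hN (fun _ => True)
  simpa using h

theorem npt_par (N : ℕ) (A : Oracle) (x : List Bool)
    (hN : 2 ^ (x.length + side x.length + 1) ≤ N + 1) :
    par (npt_B N (side x.length) x) (pre N A) = true ↔ x ∈ testP A := by
  have h := npt_card_filter N (side x.length) x hN (fun y => A y = true)
  unfold par pre testP
  rw [decide_eq_true_eq, Set.mem_ofPred_eq, ← h]

theorem npt_disj (N s s' : ℕ) (x x' : List Bool) (hl : x.length + s ≠ x'.length + s') :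
    Disjoint (npt_B N s x) (npt_B N s' x') := by
  rw [Finset.disjoint_left]
  intro i hi hi'
  rw [npt_B, Finset.mem_filter] at hi hi'
  obtain ⟨_, w, hw⟩ := hi
  obtain ⟨_, w', hw'⟩ := hi'
  apply hl
  rw [hw] at hw'
  have h := congrArg List.length hw'
  simpa using h

theorem npt_side_le (n : ℕ) : side n ≤ (n + 1) ^ 2 :=
  Nat.pow_le_pow_left (Nat.succ_le_succ (Nat.log_le_self 2 n)) 2

theorem npt_side_mono {m n : ℕ} (h : m ≤ n) : side m ≤ side n :=
  Nat.pow_le_pow_left (Nat.succ_le_succ (Nat.log_mono_right h)) 2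

theorem npt_one (M : Alg) (f : ℕ → ℝ)
    (hf : ∀ ε : ℝ, 0 < ε → ∃ᶠ N : ℕ in Filter.atTop, f N ≤ (Real.logb 2 N) ^ ε) :
    Null f {A : Oracle | ∀ x, x ∈ testP1 A ↔ M.out A x = some [true]} := by
  classical
  intro δ hδ
  obtain ⟨qb, hqb⟩ := Alg.out_local M
  obtain ⟨n₀, hn₀⟩ := Filter.eventually_atTop.1
    (side_large (M.p.comp (Polynomial.C 3 * Polynomial.X)))
  obtain ⟨n, N, hn, hN, hb⟩ := asyT1 (qb.comp (Polynomial.C 3 * Polynomial.X) +
    (Polynomial.C 3 * Polynomial.X + 1) ^ 2 + Polynomial.C 3 * Polynomial.X + 1) f hf δ hδ n₀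
  have hQ : (qb.comp (Polynomial.C 3 * Polynomial.X) + (Polynomial.C 3 * Polynomial.X + 1) ^ 2 +
      Polynomial.C 3 * Polynomial.X + 1 : Polynomial ℕ).eval n =
      qb.eval (3 * n) + (3 * n + 1) ^ 2 + 3 * n + 1 := by
    simp [Polynomial.eval_comp]
  rw [hQ] at hN
  have hlen : ∀ i : ℕ, (List.replicate i true).length = i := fun i => List.length_replicate
  have hN1 : ∀ i < 3 * n, 2 ^ (i + side i + 1) ≤ N + 1 := by
    intro i hi
    have h1 := npt_side_mono hi.le
    have h2 := npt_side_le (3 * n)
    exact le_trans (Nat.pow_le_pow_right (by norm_num) (by omega)) (hN.trans (Nat.le_succ _))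
  have hN2 : 2 ^ (qb.eval (3 * n) + 1) ≤ N :=
    le_trans (Nat.pow_le_pow_right (by norm_num) (by omega)) hN
  refine cover_of_event (N := N) (fun a => ∀ i ∈ Finset.Ico n (3 * n),
    decide (M.out (orc N a) (List.replicate i true) = some [true]) =
      par (npt_B N (side i) (List.replicate i true)) a) _ ?_ f δ ?_
  · intro A hA i hi
    rw [Finset.mem_Ico] at hi
    obtain ⟨Q, _, hQl, hQA⟩ := hqb A (List.replicate i true)
    have h1 : M.out (orc N (pre N A)) (List.replicate i true) =
        M.out A (List.replicate i true) := by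
      apply hQA
      intro q hq
      apply orc_pre
      have h2 := idx_lt q
      have h3 : q.length ≤ qb.eval (3 * n) := by
        have := hQl q hq
        rw [hlen] at this
        exact this.trans (eval_mono qb hi.2.le)
      have h4 : 2 ^ (q.length + 1) ≤ 2 ^ (qb.eval (3 * n) + 1) :=
        Nat.pow_le_pow_right (by norm_num) (by omega)
      omega
    have h2 := npt_par N A (List.replicate i true) (by rw [hlen]; exact hN1 i hi.2)
    rw [hlen] at h2
    have h3 := hA (List.replicate i true)
    have h4 : List.replicate i true ∈ testP1 A ↔ List.replicate i true ∈ testP A := by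
      unfold testP1
      rw [Set.mem_ofPred_eq]
      constructor
      · exact fun h => h.2
      · exact fun h => ⟨fun b hb => List.eq_of_mem_replicate hb, h⟩
    rw [h1]
    rw [Bool.eq_iff_iff, decide_eq_true_eq, h2, ← h4]
    exact h3.symm
  · have hX := xor_bound' (I := Fin N) (Finset.Ico n (3 * n))
      (fun i => npt_B N (side i) (List.replicate i true))
      (fun i hi i' hi' hne => npt_disj N (side i) (side i') _ _ (by
        rw [hlen, hlen]
        rcases Nat.lt_or_ge i i' with h | h
        · have := npt_side_mono h.le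
          omega
        · have := npt_side_mono h
          omega))
      (fun i a => decide (M.out (orc N a) (List.replicate i true) = some [true]))
      (M.p.eval (3 * n))
      (fun i hi => by
        have := dtr_out M N (List.replicate i true)
        rw [hlen] at this
        rw [Finset.mem_Ico] at hi
        exact this.mono (eval_mono M.p hi.2.le))
      (fun i hi => by
        rw [Finset.mem_Ico] at hi
        show M.p.eval (3 * n) < (npt_B N (side i) (List.replicate i true)).card
        rw [npt_card N (side i) _ (by rw [hlen]; exact hN1 i hi.2)]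
        have h1 := hn₀ i (hn.trans hi.1)
        rw [Polynomial.eval_comp] at h1
        simp only [Polynomial.eval_mul, Polynomial.eval_C, Polynomial.eval_X] at h1
        exact lt_of_le_of_lt (eval_mono M.p (by omega)) h1)
    rw [Nat.card_Ico] at hX
    have h5 : ((1 : ℝ) / 2) ^ (3 * n - n) ≤ 2 / 2 ^ n := by
      have h6 : (2 : ℝ) ^ n ≤ 2 ^ (3 * n - n) :=
        pow_le_pow_right₀ (by norm_num) (by omega)
      rw [one_div, inv_pow, inv_eq_one_div, div_le_div_iff₀ (by positivity) (by positivity)]
      have h7 : (0 : ℝ) < 2 ^ (3 * n - n) := by positivity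
      linarith
    refine le_trans ?_ hb
    refine mul_le_mul_of_nonneg_right ?_ (by positivity)
    refine le_trans ?_ h5
    refine le_trans (le_of_eq ?_) hX
    congr 1
    funext a
    congr 1

theorem nullP1 (f : ℕ → ℝ)
    (hf : ∀ ε : ℝ, 0 < ε → ∃ᶠ N : ℕ in atTop, f N ≤ (Real.logb 2 N) ^ ε) :
    Null f {A : Oracle | IsP A (testP1 A)} := by
  refine (null_iUnion (fun M : Alg => {A : Oracle | ∀ x, x ∈ testP1 A ↔ M.out A x = some [true]})
    (fun M => npt_one M f hf)).mono ?_
  rintro A ⟨V, ⟨M, hM⟩, hV⟩
  rw [Set.mem_iUnion]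
  refine ⟨M, fun x => ?_⟩
  rw [hV x, hM x, Option.some.injEq]

end Pool.Agent.H628R4.SP
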