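import Pool.Agent.H628R4.SP.Base
import Pool.Agent.H620R2.Gauge.Y

/-! SML: the cores of the machines are small. -/

namespace Pool.Agent.H628R4.SP

open Filter (atTop)
open Pool.Agent.H620R2.Gauge

theorem small_cores (k m h c : ℕ) : ∀ᶠ n : ℕ in atTop,
    16 * (2 ^ n * (2 * (k * (n + 2) ^ h * ((Nat.log 2 n + 1) ^ c + 2) *
      m ^ ((Nat.log 2 n + 1) ^ c)) + 1)) ≤ 2 ^ (2 * n) := by
  have h1 := Y_exp (k + 2 * h + m + 9) 1 (c + 1)
  have h2 : Filter.Tendsto (fun n : ℕ => Nat.log 2 n) atTop atTop := by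
    refine Filter.tendsto_atTop.2 fun b => ?_
    filter_upwards [Filter.eventually_ge_atTop (2 ^ b)] with n hn
    exact Nat.le_log_of_pow_le (by norm_num) hn
  filter_upwards [h2.eventually h1, Filter.eventually_ge_atTop 1] with n hn hn1
  have hnL : n < 2 ^ (Nat.log 2 n + 1) := Nat.lt_pow_succ_log_self (by norm_num) n
  have hpow : 2 ^ (Nat.log 2 n) ≤ n := Nat.pow_log_le_self 2 (by omega)
  generalize Nat.log 2 n + 1 = L at hn hnL ⊢
  rw [one_mul] at hn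
  have hL : 1 ≤ L := by
    by_contra hcon
    have : L = 0 := by omega
    subst this
    simp at hnL
    omega
  have a1 : k ≤ 2 ^ k := Nat.lt_two_pow_self.le
  have a2 : (n + 2) ^ h ≤ 2 ^ ((L + 1) * h) := by
    rw [pow_mul]
    apply Nat.pow_le_pow_left
    rw [pow_succ]
    have : 2 ^ 1 ≤ 2 ^ L := Nat.pow_le_pow_right (by norm_num) hL
    omega
  have a3 : L ^ c + 2 ≤ 2 ^ (L ^ c + 2) := Nat.lt_two_pow_self.le
  have a4 : m ^ (L ^ c) ≤ 2 ^ (m * L ^ c) := by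
    rw [pow_mul]
    exact Nat.pow_le_pow_left Nat.lt_two_pow_self.le _
  have a5 : k * (n + 2) ^ h * (L ^ c + 2) * m ^ (L ^ c) ≤
      2 ^ (k + (L + 1) * h + (L ^ c + 2) + m * L ^ c) := by
    rw [pow_add 2 (k + (L + 1) * h + (L ^ c + 2)), pow_add 2 (k + (L + 1) * h), pow_add 2 k]
    exact Nat.mul_le_mul (Nat.mul_le_mul (Nat.mul_le_mul a1 a2) a3) a4
  have b1 : L ^ c ≤ L ^ (c + 1) := Nat.pow_le_pow_right hL (by omega)
  have b2 : L ≤ L ^ (c + 1) := by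
    calc L = L ^ 1 := (pow_one L).symm
      _ ≤ L ^ (c + 1) := Nat.pow_le_pow_right hL (by omega)
  have b3 : 1 ≤ L ^ (c + 1) := Nat.one_le_pow _ _ hL
  have a6 : k + (L + 1) * h + (L ^ c + 2) + m * L ^ c + 6 ≤ n := by
    refine le_trans ?_ (hn.trans hpow)
    have c1 : k ≤ k * L ^ (c + 1) := Nat.le_mul_of_pos_right k b3
    have c2 : (L + 1) * h ≤ 2 * h * L ^ (c + 1) := by
      calc (L + 1) * h ≤ (L ^ (c + 1) + L ^ (c + 1)) * h := Nat.mul_le_mul_right h (by omega)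
        _ = 2 * h * L ^ (c + 1) := by ring
    have c3 : m * L ^ c ≤ m * L ^ (c + 1) := Nat.mul_le_mul_left m b1
    have c4 : (k + 2 * h + m + 9) * L ^ (c + 1) =
        k * L ^ (c + 1) + 2 * h * L ^ (c + 1) + m * L ^ (c + 1) + 9 * L ^ (c + 1) := by ring
    rw [c4]
    omega
  generalize k * (n + 2) ^ h * (L ^ c + 2) * m ^ (L ^ c) = X at a5 ⊢
  generalize k + (L + 1) * h + (L ^ c + 2) + m * L ^ c = E at a5 a6
  have hE : 1 ≤ 2 ^ E := Nat.one_le_two_pow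
  have a7 : 2 * X + 1 ≤ 2 ^ (E + 2) := by
    rw [pow_add]
    omega
  calc 16 * (2 ^ n * (2 * X + 1)) ≤ 16 * (2 ^ n * 2 ^ (E + 2)) := by gcongr
    _ = 2 ^ (n + (E + 6)) := by ring
    _ ≤ 2 ^ (2 * n) := Nat.pow_le_pow_right (by norm_num) (by omega)

end Pool.Agent.H628R4.SP
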