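import Pool.Agent.H628R4.SP.Base
import Pool.Agent.H620R2.Gauge.C
import Pool.Agent.H620R2.Gauge2.Null
import Pool.Agent.H620R2.Gauge.X

/-! Task WC: the questions asked by a machine. -/

namespace Pool.Agent.H628R4.SP

open Pool.Agent.NPC Pool.Agent.H620R2.Gauge Finset H568R2 Pool.Agent.H676

namespace WCaux

variable {Q Γ : Type} {h : ℕ}

/-- a step without oracle, query tape not empty -/
def GS (M : Mach Q Γ h) (x : List Bool) (l : ℕ) (c c' : Cfg Q Γ h) : Prop :=
  c.qt ≠ [] ∧ ∃ q mv g wm o, Act.go q mv g wm o ∈ M.can x c ∧ (c.qt ++ o.toList).length ≤ l ∧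
    c' = ⟨q, fun i => move x.length (mv i) (c.pos i), put c.tape c.wp g,
        move c.tape.length wm c.wp, c.qt ++ o.toList⟩

theorem can_unique (M : Mach Q Γ h) (x : List Bool) (c : Cfg Q Γ h) (hc : c.qt ≠ [])
    {a a' : Act Q Γ h} (ha : a ∈ M.can x c) (ha' : a' ∈ M.can x c) : a = a' := by
  unfold Mach.can at ha ha'
  rw [if_neg hc] at ha ha'
  generalize M.act c.q (fun i => look x (c.pos i)) (look c.tape c.wp) = L at ha ha'
  cases L with
  | nil => simp at ha
  | cons b L =>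
    simp only [List.take_succ_cons, List.take_zero, List.mem_singleton] at ha ha'
    rw [ha, ha']

theorem GS_unique (M : Mach Q Γ h) (x : List Bool) (l : ℕ) (c c₁ c₂ : Cfg Q Γ h)
    (h₁ : GS M x l c c₁) (h₂ : GS M x l c c₂) : c₁ = c₂ := by
  obtain ⟨hc, q, mv, g, wm, o, ha, -, rfl⟩ := h₁
  obtain ⟨-, q', mv', g', wm', o', ha', -, rfl⟩ := h₂
  have := can_unique M x c hc ha ha'
  injection this with e1 e2 e3 e4 e5
  subst e1 e2 e3 e4 e5
  rfl

/-- the configuration asks a question -/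
def AskC (M : Mach Q Γ h) (x : List Bool) (c : Cfg Q Γ h) : Prop :=
  c.qt ≠ [] ∧ ∃ q₁ q₀, Act.ask q₁ q₀ ∈ M.can x c

theorem ask_last (M : Mach Q Γ h) (x : List Bool) (l : ℕ) (c c' : Cfg Q Γ h)
    (ha : AskC M x c) (hg : Relation.ReflTransGen (GS M x l) c c') : c' = c := by
  rcases Relation.ReflTransGen.cases_head hg with h1 | ⟨c₁, h1, -⟩
  · exact h1.symm
  · obtain ⟨hc, q₁, q₀, hq⟩ := ha
    obtain ⟨-, q, mv, g, wm, o, hgo, -, -⟩ := h1
    have := can_unique M x c hc hq hgo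
    cases this

theorem ask_unique (M : Mach Q Γ h) (x : List Bool) (l : ℕ) (c c₁ c₂ : Cfg Q Γ h)
    (h₁ : Relation.ReflTransGen (GS M x l) c c₁) (h₂ : Relation.ReflTransGen (GS M x l) c c₂)
    (a₁ : AskC M x c₁) (a₂ : AskC M x c₂) : c₁ = c₂ := by
  induction h₁ using Relation.ReflTransGen.head_induction_on with
  | refl => exact (ask_last M x l _ _ a₁ h₂).symm
  | head hab hbc ih =>
    rcases Relation.ReflTransGen.cases_head h₂ with h3 | ⟨d, h3, h4⟩
    · subst h3
      exact ask_last M x l _ _ a₂ (Relation.ReflTransGen.head hab hbc)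
    · have := GS_unique M x l _ _ _ hab h3
      subst this
      exact ih h4

/-- the core is bounded -/
structure Bd (n s : ℕ) (c : Cfg Q Γ h) : Prop where
  pos : ∀ i, c.pos i ≤ n + 1
  wp : c.wp ≤ s + 1
  tape : c.tape.length = s

theorem move_le (n : ℕ) (m : Mv) (i : ℕ) (hi : i ≤ n + 1) : move n m i ≤ n + 1 := by
  cases m with
  | left => show i - 1 ≤ n + 1; omega
  | stay => exact hi
  | right => exact min_le_right _ _

theorem put_length (t : List Γ) (i : ℕ) (g : Option Γ) : (put t i g).length = t.length := by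
  cases g with
  | none => rfl
  | some g =>
    unfold put
    split_ifs
    · rfl
    · exact List.length_set

theorem Bd_go {n s : ℕ} {c : Cfg Q Γ h} (hc : Bd n s c) (q : Q) (mv : Fin h → Mv)
    (g : Option Γ) (wm : Mv) (t : List Bool) :
    Bd n s (⟨q, fun i => move n (mv i) (c.pos i), put c.tape c.wp g,
        move c.tape.length wm c.wp, t⟩ : Cfg Q Γ h) := by
  refine ⟨fun i => move_le _ _ _ (hc.pos i), ?_, ?_⟩
  · show move c.tape.length wm c.wp ≤ s + 1
    rw [hc.tape]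
    exact move_le _ _ _ hc.wp
  · show (put c.tape c.wp g).length = s
    rw [put_length, hc.tape]

/-- the invariant of the reachable configurations -/
def Inv (M : Mach Q Γ h) (s l : ℕ) (x : List Bool) (c : Cfg Q Γ h) : Prop :=
  Bd x.length s c ∧ (c.qt = [] ∨ (c.qt.length ≤ l ∧
    ∃ (c₀ : Cfg Q Γ h) (b : Bool), Bd x.length s c₀ ∧ c₀.qt = [b] ∧
      Relation.ReflTransGen (GS M x l) c₀ c))

/-- the index set of the starting configurations -/
abbrev Ix (k m h n s : ℕ) : Type :=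
  Fin k × (Fin h → Fin (n + 2)) × Fin (s + 2) × (Fin s → Fin m) × Bool

/-- the starting configurations -/
def mkC {k m h n s : ℕ} (t : Ix k m h n s) : Cfg (Fin k) (Fin m) h :=
  ⟨t.1, fun i => t.2.1 i, List.ofFn t.2.2.2.1, t.2.2.1, [t.2.2.2.2]⟩

theorem mkC_surj {k m h n s : ℕ} (c : Cfg (Fin k) (Fin m) h) (b : Bool) (hc : Bd n s c)
    (hb : c.qt = [b]) : ∃ t : Ix k m h n s, mkC t = c := by
  obtain ⟨q, pos, tape, wp, qt⟩ := c
  obtain ⟨h1, h2, h3⟩ := hc
  simp only at h1 h2 h3 hb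
  subst h3
  refine ⟨(q, fun i => ⟨pos i, by have := h1 i; omega⟩, ⟨wp, by omega⟩, fun i => tape.get i, b), ?_⟩
  unfold mkC
  simp only [List.get_eq_getElem, Cfg.mk.injEq, true_and]
  exact ⟨List.ofFn_getElem, hb.symm⟩

open Classical in
/-- the question asked from a starting configuration -/
noncomputable def qu {k m h : ℕ} (M : Mach (Fin k) (Fin m) h) (x : List Bool) (l : ℕ)
    (c₀ : Cfg (Fin k) (Fin m) h) : List Bool :=
  if hx : ∃ c, Relation.ReflTransGen (GS M x l) c₀ c ∧ AskC M x c ∧ c.qt.length ≤ l then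
    hx.choose.qt else []

theorem qu_le {k m h : ℕ} (M : Mach (Fin k) (Fin m) h) (x : List Bool) (l : ℕ)
    (c₀ : Cfg (Fin k) (Fin m) h) : (qu M x l c₀).length ≤ l := by
  unfold qu
  split_ifs with hx
  · exact hx.choose_spec.2.2
  · simp

theorem qu_eq {k m h : ℕ} (M : Mach (Fin k) (Fin m) h) (x : List Bool) (l : ℕ)
    (c₀ c : Cfg (Fin k) (Fin m) h) (h1 : Relation.ReflTransGen (GS M x l) c₀ c)
    (h2 : AskC M x c) (h3 : c.qt.length ≤ l) : qu M x l c₀ = c.qt := by
  have hx : ∃ c, Relation.ReflTransGen (GS M x l) c₀ c ∧ AskC M x c ∧ c.qt.length ≤ l :=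
    ⟨c, h1, h2, h3⟩
  unfold qu
  rw [dif_pos hx]
  rw [ask_unique M x l c₀ _ _ hx.choose_spec.1 h1 hx.choose_spec.2.1 h2]

/-- the set of the questions -/
noncomputable def WW {k m h : ℕ} (M : Mach (Fin k) (Fin m) h) (s l : ℕ) (x : List Bool) :
    Finset (List Bool) :=
  insert [] (univ.image (fun t : Ix k m h x.length s => qu M x l (mkC t)))

theorem step {k m h : ℕ} (M : Mach (Fin k) (Fin m) h) (s l : ℕ) (x : List Bool)
    (A A' : Oracle) (hA : ∀ y ∈ WW M s l x, A y = A' y) (c c' : Cfg (Fin k) (Fin m) h)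
    (hI : Inv M s l x c) (hn : M.Next A x l c c') : M.Next A' x l c c' ∧ Inv M s l x c' := by
  obtain ⟨a, ha, hd⟩ := hn
  cases a with
  | acc => exact hd.elim
  | ask q₁ q₀ =>
    have h1 : A c.qt = A' c.qt := by
      apply hA
      by_cases hc : c.qt = []
      · rw [hc]
        exact mem_insert_self _ _
      · rcases hI.2 with h2 | ⟨h2, c₀, b, hb, hq, hg⟩
        · exact absurd h2 hc
        · obtain ⟨t, ht⟩ := mkC_surj c₀ b hb hq
          refine mem_insert_of_mem (mem_image.2 ⟨t, mem_univ _, ?_⟩)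
          rw [ht]
          exact qu_eq M x l c₀ c hg ⟨hc, q₁, q₀, ha⟩ h2
    have hd' : c' = ⟨if A c.qt = true then q₁ else q₀, c.pos, c.tape, c.wp, []⟩ := hd
    refine ⟨⟨_, ha, ?_⟩, ?_⟩
    · show c' = ⟨if A' c.qt = true then q₁ else q₀, c.pos, c.tape, c.wp, []⟩
      rw [← h1]
      exact hd'
    · rw [hd']
      exact ⟨⟨hI.1.pos, hI.1.wp, hI.1.tape⟩, Or.inl rfl⟩
  | go q mv g wm o =>
    obtain ⟨h1, h2⟩ : (c.qt ++ o.toList).length ≤ l ∧
      c' = ⟨q, fun i => move x.length (mv i) (c.pos i), put c.tape c.wp g,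
        move c.tape.length wm c.wp, c.qt ++ o.toList⟩ := hd
    refine ⟨⟨_, ha, h1, h2⟩, ?_⟩
    have hB : Bd x.length s c' := by
      rw [h2]
      exact Bd_go hI.1 q mv g wm _
    refine ⟨hB, ?_⟩
    by_cases hc : c.qt = []
    · cases o with
      | none =>
        left
        rw [h2]
        show c.qt ++ [] = []
        rw [hc]
        rfl
      | some b =>
        right
        have h3 : c'.qt = [b] := by
          rw [h2]
          show c.qt ++ [b] = [b]
          rw [hc]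
          rfl
        refine ⟨?_, c', b, hB, h3, Relation.ReflTransGen.refl⟩
        rw [h2]
        exact h1
    · right
      rcases hI.2 with h3 | ⟨h3, c₀, b, hb, hq, hg⟩
      · exact absurd h3 hc
      · refine ⟨?_, c₀, b, hb, hq, hg.tail ⟨hc, q, mv, g, wm, o, ha, h1, h2⟩⟩
        rw [h2]
        exact h1

theorem reach {k m h : ℕ} (M : Mach (Fin k) (Fin m) h) (s l : ℕ) (x : List Bool)
    (A A' : Oracle) (hA : ∀ y ∈ WW M s l x, A y = A' y) (c : Cfg (Fin k) (Fin m) h)
    (hc : Relation.ReflTransGen (M.Next A x l) (M.init s) c) :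
    Relation.ReflTransGen (M.Next A' x l) (M.init s) c ∧ Inv M s l x c := by
  induction hc with
  | refl =>
    refine ⟨Relation.ReflTransGen.refl, ⟨fun i => Nat.zero_le _, Nat.zero_le _, ?_⟩, Or.inl rfl⟩
    exact List.length_replicate
  | tail hab hbc ih =>
    have hs := step M s l x A A' hA _ _ ih.2 hbc
    exact ⟨ih.1.tail hs.1, hs.2⟩

theorem acc_imp {k m h : ℕ} (M : Mach (Fin k) (Fin m) h) (s l : ℕ) (x : List Bool)
    (A A' : Oracle) (hA : ∀ y ∈ WW M s l x, A y = A' y) (hacc : M.Acc A s l x) :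
    M.Acc A' s l x := by
  obtain ⟨c, hc, hac⟩ := hacc
  exact ⟨c, (reach M s l x A A' hA c hc).1, hac⟩

theorem WW_card {k m h : ℕ} (M : Mach (Fin k) (Fin m) h) (s l : ℕ) (x : List Bool) :
    (WW M s l x).card ≤ 2 * (k * (x.length + 2) ^ h * (s + 2) * m ^ s) + 1 := by
  unfold WW
  refine (card_insert_le _ _).trans ?_
  refine Nat.add_le_add_right ?_ 1
  refine card_image_le.trans (le_of_eq ?_)
  rw [card_univ]
  simp only [Fintype.card_prod, Fintype.card_fin, Fintype.card_pi, prod_const, card_univ,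
    Fintype.card_bool]
  ring

end WCaux

open WCaux in
theorem queries {k m h : ℕ} (M : Mach (Fin k) (Fin m) h) (s l : ℕ) (x : List Bool) :
    ∃ W : Finset (List Bool), (∀ y ∈ W, y.length ≤ l) ∧
      W.card ≤ 2 * (k * (x.length + 2) ^ h * (s + 2) * m ^ s) + 1 ∧
      ∀ A A' : Oracle, (∀ y ∈ W, A y = A' y) → (M.Acc A s l x ↔ M.Acc A' s l x) := by
  refine ⟨WW M s l x, ?_, WW_card M s l x, ?_⟩
  · intro y hy
    unfold WW at hy
    rcases mem_insert.1 hy with rfl | hy
    · simp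
    · obtain ⟨t, -, rfl⟩ := mem_image.1 hy
      exact qu_le M x l _
  · intro A A' hA
    exact ⟨acc_imp M s l x A A' hA, acc_imp M s l x A' A (fun y hy => (hA y hy).symm)⟩

end Pool.Agent.H628R4.SP
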