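import Pool.Agent.H628R4.SP.BaseT
import Mathlib

set_option autoImplicit false

namespace Pool.Agent.H628R4.SP

open Filter

theorem SMT_pow (A D : ℕ) : ∀ᶠ l : ℕ in atTop, 6 * A * l ^ D ≤ 2 ^ l := by
  have h1 := tendsto_pow_const_div_const_pow_of_one_lt D (r := (2 : ℝ)) (by norm_num)
  have h2 : (0 : ℝ) < 1 / (6 * A + 1) := by positivity
  filter_upwards [h1.eventually (gt_mem_nhds h2)] with l hl
  have h3 : (0 : ℝ) < 2 ^ l := by positivity
  rw [div_lt_div_iff₀ h3 (by positivity)] at hl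
  have h4 : ((6 * A * l ^ D : ℕ) : ℝ) ≤ ((2 ^ l : ℕ) : ℝ) := by
    push_cast
    nlinarith [pow_nonneg (Nat.cast_nonneg (α := ℝ) l) D]
  exact_mod_cast h4

theorem small_coresT (k m h c : ℕ) : ∀ᶠ n : ℕ in atTop,
    16 * (2 * n * (2 * (k * (3 * n + 2) ^ h * ((Nat.log 2 (3 * n) + 1) ^ c + 2) *
      m ^ ((Nat.log 2 (3 * n) + 1) ^ c)) + 1)) ≤ 2 ^ (2 * n) := by
  obtain ⟨l0, hl0⟩ := eventually_atTop.mp (SMT_pow (10 + k + 2 * h + m) (c + 1))
  filter_upwards [eventually_ge_atTop (2 ^ l0)] with n hn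
  have hn1 : 1 ≤ n := Nat.one_le_two_pow.trans hn
  have hlog : l0 ≤ Nat.log 2 (3 * n) := by
    apply Nat.le_log_of_pow_le (by norm_num)
    omega
  have hlt : 3 * n < 2 ^ (Nat.log 2 (3 * n) + 1) := Nat.lt_pow_succ_log_self (by norm_num) _
  have hle : 2 ^ Nat.log 2 (3 * n) ≤ 3 * n := Nat.pow_log_le_self 2 (by omega)
  generalize hl : Nat.log 2 (3 * n) + 1 = l at *
  have hl1 : 1 ≤ l := by omega
  have hP := hl0 l (by omega)
  have h2l : 2 ^ l = 2 * 2 ^ Nat.log 2 (3 * n) := by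
    rw [← hl, pow_succ]; ring
  have hlc : 1 ≤ l ^ c := Nat.one_le_pow _ _ hl1
  have hlc1 : l ^ (c + 1) = l ^ c * l := pow_succ _ _
  have e1 : l ≤ l ^ (c + 1) := by
    rw [hlc1]; exact Nat.le_mul_of_pos_left _ hlc
  have e2 : l ^ c ≤ l ^ (c + 1) := by
    rw [hlc1]; exact Nat.le_mul_of_pos_right _ hl1
  have e3 : 1 ≤ l ^ (c + 1) := hl1.trans e1
  -- the exponent is at most `n`
  have hexp : 8 + l + k + (l + 1) * h + (m + 1) * l ^ c ≤ 2 * n := by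
    have f1 : (10 + k + 2 * h + m) * l ^ (c + 1) ≤ n := by
      have : 6 * ((10 + k + 2 * h + m) * l ^ (c + 1)) ≤ 6 * n := by
        calc 6 * ((10 + k + 2 * h + m) * l ^ (c + 1)) = 6 * (10 + k + 2 * h + m) * l ^ (c + 1) := by ring
          _ ≤ 2 ^ l := hP
          _ ≤ 6 * n := by omega
      omega
    have f2 : 8 + l + k + (l + 1) * h + (m + 1) * l ^ c ≤ (10 + k + 2 * h + m) * l ^ (c + 1) := by
      calc 8 + l + k + (l + 1) * h + (m + 1) * l ^ c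
          ≤ 8 * l ^ (c + 1) + l ^ (c + 1) + k * l ^ (c + 1) + (l ^ (c + 1) + l ^ (c + 1)) * h +
            (m + 1) * l ^ (c + 1) := by
            gcongr
            · omega
            · exact Nat.le_mul_of_pos_right _ e3
        _ = (10 + k + 2 * h + m) * l ^ (c + 1) := by ring
    omega
  have g1 : k ≤ 2 ^ k := Nat.lt_two_pow_self.le
  have g2 : (3 * n + 2) ^ h ≤ 2 ^ ((l + 1) * h) := by
    rw [pow_mul]
    refine Nat.pow_le_pow_left ?_ _
    rw [pow_succ]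
    have : 1 ≤ 2 ^ l := Nat.one_le_two_pow
    omega
  have g3 : l ^ c + 2 ≤ 2 ^ (l ^ c + 2) := Nat.lt_two_pow_self.le
  have g4 : m ^ (l ^ c) ≤ 2 ^ (m * l ^ c) := by
    rw [pow_mul]
    exact Nat.pow_le_pow_left Nat.lt_two_pow_self.le _
  have g5 : 2 * n ≤ 2 ^ l := by omega
  have g6 : k * (3 * n + 2) ^ h * (l ^ c + 2) * m ^ (l ^ c) ≤
      2 ^ (k + (l + 1) * h + (l ^ c + 2) + m * l ^ c) := by
    rw [pow_add, pow_add, pow_add]
    exact Nat.mul_le_mul (Nat.mul_le_mul (Nat.mul_le_mul g1 g2) g3) g4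
  have g7 : 2 * (k * (3 * n + 2) ^ h * (l ^ c + 2) * m ^ (l ^ c)) + 1 ≤
      2 ^ (2 + (k + (l + 1) * h + (l ^ c + 2) + m * l ^ c)) := by
    rw [pow_add 2 2]
    have : 1 ≤ 2 ^ (k + (l + 1) * h + (l ^ c + 2) + m * l ^ c) := Nat.one_le_two_pow
    omega
  calc 16 * (2 * n * (2 * (k * (3 * n + 2) ^ h * (l ^ c + 2) * m ^ (l ^ c)) + 1))
      ≤ 2 ^ 4 * (2 ^ l * 2 ^ (2 + (k + (l + 1) * h + (l ^ c + 2) + m * l ^ c))) :=
        Nat.mul_le_mul (by norm_num) (Nat.mul_le_mul g5 g7)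
    _ = 2 ^ (8 + l + k + (l + 1) * h + (m + 1) * l ^ c) := by
        rw [← pow_add, ← pow_add]
        congr 1
        ring
    _ ≤ 2 ^ (2 * n) := Nat.pow_le_pow_right (by norm_num) hexp

end Pool.Agent.H628R4.SP
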