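import Pool.Agent.H628R4.SP.BaseT
import Pool.Agent.H620R2.Gauge.C
import Pool.Agent.H620R2.Gauge2.Null
import Pool.Agent.H620R2.Gauge.X
import Pool.Agent.H620R2.Gauge2.CoverN
import Pool.Agent.H628R4.SP.BaseN
import Pool.Agent.H628R4.SP.F_P1
import Pool.Agent.H620R2.Gauge2.V3

/-!
# The selection argument for parities
-/

namespace Pool.Agent.H628R4.SP

open Pool.Agent.NPC Pool.Agent.H620R2.Gauge Finset H568R2 Pool.Agent.H676

section

variable {I : Type*} [Fintype I] [DecidableEq I]

omit [Fintype I] [DecidableEq I] in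
theorem par_congr_P2 (B : Finset I) (a b : I → Bool) (h : ∀ i ∈ B, a i = b i) :
    par B a = par B b := by
  unfold par
  have : (B.filter (fun i => a i = true)) = (B.filter (fun i => b i = true)) := by
    apply Finset.filter_congr
    intro i hi
    rw [h i hi]
  rw [this]

omit [Fintype I] [DecidableEq I] in
theorem certP_of_eq {κ : Type*} (B : κ → Finset I) (p : ℕ) (V : (I → Bool) → Bool) (k : κ)
    (a b : I → Bool) (h : ∀ i, (∀ k', k' ≠ k → i ∉ B k') → a i = b i)
    (ha : CertP B p V k a) : CertP B p V k b := by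
  obtain ⟨A, hA, hdis, hV⟩ := ha
  refine ⟨A, hA, hdis, fun y hy => hV y fun i hi => ?_⟩
  rw [hy i hi]
  exact (h i fun k' hk' hij => (Finset.disjoint_left.1 (hdis k' hk')) hi hij).symm

omit [Fintype I] [DecidableEq I] in
theorem certP_congr {κ : Type*} (B : κ → Finset I) (p : ℕ) (V : (I → Bool) → Bool) (k : κ)
    (a b : I → Bool) (h : ∀ i, (∀ k', k' ≠ k → i ∉ B k') → a i = b i) :
    CertP B p V k a ↔ CertP B p V k b :=
  ⟨certP_of_eq B p V k a b h, certP_of_eq B p V k b a fun i hi => (h i hi).symm⟩

open Classical in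
theorem selectionP {κ : Type*} [Fintype κ] {p : ℕ} (B : κ → Finset I)
    (hB : ∀ k, 2 * p ≤ (B k).card) (hd : ∀ k k', k ≠ k' → Disjoint (B k) (B k'))
    (V : κ → (I → Bool) → Bool) :
    Ex unif (fun a : I → Bool => if ∀ k, V k a = par (B k) a then
      (3 / 2 : ℝ) ^ (univ.filter (fun k => par (B k) a = true ∧ CertP B p (V k) k a)).card
      else 0) ≤ 1 := by
  let φ : κ → (I → Bool) → ℝ := fun k a =>
    if par (B k) a = false ∧ CertP B p (V k) k a then 0 else
      if par (B k) a = true ∧ CertP B p (V k) k a then 3 / 2 else 1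
  have hφ0 : ∀ k a, 0 ≤ φ k a := by
    intro k a
    simp only [φ]
    split_ifs <;> norm_num
  have hdj : ∀ k k', k ≠ k' → ∀ i, i ∈ B k → i ∉ B k' := by
    intro k k' hkk i hi hi'
    exact (Finset.disjoint_left.1 (hd k k' hkk)) hi hi'
  have hmix : ∀ (k : κ) (a b : I → Bool) (i : I), i ∉ B k → mix (B k) b a i = a i := by
    intro k a b i hi
    simp [mix, hi]
  have hmix' : ∀ (k : κ) (a b : I → Bool) (i : I), i ∈ B k → mix (B k) b a i = b i := by
    intro k a b i hi
    simp [mix, hi]
  have hpt : ∀ a : I → Bool, (if ∀ k, V k a = par (B k) a then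
      (3 / 2 : ℝ) ^ (univ.filter (fun k => par (B k) a = true ∧ CertP B p (V k) k a)).card
      else 0) ≤ ∏ k ∈ (univ : Finset κ), φ k a := by
    intro a
    split_ifs with h
    · have e : ∀ k, φ k a = if par (B k) a = true ∧ CertP B p (V k) k a then 3 / 2 else 1 := by
        intro k
        simp only [φ]
        rw [if_neg]
        rintro ⟨hh, hc⟩
        obtain ⟨A, -, -, hV⟩ := hc
        have h1 := hV a fun i _ => rfl
        rw [h k, hh] at h1
        exact Bool.noConfusion h1
      rw [Finset.prod_congr rfl fun k _ => e k, Finset.prod_ite, Finset.prod_const,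
        Finset.prod_const_one, mul_one]
    · exact Finset.prod_nonneg fun k _ => hφ0 k a
  refine (Ex_mono unif_nonneg hpt).trans ?_
  refine (prod_block univ B φ (fun _ => 1) (fun k _ a => hφ0 k a) ?_ ?_).trans
    (by rw [Finset.prod_const_one])
  · intro k _ k' _ hkk a b
    have h1 : par (B k) (mix (B k') b a) = par (B k) a :=
      par_congr_P2 _ _ _ fun i hi => hmix k' a b i (hdj k k' hkk i hi)
    have h2 : CertP B p (V k) k (mix (B k') b a) ↔ CertP B p (V k) k a := by
      refine certP_congr _ _ _ _ _ _ fun i hi => hmix k' a b i ?_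
      exact hi k' (Ne.symm hkk)
    simp only [φ, h1, h2]
  · intro k _ a
    have h1 : ∀ b, par (B k) (mix (B k) b a) = par (B k) b := fun b =>
      par_congr_P2 _ _ _ fun i hi => hmix' k a b i hi
    have hs := single_par (B k) (hB k)
      (fun b => CertP B p (V k) k (mix (B k) b a)) (by
        rintro b ⟨A, hA, hdis, hV⟩
        refine ⟨A, hA, fun y hy => ⟨A, hA, hdis, fun z hz => hV z fun i hi => ?_⟩⟩
        rw [hz i hi]
        by_cases hiB : i ∈ B k
        · rw [hmix' k a y i hiB, hmix' k a b i hiB, hy i hi]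
        · rw [hmix k a y i hiB, hmix k a b i hiB])
    have e : ∀ b, φ k (mix (B k) b a) =
        1 + (1 / 2 * (if par (B k) b = true ∧ CertP B p (V k) k (mix (B k) b a) then (1 : ℝ) else 0) +
          (-1) * (if par (B k) b = false ∧ CertP B p (V k) k (mix (B k) b a) then (1 : ℝ) else 0)) := by
      intro b
      simp only [φ, h1]
      by_cases hc : CertP B p (V k) k (mix (B k) b a) <;> cases par (B k) b <;>
        (simp [hc]; try norm_num)
    rw [funext e, Ex_add, Ex_const unif_sum, Ex_add, Ex_smul, Ex_smul]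
    linarith

end

end Pool.Agent.H628R4.SP
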