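import Pool.Agent.H628R4.SP.BaseT
import Pool.Agent.H620R2.Gauge.C
import Pool.Agent.H620R2.Gauge2.Null
import Pool.Agent.H620R2.Gauge.X
import Pool.Agent.H620R2.Gauge2.CoverN
import Pool.Agent.H628R4.SP.BaseN

set_option autoImplicit false

namespace Pool.Agent.H628R4.SP

open Pool.Agent.NPC Pool.Agent.H620R2.Gauge Finset H568R2 Pool.Agent.H676
open Filter (atTop)

section

variable {I : Type*} [Fintype I] [DecidableEq I]

omit [Fintype I] in
theorem P3_toggle (B : Finset I) (i : I) (hi : i ∈ B) (ω : I → Bool) :
    par B (Function.update ω i true) = !par B (Function.update ω i false) := by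
  unfold par
  have h1 : B.filter (fun j => Function.update ω i true j = true) =
      insert i (B.filter (fun j => Function.update ω i false j = true)) := by
    ext j
    simp only [Finset.mem_filter, Finset.mem_insert]
    by_cases hj : j = i
    · subst hj
      simp [hi]
    · simp [hj]
  have h2 : i ∉ B.filter (fun j => Function.update ω i false j = true) := by
    simp
  rw [h1, Finset.card_insert_of_notMem h2]
  simp only [Nat.odd_add_one, decide_not]

theorem P3_single (B : Finset I) (hB : 1 ≤ B.card) :
    Ex unif (fun b : I → Bool => if par B b = true then (1 / 4 : ℝ) else 1) = 5 / 8 := by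
  obtain ⟨i, hi⟩ := Finset.card_pos.1 hB
  rw [Ex_resample unif_sum _ i]
  have h : (fun ω : I → Bool => ∑ a : Bool, unif a *
      (if par B (Function.update ω i a) = true then (1 / 4 : ℝ) else 1)) = fun _ => 5 / 8 := by
    funext ω
    rw [Fintype.sum_bool, P3_toggle B i hi ω]
    unfold unif
    cases par B (Function.update ω i false) <;> norm_num
  rw [h, Ex_const unif_sum]

omit [Fintype I] in
theorem P3_par_congr (B : Finset I) (a b : I → Bool) (h : ∀ i ∈ B, a i = b i) :
    par B a = par B b := by
  unfold par
  have : B.filter (fun i => a i = true) = B.filter (fun i => b i = true) :=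
    Finset.filter_congr fun i hi => by rw [h i hi]
  rw [this]

-- P3
theorem tailP {κ : Type*} [Fintype κ] {s : ℕ} (hκ : Fintype.card κ = 16 * s)
    (B : κ → Finset I) (hB : ∀ k, 1 ≤ (B k).card)
    (hd : ∀ k k', k ≠ k' → Disjoint (B k) (B k')) :
    Ex unif (fun a : I → Bool =>
      if (univ.filter (fun k => par (B k) a = true)).card < 2 * s then (1 : ℝ) else 0) ≤
      (1 / 2) ^ s := by
  have hprod : ∀ a : I → Bool, (∏ k : κ, (if par (B k) a = true then (1 / 4 : ℝ) else 1)) =
      (1 / 4) ^ (univ.filter (fun k => par (B k) a = true)).card := by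
    intro a
    rw [← Finset.prod_const, Finset.prod_filter]
  have hpt : ∀ a : I → Bool,
      (if (univ.filter (fun k => par (B k) a = true)).card < 2 * s then (1 : ℝ) else 0) ≤
      16 ^ s * ∏ k : κ, (if par (B k) a = true then (1 / 4 : ℝ) else 1) := by
    intro a
    rw [hprod a]
    split_ifs with h
    · have h1 : (1 / 4 : ℝ) ^ (2 * s) ≤ (1 / 4) ^ (univ.filter (fun k => par (B k) a = true)).card :=
        pow_le_pow_of_le_one (by norm_num) (by norm_num) h.le
      have h2 : (16 : ℝ) ^ s * (1 / 4) ^ (2 * s) = 1 := by
        rw [pow_mul, ← mul_pow]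
        norm_num
      calc (1 : ℝ) = 16 ^ s * (1 / 4) ^ (2 * s) := h2.symm
        _ ≤ _ := mul_le_mul_of_nonneg_left h1 (by positivity)
    · positivity
  refine (Ex_mono unif_nonneg hpt).trans ?_
  rw [Ex_smul]
  have hblock := prod_block (univ : Finset κ) B
    (fun k a => if par (B k) a = true then (1 / 4 : ℝ) else 1) (fun _ => (5 / 8 : ℝ))
    (fun k _ a => by split_ifs <;> norm_num)
    (fun k _ k' _ hkk a b => by
      rw [P3_par_congr (B k) (mix (B k') b a) a]
      intro i hi
      unfold mix
      rw [if_neg]
      exact Finset.disjoint_left.1 (hd k k' hkk) hi)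
    (fun k _ a => by
      have : (fun b : I → Bool => if par (B k) (mix (B k) b a) = true then (1 / 4 : ℝ) else 1) =
          fun b => if par (B k) b = true then (1 / 4 : ℝ) else 1 := by
        funext b
        rw [P3_par_congr (B k) (mix (B k) b a) b]
        intro i hi
        unfold mix
        rw [if_pos hi]
      rw [this, P3_single (B k) (hB k)])
  rw [Finset.prod_const, Finset.card_univ, hκ] at hblock
  calc (16 : ℝ) ^ s * Ex unif (fun a : I → Bool =>
        ∏ k : κ, (if par (B k) a = true then (1 / 4 : ℝ) else 1))
      ≤ 16 ^ s * (5 / 8 : ℝ) ^ (16 * s) := mul_le_mul_of_nonneg_left hblock (by positivity)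
    _ = (16 * (5 / 8 : ℝ) ^ 16) ^ s := by rw [pow_mul, ← mul_pow]
    _ ≤ (1 / 2) ^ s := by
        apply pow_le_pow_left₀ (by positivity)
        norm_num

end

end Pool.Agent.H628R4.SP
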