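import Pool.Agent.H628R4.SP.Base
import Pool.Agent.H620R2.Gauge.C
import Pool.Agent.H620R2.Gauge2.Null
import Pool.Agent.H620R2.Gauge.X
import Pool.Agent.H628R4.SP.F_CTR

/-!
# A machine for the parity language (task PM, written by helper656)
-/

namespace Pool.Agent.H628R4.SP

open Pool.Agent.NPC Pool.Agent.H620R2.Gauge Finset H568R2 Pool.Agent.H676
open Filter (atTop)

namespace PMx

/-- the phases of the loop: print the input, rewind the input head, print the work tape and ask,
rewind the work head, increment the counter, rewind the work head, final state -/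
inductive Ph : Type
  | px
  | rx
  | pt
  | rt
  | inc
  | rw
  | fin
  deriving DecidableEq

instance : Fintype Ph where
  elems := {.px, .rx, .pt, .rt, .inc, .rw, .fin}
  complete := by intro q; cases q <;> simp

/-- the actions -/
def act (q : Ph × Bool) (y : Fin 1 → Cell Bool) (g : Cell Bool) : List (Act (Ph × Bool) Bool 1) :=
  match q.1 with
  | .px => match y 0 with
    | .lend => [.go (.px, q.2) (fun _ => .right) none .stay none]
    | .letter a => [.go (.px, q.2) (fun _ => .right) none .stay (some a)]
    | .rend => [.go (.rx, q.2) (fun _ => .left) none .stay none]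
  | .rx => match y 0 with
    | .lend => [.go (.pt, q.2) (fun _ => .stay) none .stay none]
    | .letter _ => [.go (.rx, q.2) (fun _ => .left) none .stay none]
    | .rend => [.go (.rx, q.2) (fun _ => .left) none .stay none]
  | .pt => match g with
    | .lend => [.go (.pt, q.2) (fun _ => .stay) none .right none]
    | .letter a => [.go (.pt, q.2) (fun _ => .stay) none .right (some a)]
    | .rend => [.ask (.rt, !q.2) (.rt, q.2)]
  | .rt => match g with
    | .lend => [.go (.inc, q.2) (fun _ => .stay) none .right none]
    | .letter _ => [.go (.rt, q.2) (fun _ => .stay) none .left none]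
    | .rend => [.go (.rt, q.2) (fun _ => .stay) none .left none]
  | .inc => match g with
    | .lend => []
    | .letter true => [.go (.inc, q.2) (fun _ => .stay) (some false) .right none]
    | .letter false => [.go (.rw, q.2) (fun _ => .stay) (some true) .left none]
    | .rend => [.go (.fin, q.2) (fun _ => .stay) none .stay none]
  | .rw => match g with
    | .lend => [.go (.px, q.2) (fun _ => .stay) none .stay none]
    | .letter _ => [.go (.rw, q.2) (fun _ => .stay) none .left none]
    | .rend => [.go (.rw, q.2) (fun _ => .stay) none .left none]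
  | .fin => if q.2 = true then [.acc] else []

/-- the machine -/
def M : Mach (Ph × Bool) Bool 1 := ⟨(.px, false), false, act⟩

lemma act_len (q : Ph × Bool) (y : Fin 1 → Cell Bool) (g : Cell Bool) : (act q y g).length ≤ 1 := by
  obtain ⟨p, b⟩ := q
  unfold act
  cases p <;> simp only
  · cases y 0 <;> simp
  · cases y 0 <;> simp
  · cases g <;> simp
  · cases g <;> simp
  · rcases g with _ | _ | ⟨_ | _⟩ <;> simp
  · cases g <;> simp
  · split_ifs <;> simp

lemma det : M.Det := act_len

lemma acc_fin {q : Ph × Bool} {y : Fin 1 → Cell Bool} {g : Cell Bool} (h : Act.acc ∈ act q y g) :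
    q = (.fin, true) := by
  obtain ⟨p, b⟩ := q
  unfold act at h
  cases p <;> simp only at h
  · cases hy : y 0 <;> simp [hy] at h
  · cases hy : y 0 <;> simp [hy] at h
  · cases g <;> simp at h
  · cases g <;> simp at h
  · rcases g with _ | _ | ⟨_ | _⟩ <;> simp at h
  · cases g <;> simp at h
  · split_ifs at h with hb
    · rw [hb]
    · simp at h

variable {A : Oracle} {x : List Bool} {l : ℕ}

/-- configurations -/
abbrev C (q : Ph × Bool) (i : ℕ) (w : List Bool) (j : ℕ) (qt : List Bool) :
    Cfg (Ph × Bool) Bool 1 := ⟨q, fun _ => i, w, j, qt⟩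

lemma can_of {q : Ph × Bool} {i : ℕ} {w : List Bool} {j : ℕ} {qt : List Bool}
    {a : Act (Ph × Bool) Bool 1} (h : act q (fun _ => look x i) (look w j) = [a]) :
    a ∈ M.can x (C q i w j qt) := by
  unfold Mach.can
  have h' : M.act (C q i w j qt).q (fun k => look x ((C q i w j qt).pos k))
      (look (C q i w j qt).tape (C q i w j qt).wp) = [a] := h
  rw [h']
  split_ifs <;> simp

lemma go {q q' : Ph × Bool} {i : ℕ} {w : List Bool} {j : ℕ} {qt : List Bool} {mv : Mv}
    {g : Option Bool} {wm : Mv} {o : Option Bool}
    (h : act q (fun _ => look x i) (look w j) = [.go q' (fun _ => mv) g wm o])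
    (hl : (qt ++ o.toList).length ≤ l) :
    M.Next A x l (C q i w j qt)
      (C q' (move x.length mv i) (put w j g) (move w.length wm j) (qt ++ o.toList)) :=
  ⟨_, can_of h, hl, rfl⟩

lemma look_zero {α : Type} (t : List α) : look t 0 = .lend := by simp [look]

lemma look_lt {α : Type} (t : List α) (i : ℕ) (h : i < t.length) :
    look t (i + 1) = .letter t[i] := by
  simp [look, List.getElem?_eq_getElem h]

lemma look_end {α : Type} (t : List α) : look t (t.length + 1) = .rend := by
  simp [look]

/-- the run -/
abbrev R (A : Oracle) (x : List Bool) (l : ℕ) := Relation.ReflTransGen (M.Next A x l)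

lemma px_run (b : Bool) (w : List Bool) (hl : x.length ≤ l) :
    R A x l (C (.px, b) 0 w 0 []) (C (.rx, b) x.length w 0 x) := by
  have h0 : R A x l (C (.px, b) 0 w 0 []) (C (.px, b) 1 w 0 []) := by
    refine Relation.ReflTransGen.single ?_
    have := go (A := A) (x := x) (l := l) (q := (.px, b)) (q' := (.px, b)) (i := 0) (w := w) (j := 0)
      (qt := []) (mv := .right) (g := none) (wm := .stay) (o := none)
      (by simp [act, look_zero]) (by simp)
    simpa [move, put] using this
  have h1 : ∀ i, i ≤ x.length → R A x l (C (.px, b) 1 w 0 []) (C (.px, b) (i + 1) w 0 (x.take i)) := by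
    intro i
    induction i with
    | zero => intro _; simpa using Relation.ReflTransGen.refl
    | succ i ih =>
      intro hi
      refine (ih (by omega)).tail ?_
      have := go (A := A) (x := x) (l := l) (q := (.px, b)) (q' := (.px, b)) (i := i + 1) (w := w)
        (j := 0) (qt := x.take i) (mv := .right) (g := none) (wm := .stay) (o := some x[i])
        (by simp [act, look_lt x i (by omega)]) (by simp; omega)
      have e : x.take i ++ (some x[i]).toList = x.take (i + 1) := by
        simp [Option.toList]
      rw [e] at this
      have e2 : move x.length Mv.right (i + 1) = i + 1 + 1 := by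
        simp only [move]; omega
      rw [e2] at this
      exact this
  refine h0.trans ((h1 x.length le_rfl).tail ?_)
  rw [List.take_length]
  have := go (A := A) (x := x) (l := l) (q := (.px, b)) (q' := (.rx, b)) (i := x.length + 1) (w := w)
    (j := 0) (qt := x) (mv := .left) (g := none) (wm := .stay) (o := none)
    (by simp [act, look_end x]) (by simpa using hl)
  simpa [move, put] using this

lemma rx_run (b : Bool) (w qt : List Bool) (hl : qt.length ≤ l) (i : ℕ) (hi : i ≤ x.length) :
    R A x l (C (.rx, b) i w 0 qt) (C (.pt, b) 0 w 0 qt) := by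
  induction i with
  | zero =>
    refine Relation.ReflTransGen.single ?_
    have := go (A := A) (x := x) (l := l) (q := (.rx, b)) (q' := (.pt, b)) (i := 0) (w := w) (j := 0)
      (qt := qt) (mv := .stay) (g := none) (wm := .stay) (o := none)
      (by simp [act, look_zero]) (by simpa using hl)
    simpa [move, put] using this
  | succ i ih =>
    refine Relation.ReflTransGen.head ?_ (ih (by omega))
    have := go (A := A) (x := x) (l := l) (q := (.rx, b)) (q' := (.rx, b)) (i := i + 1) (w := w)
      (j := 0) (qt := qt) (mv := .left) (g := none) (wm := .stay) (o := none)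
      (by simp [act, look_lt x i (by omega)]) (by simpa using hl)
    simpa [move, put] using this

lemma pt_run (b : Bool) (w : List Bool) (hl : x.length + w.length ≤ l) :
    R A x l (C (.pt, b) 0 w 0 x) (C (.rt, xor b (A (x ++ w))) 0 w (w.length + 1) []) := by
  have h0 : R A x l (C (.pt, b) 0 w 0 x) (C (.pt, b) 0 w 1 x) := by
    refine Relation.ReflTransGen.single ?_
    have := go (A := A) (x := x) (l := l) (q := (.pt, b)) (q' := (.pt, b)) (i := 0) (w := w) (j := 0)
      (qt := x) (mv := .stay) (g := none) (wm := .right) (o := none)
      (by simp [act, look_zero]) (by simp; omega)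
    simpa [move, put] using this
  have h1 : ∀ j, j ≤ w.length → R A x l (C (.pt, b) 0 w 1 x)
      (C (.pt, b) 0 w (j + 1) (x ++ w.take j)) := by
    intro j
    induction j with
    | zero => intro _; simpa using Relation.ReflTransGen.refl
    | succ j ih =>
      intro hj
      refine (ih (by omega)).tail ?_
      have := go (A := A) (x := x) (l := l) (q := (.pt, b)) (q' := (.pt, b)) (i := 0) (w := w)
        (j := j + 1) (qt := x ++ w.take j) (mv := .stay) (g := none) (wm := .right) (o := some w[j])
        (by simp [act, look_lt w j (by omega)]) (by simp; omega)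
      have e : x ++ w.take j ++ (some w[j]).toList = x ++ w.take (j + 1) := by
        simp [Option.toList]
      rw [e] at this
      have e2 : move w.length Mv.right (j + 1) = j + 1 + 1 := by
        simp only [move]; omega
      rw [e2] at this
      exact this
  refine h0.trans ((h1 w.length le_rfl).tail ?_)
  rw [List.take_length]
  refine ⟨_, can_of (a := .ask (.rt, !b) (.rt, b)) (by simp [act, look_end w]), ?_⟩
  show C _ _ _ _ _ = _
  cases hA : A (x ++ w) <;> simp [hA]

lemma rt_run (b : Bool) (w : List Bool) (j : ℕ) (hj : j ≤ w.length + 1) :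
    R A x l (C (.rt, b) 0 w j []) (C (.inc, b) 0 w 1 []) := by
  induction j with
  | zero =>
    refine Relation.ReflTransGen.single ?_
    have := go (A := A) (x := x) (l := l) (q := (.rt, b)) (q' := (.inc, b)) (i := 0) (w := w) (j := 0)
      (qt := []) (mv := .stay) (g := none) (wm := .right) (o := none)
      (by simp [act, look_zero]) (by simp)
    simpa [move, put] using this
  | succ j ih =>
    refine Relation.ReflTransGen.head ?_ (ih (by omega))
    have hh : act (.rt, b) (fun _ => look x 0) (look w (j + 1)) =
        [.go (.rt, b) (fun _ => .stay) none .left none] := by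
      rcases Nat.lt_or_ge j w.length with h | h
      · simp [act, look_lt w j h]
      · have : j = w.length := by omega
        subst this
        simp [act, look_end w]
    have := go (A := A) (x := x) (l := l) (q := (.rt, b)) (q' := (.rt, b)) (i := 0) (w := w)
      (j := j + 1) (qt := []) (mv := .stay) (g := none) (wm := .left) (o := none)
      hh (by simp)
    simpa [move, put] using this

lemma rw_run (b : Bool) (w : List Bool) (j : ℕ) (hj : j ≤ w.length + 1) :
    R A x l (C (.rw, b) 0 w j []) (C (.px, b) 0 w 0 []) := by
  induction j with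
  | zero =>
    refine Relation.ReflTransGen.single ?_
    have := go (A := A) (x := x) (l := l) (q := (.rw, b)) (q' := (.px, b)) (i := 0) (w := w) (j := 0)
      (qt := []) (mv := .stay) (g := none) (wm := .stay) (o := none)
      (by simp [act, look_zero]) (by simp)
    simpa [move, put] using this
  | succ j ih =>
    refine Relation.ReflTransGen.head ?_ (ih (by omega))
    have hh : act (.rw, b) (fun _ => look x 0) (look w (j + 1)) =
        [.go (.rw, b) (fun _ => .stay) none .left none] := by
      rcases Nat.lt_or_ge j w.length with h | h
      · simp [act, look_lt w j h]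
      · have : j = w.length := by omega
        subst this
        simp [act, look_end w]
    have := go (A := A) (x := x) (l := l) (q := (.rw, b)) (q' := (.rw, b)) (i := 0) (w := w)
      (j := j + 1) (qt := []) (mv := .stay) (g := none) (wm := .left) (o := none)
      hh (by simp)
    simpa [move, put] using this

lemma look_mid (u v : List Bool) (c : Bool) : look (u ++ c :: v) (u.length + 1) = .letter c := by
  rw [look_lt _ _ (by simp)]
  simp

lemma put_mid (u v : List Bool) (c d : Bool) :
    put (u ++ c :: v) (u.length + 1) (some d) = u ++ d :: v := by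
  simp [put]

/-- the increment -/
lemma inc_run (b : Bool) (w : List Bool) : ∀ u : List Bool,
    (∀ w', incr w = some w' → ∃ j, j ≤ u.length + w.length + 1 ∧ w'.length = w.length ∧
      R A x l (C (.inc, b) 0 (u ++ w) (u.length + 1) []) (C (.rw, b) 0 (u ++ w') j [])) ∧
    (incr w = none → ∃ t j, R A x l (C (.inc, b) 0 (u ++ w) (u.length + 1) [])
      (C (.fin, b) 0 t j [])) := by
  induction w with
  | nil =>
    intro u
    refine ⟨fun w' h => by simp [incr] at h, fun _ => ⟨u ++ [], u.length + 1, ?_⟩⟩
    refine Relation.ReflTransGen.single ?_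
    have := go (A := A) (x := x) (l := l) (q := (.inc, b)) (q' := (.fin, b)) (i := 0) (w := u)
      (j := u.length + 1) (qt := []) (mv := .stay) (g := none) (wm := .stay) (o := none)
      (by simp [act, look_end u]) (by simp)
    simpa [move, put] using this
  | cons c v ih =>
    intro u
    cases c with
    | false =>
      refine ⟨fun w' h => ?_, fun h => by simp [incr] at h⟩
      simp only [incr, Option.some.injEq] at h
      subst h
      refine ⟨u.length, by simp; omega, by simp, Relation.ReflTransGen.single ?_⟩
      have := go (A := A) (x := x) (l := l) (q := (.inc, b)) (q' := (.rw, b)) (i := 0)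
        (w := u ++ false :: v) (j := u.length + 1) (qt := []) (mv := .stay) (g := some true)
        (wm := .left) (o := none) (by simp [act, look_mid]) (by simp)
      rw [put_mid] at this
      simpa [move] using this
    | true =>
      have h1 : M.Next A x l (C (.inc, b) 0 (u ++ true :: v) (u.length + 1) [])
          (C (.inc, b) 0 ((u ++ [false]) ++ v) ((u ++ [false]).length + 1) []) := by
        have := go (A := A) (x := x) (l := l) (q := (.inc, b)) (q' := (.inc, b)) (i := 0)
          (w := u ++ true :: v) (j := u.length + 1) (qt := []) (mv := .stay) (g := some false)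
          (wm := .right) (o := none) (by simp [act, look_mid]) (by simp)
        rw [put_mid] at this
        have e : move (u ++ true :: v).length Mv.right (u.length + 1) = (u ++ [false]).length + 1 := by
          simp [move]
        rw [e] at this
        have e2 : u ++ [false] ++ v = u ++ false :: v := by simp
        rw [e2]
        simpa [move] using this
      obtain ⟨ih1, ih2⟩ := ih (u ++ [false])
      refine ⟨fun w' h => ?_, fun h => ?_⟩
      · simp only [incr, Option.map_eq_some_iff] at h
        obtain ⟨v', hv, rfl⟩ := h
        obtain ⟨j, hj, hlen, hr⟩ := ih1 v' hv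
        refine ⟨j, by simp at hj ⊢; omega, by simp [hlen], ?_⟩
        have e2 : u ++ [false] ++ v' = u ++ false :: v' := by simp
        rw [e2] at hr
        exact Relation.ReflTransGen.head h1 hr
      · simp only [incr, Option.map_eq_none_iff] at h
        obtain ⟨t, j, hr⟩ := ih2 h
        exact ⟨t, j, Relation.ReflTransGen.head h1 hr⟩

/-- one round of the loop -/
lemma loop (b : Bool) (w : List Bool) (hl : x.length + w.length ≤ l) :
    (∀ w', incr w = some w' →
      R A x l (C (.px, b) 0 w 0 []) (C (.px, xor b (A (x ++ w))) 0 w' 0 [])) ∧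
    (incr w = none → ∃ t j, R A x l (C (.px, b) 0 w 0 [])
      (C (.fin, xor b (A (x ++ w))) 0 t j [])) := by
  have h1 : R A x l (C (.px, b) 0 w 0 []) (C (.inc, xor b (A (x ++ w))) 0 w 1 []) :=
    (px_run b w (by omega)).trans ((rx_run b w x (by omega) x.length le_rfl).trans
      ((pt_run b w hl).trans (rt_run _ w (w.length + 1) le_rfl)))
  obtain ⟨h2, h3⟩ := inc_run (A := A) (x := x) (l := l) (xor b (A (x ++ w))) w []
  simp only [List.nil_append, List.length_nil, zero_add] at h2 h3
  refine ⟨fun w' hw => ?_, fun hw => ?_⟩
  · obtain ⟨j, hj, hlen, hr⟩ := h2 w' hw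
    exact h1.trans (hr.trans (rw_run _ w' j (by omega)))
  · obtain ⟨t, j, hr⟩ := h3 hw
    exact ⟨t, j, h1.trans hr⟩

lemma next_unique : Relator.RightUnique (M.Next A x l) := by
  intro c c1 c2 h1 h2
  obtain ⟨a1, m1, d1⟩ := h1
  obtain ⟨a2, m2, d2⟩ := h2
  have key : a1 = a2 := by
    have hlen : (M.can x c).length ≤ 1 := by
      unfold Mach.can
      split_ifs
      · exact act_len c.q (fun i => look x (c.pos i)) (look c.tape c.wp)
      · simp
    match h : M.can x c, hlen with
    | [], _ => rw [h] at m1; simp at m1
    | [a], _ => rw [h] at m1 m2; simp at m1 m2; rw [m1, m2]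
  subst key
  cases a1 with
  | acc => exact absurd d1 id
  | ask q₁ q₀ => exact d1.trans d2.symm
  | go q mv g wm o => exact d1.2.trans d2.2.symm

lemma fin_stop {b : Bool} {i : ℕ} {t : List Bool} {j : ℕ} {qt : List Bool}
    {c : Cfg (Ph × Bool) Bool 1} (h : R A x l (C (.fin, b) i t j qt) c) : c = C (.fin, b) i t j qt := by
  rcases Relation.ReflTransGen.cases_head h with h | ⟨c', ⟨a, m, d⟩, _⟩
  · exact h.symm
  · exfalso
    have m' : a ∈ act (.fin, b) (fun _ => look x i) (look t j) := by
      unfold Mach.can at m
      split_ifs at m
      · exact m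
      · exact List.mem_of_mem_take m
    cases b with
    | false => simp [act] at m'
    | true => simp [act] at m'; subst m'; exact d

lemma acc_iff {b : Bool} {s i : ℕ} {t : List Bool} {j : ℕ} {qt : List Bool}
    (h : R A x l (M.init s) (C (.fin, b) i t j qt)) : M.Acc A s l x ↔ b = true := by
  constructor
  · rintro ⟨c, hc, hacc⟩
    have hq : c.q = (.fin, true) := by
      unfold Mach.can at hacc
      split_ifs at hacc
      · exact acc_fin (q := c.q) (y := fun i => look x (c.pos i)) (g := look c.tape c.wp) hacc
      · exact acc_fin (q := c.q) (y := fun i => look x (c.pos i)) (g := look c.tape c.wp)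
          (List.mem_of_mem_take hacc)
    rcases Relation.ReflTransGen.total_of_right_unique next_unique h hc with h1 | h1
    · have := fin_stop h1
      rw [this] at hq
      simpa using hq
    · obtain ⟨q, pos, tape, wp, qt'⟩ := c
      have hpos : pos = fun _ => pos 0 := by
        funext k; rw [Subsingleton.elim k 0]
      simp only at hq
      subst hq
      rw [hpos] at h1
      have := fin_stop h1
      simpa using congrArg Cfg.q this
  · intro hb
    subst hb
    exact ⟨_, h, can_of (a := .acc) (by simp [act])⟩

/-- the parity of the first `i` answers -/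
def par' (A : Oracle) (x : List Bool) (w : ℕ → List Bool) : ℕ → Bool
  | 0 => false
  | i + 1 => xor (par' A x w i) (A (x ++ w i))

lemma par'_odd (A : Oracle) (x : List Bool) (w : ℕ → List Bool) (i : ℕ) :
    par' A x w i = true ↔ Odd ((range i).filter (fun k => A (x ++ w k) = true)).card := by
  induction i with
  | zero => simp [par']
  | succ i ih =>
    rw [range_add_one, filter_insert]
    unfold par'
    cases hA : A (x ++ w i) with
    | false => simpa using ih
    | true =>
      rw [if_pos rfl, card_insert_of_notMem (by simp), Nat.odd_add_one, ← ih]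
      simp

end PMx

open PMx in
theorem par_machine : ∃ (Q : Type) (_ : Fintype Q) (M : Mach Q Bool 1) (d : ℕ), M.Det ∧
    ∀ (A : Oracle) (x : List Bool),
      M.Acc A (side x.length) ((x.length + 2) ^ d) x ↔ x ∈ testP A := by
  refine ⟨Ph × Bool, inferInstance, PMx.M, 2, det, fun A x => ?_⟩
  set s := side x.length with hs
  have hlen : x.length + s ≤ (x.length + 2) ^ 2 := by
    have h1 : Nat.log 2 x.length ≤ x.length := Nat.log_le_self 2 x.length
    have h2 : s ≤ (x.length + 1) ^ 2 := by
      rw [hs]; unfold side
      exact Nat.pow_le_pow_left (by omega) 2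
    nlinarith
  obtain ⟨w, hw0, hw1, hw2, hw3, hw4⟩ := counter s
  have hpos : 0 < 2 ^ s := by positivity
  have hrun : ∀ i, i < 2 ^ s → R A x ((x.length + 2) ^ 2) (PMx.M.init s)
      (C (.px, par' A x w i) 0 (w i) 0 []) := by
    intro i
    induction i with
    | zero =>
      intro _
      have : PMx.M.init s = C (.px, par' A x w 0) 0 (w 0) 0 [] := by
        rw [hw0]; rfl
      rw [this]
    | succ i ih =>
      intro hi
      refine (ih (by omega)).trans ?_
      exact (loop (par' A x w i) (w i) (by rw [hw3 i (by omega)]; exact hlen)).1 (w (i + 1)) (hw1 i hi)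
  obtain ⟨t, j, hfin⟩ := (loop (A := A) (x := x) (l := (x.length + 2) ^ 2)
    (par' A x w (2 ^ s - 1)) (w (2 ^ s - 1))
    (by rw [hw3 _ (by omega)]; exact hlen)).2 hw2
  have h1 := (hrun (2 ^ s - 1) (by omega)).trans hfin
  rw [acc_iff h1]
  have h2 : xor (par' A x w (2 ^ s - 1)) (A (x ++ w (2 ^ s - 1))) = par' A x w (2 ^ s) := by
    conv_rhs => rw [show 2 ^ s = (2 ^ s - 1) + 1 by omega]
    rfl
  rw [h2, par'_odd]
  unfold testP
  rw [Set.mem_setOf_eq]
  have hcard : ((range (2 ^ s)).filter (fun k => A (x ++ w k) = true)).card =
      (univ.filter (fun v : Fin s → Bool => A (x ++ List.ofFn v) = true)).card := by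
    refine card_bij (fun k _ => fun i : Fin s => (w k).getD i false) ?_ ?_ ?_
    · intro k hk
      rw [mem_filter, mem_range] at hk
      rw [mem_filter]
      refine ⟨mem_univ _, ?_⟩
      have : List.ofFn (fun i : Fin s => (w k).getD i false) = w k := by
        apply List.ext_getElem
        · simp [hw3 k hk.1]
        · intro n h1 h2
          simp [List.getElem?_eq_getElem h2]
      rw [this]
      exact hk.2
    · intro k hk k' hk' he
      rw [mem_filter, mem_range] at hk hk'
      have hww : w k = w k' := by
        apply List.ext_getElem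
        · rw [hw3 k hk.1, hw3 k' hk'.1]
        · intro n h1 h2
          have h3 := congrFun he ⟨n, by rw [hw3 k hk.1] at h1; exact h1⟩
          simpa [List.getElem?_eq_getElem h1, List.getElem?_eq_getElem h2] using h3
      obtain ⟨i0, _, hu⟩ := hw4 (w k) (hw3 k hk.1)
      rw [hu k ⟨hk.1, rfl⟩, hu k' ⟨hk'.1, hww.symm⟩]
    · intro v hv
      rw [mem_filter] at hv
      obtain ⟨i0, ⟨h3, h4⟩, _⟩ := hw4 (List.ofFn v) (by simp)
      refine ⟨i0, ?_, ?_⟩
      · rw [mem_filter, mem_range, h4]
        exact ⟨h3, hv.2⟩
      · funext i
        rw [h4]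
        simp
  rw [hcard]

end Pool.Agent.H628R4.SP
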