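import Pool.Agent.H628R4.SP.Base
import Pool.Agent.H620R2.Gauge.C
import Pool.Agent.H620R2.Gauge2.Null
import Pool.Agent.H620R2.Gauge.X
import Pool.Agent.H628R4.SP.F_PM
import Pool.Agent.H628R4.SP.F_RUN

set_option autoImplicit false

namespace Pool.Agent.H628R4.SP

open Pool.Agent.NPC Pool.Agent.H620R2.Gauge Finset H568R2 Pool.Agent.H676 Pool.Agent.H628R4.SP

theorem testP_polylog (A : Oracle) : IsPolylog A (testP A) := by
  obtain ⟨Q, hQ, M, d, hM, hacc⟩ := par_machine
  obtain ⟨k, m, M', hM', hacc'⟩ := transport M hM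
  exact ⟨2, k, m, 1, d, M', hM', fun x => ((hacc' A _ _ x).trans (hacc A x)).symm⟩

end Pool.Agent.H628R4.SP
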