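import Pool.Agent.H628R4.SP.BaseT
import Pool.Agent.H620R2.Gauge.C
import Pool.Agent.H620R2.Gauge2.Null
import Pool.Agent.H620R2.Gauge.X
import Pool.Agent.H628R4.SP.F_CHK
import Pool.Agent.H628R4.SP.F_PM
import Pool.Agent.H628R4.SP.F_RUN

namespace Pool.Agent.H628R4.SP

open Pool.Agent.NPC Pool.Agent.H620R2.Gauge Finset H568R2 Pool.Agent.H676 Pool.Agent.H628R4.SP
open Filter (atTop)

theorem testP1_polylog (A : Oracle) : IsPolylog A (testP1 A) := by
  obtain ⟨Q, hQ, M, d, hM, hacc⟩ := par_machine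
  obtain ⟨Q', hQ', M', hM', hacc'⟩ := check (h := 0) M hM
  obtain ⟨k, m, M'', hM'', hacc''⟩ := transport M' hM'
  refine ⟨2, k, m, 1, d, M'', hM'', fun x => ?_⟩
  have h1 : (Nat.log 2 x.length + 1) ^ 2 = side x.length := rfl
  rw [hacc'', hacc', h1, hacc]
  rfl

end Pool.Agent.H628R4.SP
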