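import Pool.Agent.H628R4.SP.Base
import Pool.Agent.H620R2.Gauge.A2

/-! TP (helper596): the first test language is in `P` relative to the oracle -/

namespace Pool.Agent.H628R4.SP

open Pool.Agent.NPC Pool.Agent.H620R2.Gauge Pool.Agent.H622R2

/-- the next action -/
def TP_D (y : List Bool) : List Bool :=
  if (unpair y).2.length ≤ 2 * (unpair y).1.length then false :: y else
    [true, (unpair y).2.getD (2 * (unpair y).1.length) false]

theorem TP_poly : Poly TP_D := by
  have hx : Poly (fun y => (unpair y).1) := Poly.fst poly_unpair
  have hw : Poly (fun y => (unpair y).2) := Poly.snd poly_unpair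
  have h2 : Poly (fun y => 2 * (unpair y).1.length) :=
    Poly.mul (NPC.Poly.const 2) (Poly.length hx)
  exact Poly.ite (Poly.decide_le (Poly.length hw) h2) (Poly.cons (NPC.Poly.const false) Poly.id)
    (Poly.cons (NPC.Poly.const true) (Poly.cons (Poly.getD hw h2 (NPC.Poly.const false))
      (NPC.Poly.const [])))

theorem TP_walk_length (A : Oracle) (x : List Bool) (j : ℕ) : (walk A x j).length = j := by
  induction j with
  | zero => rfl
  | succ j ih => rw [walk, List.length_append, ih]; rfl

theorem TP_D_ask (x a : List Bool) (h : a.length ≤ 2 * x.length) :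
    TP_D (pairBits x a) = false :: pairBits x a := by
  unfold TP_D
  rw [unpair_pairBits]
  exact if_pos h

theorem TP_D_out (x a : List Bool) (h : ¬ a.length ≤ 2 * x.length) :
    TP_D (pairBits x a) = [true, a.getD (2 * x.length) false] := by
  unfold TP_D
  rw [unpair_pairBits]
  exact if_neg h

/-- TP -/
theorem testT_isP (A : Oracle) : IsP A (testT A) := by
  let M : Alg := {
    D := TP_D
    poly := polyTime_of_poly_list TP_poly
    p := 2 * Polynomial.X + 2 }
  refine ⟨fun x => [A (pairBits x (walk A x (2 * x.length)))], ⟨M, fun x => ?_⟩, fun x => ?_⟩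
  · have key : ∀ i j : ℕ, j + i = 2 * x.length + 1 → ∀ m ≥ i + 1,
        M.run A x m (walk A x j) = some [A (pairBits x (walk A x (2 * x.length)))] := by
      intro i
      induction i with
      | zero =>
        intro j hj m hm
        obtain ⟨m, rfl⟩ : ∃ m', m = m' + 1 := ⟨m - 1, by omega⟩
        rw [add_zero] at hj
        have h1 : M.D (pairBits x (walk A x j)) =
            [true, A (pairBits x (walk A x (2 * x.length)))] := by
          change TP_D _ = _
          rw [TP_D_out x _ (by rw [TP_walk_length]; omega), hj, walk,
            List.getD_append_right _ _ _ _ (by rw [TP_walk_length]), TP_walk_length]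
          simp
        rw [Alg.run, h1]
      | succ i ih =>
        intro j hj m hm
        obtain ⟨m, rfl⟩ : ∃ m', m = m' + 1 := ⟨m - 1, by omega⟩
        have h1 : M.D (pairBits x (walk A x j)) = false :: pairBits x (walk A x j) :=
          TP_D_ask x _ (by rw [TP_walk_length]; omega)
        rw [Alg.run, h1]
        exact ih (j + 1) (by omega) m (by omega)
    refine key (2 * x.length + 1) 0 (by omega) _ ?_
    change (2 * Polynomial.X + 2 : Polynomial ℕ).eval x.length ≥ _
    simp only [Polynomial.eval_add, Polynomial.eval_mul, Polynomial.eval_ofNat,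
      Polynomial.eval_X]
    omega
  · show A (pairBits x (walk A x (2 * x.length))) = true ↔ _
    simp

end Pool.Agent.H628R4.SP
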