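import Pool.Agent.H628R4.SP.BaseT
import Pool.Agent.H620R2.Gauge.C
import Pool.Agent.H620R2.Gauge2.Null
import Pool.Agent.H620R2.Gauge.X
import Pool.Agent.H628R4.SP.F_TP
import Pool.Agent.H622R2.CoNP

/-! TPT (helper775): the first tally test language is in `P` relative to the oracle -/

namespace Pool.Agent.H628R4.SP

open Pool.Agent.NPC Pool.Agent.H620R2.Gauge Pool.Agent.H622R2

/-- the next action -/
def TPT_D (D : List Bool → List Bool) (y : List Bool) : List Bool :=
  if (unpair y).1.all (fun b => b) = true then D y else []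

theorem TPT_poly {D : List Bool → List Bool} (hD : PolyTime D) : PolyTime (TPT_D D) := by
  have h1 : Poly (fun y : List Bool => (unpair y).1.all (fun b => b)) :=
    Poly.all (p := fun _ b => b) (Poly.fst poly_unpair) (Poly.snd Poly.id)
  have h2 : Poly (TPT_D D) :=
    Poly.ite (Poly.decide_bool h1) (poly_of_polyTime hD) (NPC.Poly.const [])
  exact polyTime_of_poly_list h2

theorem TPT_D_pos (D : List Bool → List Bool) (x a : List Bool) (hx : ∀ b ∈ x, b = true) :
    TPT_D D (pairBits x a) = D (pairBits x a) := by
  unfold TPT_D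
  rw [unpair_pairBits, if_pos]
  simpa using hx

theorem TPT_D_neg (D : List Bool → List Bool) (x a : List Bool) (hx : ¬ ∀ b ∈ x, b = true) :
    TPT_D D (pairBits x a) = [] := by
  unfold TPT_D
  rw [unpair_pairBits, if_neg]
  simpa using hx

/-- the algorithm which first checks that all letters of the input are `true` -/
def TPT_alg (M : Alg) : Alg where
  D := TPT_D M.D
  poly := TPT_poly M.poly
  p := M.p

theorem TPT_run (M : Alg) (A : Oracle) (x : List Bool) (hx : ∀ b ∈ x, b = true) :
    ∀ (n : ℕ) (a : List Bool), (TPT_alg M).run A x n a = M.run A x n a := by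
  intro n
  induction n with
  | zero => intro a; rfl
  | succ n ih =>
    intro a
    have h1 : (TPT_alg M).D (pairBits x a) = M.D (pairBits x a) := TPT_D_pos M.D x a hx
    simp only [Alg.run, h1]
    split
    · rfl
    · rfl
    · exact ih _

/-- TPT -/
theorem testT1_isP (A : Oracle) : IsP A (testT1 A) := by
  classical
  obtain ⟨V, ⟨M, hM⟩, hV⟩ := testT_isP A
  refine ⟨fun x => if ∀ b ∈ x, b = true then V x else [], ⟨TPT_alg M, fun x => ?_⟩,
    fun x => ?_⟩
  · show (TPT_alg M).out A x = some (if ∀ b ∈ x, b = true then V x else [])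
    by_cases hx : ∀ b ∈ x, b = true
    · have h1 : (TPT_alg M).out A x = M.out A x := TPT_run M A x hx _ _
      rw [h1, hM x, if_pos hx]
    · have h1 := hM x
      unfold Alg.out at h1 ⊢
      have h2 : (TPT_alg M).p = M.p := rfl
      rw [h2, if_neg hx]
      cases hn : M.p.eval x.length with
      | zero =>
        rw [hn] at h1
        simp [Alg.run] at h1
      | succ n =>
        have h3 : (TPT_alg M).D (pairBits x []) = [] := TPT_D_neg M.D x [] hx
        rw [Alg.run, h3]
  · show (∀ b ∈ x, b = true) ∧ x ∈ testT A ↔ _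
    by_cases hx : ∀ b ∈ x, b = true
    · simp only [if_pos hx]
      rw [← hV x]
      exact ⟨fun h => h.2, fun h => ⟨hx, h⟩⟩
    · simp only [if_neg hx]
      constructor
      · intro h; exact absurd h.1 hx
      · intro h; exact absurd h (by simp)

end Pool.Agent.H628R4.SP
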