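import Pool.Agent.H628R4.SP.Final
import Pool.Agent.H628R4.SP.F_P5
import Pool.Agent.H620R2.Gauge2.Trans

/-!
# `P`, `NP` and polylogarithmic space relative to oracles
-/

namespace Pool.Agent.H628R4.SP

open Pool.Agent.NPC Pool.Agent.H620R2.Gauge

theorem keyN (f : ℕ → ℝ) (O : Set Oracle)
    (h1 : ∀ A : Oracle, (∀ L, IsPSPACE A L → IsLogSpace A L) → A ∈ O)
    (h2 : ∀ A ∈ O, (∀ L, IsP A L → IsNPolylog A L) ∨
      (∀ L, IsPolylog A L → WithAdvice (IsNP A) L)) :
    Null f O ↔ ∀ ε : ℝ, 0 < ε → ∃ᶠ N : ℕ in Filter.atTop, f N ≤ 2 ^ (Real.logb 2 N) ^ ε := by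
  constructor
  · intro hn ε hε
    by_contra hcon
    rw [Filter.not_frequently] at hcon
    exact not_nullL f ε hε (hcon.mono fun N h => not_le.1 h) O h1 hn
  · intro hf
    refine (null_union (nullT f hf) (nullNP hf)).mono fun A hA => ?_
    rcases h2 A hA with h | h
    · exact Or.inl (h _ (testT_isP A))
    · exact Or.inr (h _ (testP_polylog A))

end Pool.Agent.H628R4.SP
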