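import Pool.Agent.H628R4.SP.Final
import Pool.Agent.H628R4.SP.F_NNT
import Pool.Agent.H628R4.SP.F_NUT
import Pool.Agent.H628R4.SP.F_TPT
import Pool.Agent.H628R4.SP.F_PLT
import Pool.Agent.H628R4.SP.F_NPT

/-!
# Tally languages in `P` and polylogarithmic space relative to oracles
-/

namespace Pool.Agent.H628R4.SP

open Pool.Agent.NPC Pool.Agent.H620R2.Gauge

theorem tally_testT1 (A : Oracle) : Tally (testT1 A) := fun _ hx => hx.1

theorem tally_testP1 (A : Oracle) : Tally (testP1 A) := fun _ hx => hx.1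

theorem keyT (f : ℕ → ℝ) (O : Set Oracle)
    (h1 : ∀ A : Oracle, (∀ L, Tally L → IsPSPACE A L → ∀ c, InDLogPow A c L) → A ∈ O)
    (h2 : ∀ A ∈ O, (∀ L, Tally L → IsP A L → IsNPolylog A L) ∨
      (∀ L, Tally L → IsPolylog A L → IsP A L)) :
    Null f O ↔ ∀ ε : ℝ, 0 < ε → ∃ᶠ N : ℕ in Filter.atTop, f N ≤ (Real.logb 2 N) ^ ε := by
  constructor
  · intro hn ε hε
    by_contra hcon
    rw [Filter.not_frequently] at hcon
    exact not_nullT f ε hε (hcon.mono fun N h => not_le.1 h) O h1 hn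
  · intro hf
    refine (null_union (nullT1 f hf) (nullP1 f hf)).mono fun A hA => ?_
    rcases h2 A hA with h | h
    · exact Or.inl (h _ (tally_testT1 A) (testT1_isP A))
    · exact Or.inr (h _ (tally_testP1 A) (testP1_polylog A))

end Pool.Agent.H628R4.SP
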