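import Pool.Agent.H628R4.SP.StubsT

/-! Task AST: the choice of the input length and the number of oracle bits (tally sets). -/

namespace Pool.Agent.H628R4.SP

open Filter (atTop)

theorem asyT1_bd (P : Polynomial ℕ) (x : ℕ) (hx : 1 ≤ x) :
    P.eval x ≤ P.eval 1 * x ^ P.natDegree := by
  rw [Polynomial.eval_eq_sum_range, Polynomial.eval_eq_sum_range, Finset.sum_mul]
  apply Finset.sum_le_sum
  intro i hi
  rw [one_pow, mul_one]
  exact Nat.mul_le_mul_left _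
    (Nat.pow_le_pow_right hx (Nat.lt_succ_iff.1 (Finset.mem_range.1 hi)))

theorem asyT1 (Q : Polynomial ℕ) (f : ℕ → ℝ)
    (hf : ∀ ε : ℝ, 0 < ε → ∃ᶠ N : ℕ in atTop, f N ≤ (Real.logb 2 N) ^ ε)
    (δ : ℝ) (hδ : 0 < δ) (n₀ : ℕ) :
    ∃ n N : ℕ, n₀ ≤ n ∧ 2 ^ (Q.eval n) ≤ N ∧ (2 / 2 ^ n : ℝ) * 2 ^ f N ≤ δ := by
  classical
  obtain ⟨P, hP⟩ : ∃ P : Polynomial ℕ, P = Q + Polynomial.X := ⟨_, rfl⟩
  have hPe : ∀ n, P.eval n = Q.eval n + n := by
    intro n
    rw [hP, Polynomial.eval_add, Polynomial.eval_X]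
  obtain ⟨d, hd⟩ : ∃ d : ℕ, d = P.natDegree + 1 := ⟨_, rfl⟩
  have hd0 : (0 : ℝ) < d := by rw [hd]; positivity
  obtain ⟨ε, hε⟩ : ∃ ε : ℝ, ε = 1 / (2 * d) := ⟨_, rfl⟩
  have hε0 : 0 < ε := by rw [hε]; positivity
  obtain ⟨a, ha⟩ : ∃ a : ℝ, a = ((P.eval 1 : ℕ) : ℝ) := ⟨_, rfl⟩
  have ha0 : 0 ≤ a := by rw [ha]; positivity
  obtain ⟨A, hA⟩ : ∃ A : ℝ, A = a ^ ε := ⟨_, rfl⟩
  obtain ⟨n₁, hn₁⟩ := exists_nat_ge (3 + A ^ 2 - 2 * Real.logb 2 δ)
  obtain ⟨N, hN1, hN2⟩ := ((hf ε hε0).and_eventually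
    (Filter.eventually_ge_atTop (2 ^ P.eval (max n₀ n₁)))).exists
  have hself : ∀ m, m < 2 ^ P.eval m := by
    intro m
    calc m < 2 ^ m := Nat.lt_two_pow_self
      _ ≤ 2 ^ P.eval m := Nat.pow_le_pow_right (by norm_num) (by rw [hPe]; omega)
  have hmN : max n₀ n₁ ≤ N := (hself _).le.trans hN2
  obtain ⟨n, hn⟩ : ∃ n, n = Nat.findGreatest (fun n => 2 ^ P.eval n ≤ N) N := ⟨_, rfl⟩
  have hnm : max n₀ n₁ ≤ n := by
    rw [hn]
    exact Nat.le_findGreatest hmN hN2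
  have hpn : 2 ^ P.eval n ≤ N := by
    rw [hn]
    exact Nat.findGreatest_spec (P := fun n => 2 ^ P.eval n ≤ N) hmN hN2
  have hpn1 : N < 2 ^ P.eval (n + 1) := by
    by_cases h : n + 1 ≤ N
    · have := Nat.findGreatest_is_greatest (P := fun n => 2 ^ P.eval n ≤ N) (n := N)
        (k := n + 1) (by rw [← hn]; omega) h
      exact not_le.1 this
    · have := hself (n + 1)
      omega
  refine ⟨n, N, (le_max_left _ _).trans hnm, ?_, ?_⟩
  · refine le_trans (Nat.pow_le_pow_right (by norm_num) ?_) hpn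
    rw [hPe]
    omega
  · have hNpos : (0 : ℝ) < N := by
      have : 0 < N := lt_of_lt_of_le (Nat.pos_of_ne_zero (by positivity)) hpn
      exact_mod_cast this
    have hN1' : (1 : ℝ) ≤ N := by
      have : 1 ≤ N := le_trans Nat.one_le_two_pow hpn
      exact_mod_cast this
    have l1 : Real.logb 2 N ≤ (P.eval (n + 1) : ℕ) := by
      have h2 : (N : ℝ) ≤ 2 ^ (P.eval (n + 1)) := by exact_mod_cast hpn1.le
      have h3 := Real.logb_le_logb_of_le (b := 2) (by norm_num) hNpos h2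
      rwa [Real.logb_pow, Real.logb_self_eq_one (by norm_num), mul_one] at h3
    have l2 : ((P.eval (n + 1) : ℕ) : ℝ) ≤ a * ((n : ℝ) + 1) ^ P.natDegree := by
      rw [ha]
      have := asyT1_bd P (n + 1) (by omega)
      exact_mod_cast this
    have l0 : 0 ≤ Real.logb 2 N := Real.logb_nonneg (by norm_num) hN1'
    have hn1 : (1 : ℝ) ≤ (n : ℝ) + 1 := by
      have : (0 : ℝ) ≤ n := Nat.cast_nonneg n
      linarith
    have l3 : f N ≤ A * Real.sqrt ((n : ℝ) + 1) := by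
      calc f N ≤ (Real.logb 2 N) ^ ε := hN1
        _ ≤ (a * ((n : ℝ) + 1) ^ P.natDegree) ^ ε :=
          Real.rpow_le_rpow l0 (l1.trans l2) hε0.le
        _ = A * (((n : ℝ) + 1) ^ P.natDegree) ^ ε := by
          rw [Real.mul_rpow ha0 (by positivity), hA]
        _ ≤ A * Real.sqrt ((n : ℝ) + 1) := by
          apply mul_le_mul_of_nonneg_left _ (by rw [hA]; positivity)
          rw [← Real.rpow_natCast, ← Real.rpow_mul (by linarith), Real.sqrt_eq_rpow]
          apply Real.rpow_le_rpow_of_exponent_le hn1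
          rw [hε, mul_one_div, div_le_div_iff₀ (by positivity) (by norm_num)]
          rw [hd]
          push_cast
          linarith
    have l4 : A * Real.sqrt ((n : ℝ) + 1) ≤ ((n : ℝ) + 1) / 2 + A ^ 2 / 2 := by
      have h1 := Real.sq_sqrt (show (0 : ℝ) ≤ (n : ℝ) + 1 by linarith)
      nlinarith [sq_nonneg (A - Real.sqrt ((n : ℝ) + 1))]
    have l5 : (2 / 2 ^ n : ℝ) = 2 ^ (1 - (n : ℝ)) := by
      rw [Real.rpow_sub (by norm_num), Real.rpow_one, Real.rpow_natCast]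
    have hnn : (n₁ : ℝ) ≤ n := by
      exact_mod_cast (le_max_right n₀ n₁).trans hnm
    rw [l5, ← Real.rpow_add (by norm_num)]
    calc (2 : ℝ) ^ (1 - (n : ℝ) + f N) ≤ 2 ^ Real.logb 2 δ := by
          apply Real.rpow_le_rpow_of_exponent_le (by norm_num)
          linarith
      _ = δ := Real.rpow_logb (by norm_num) (by norm_num) hδ

end Pool.Agent.H628R4.SP
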