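import Pool.Agent.H628R4.SP.Defs

/-!
# There are countably many machines
-/

namespace Pool.Agent.H628R4.SP

open Pool.Agent.NPC Pool.Agent.H620R2.Gauge

namespace CNT

def mvN : Mv → ℕ
  | .left => 0
  | .stay => 1
  | .right => 2

theorem mvN_inj : Function.Injective mvN := by
  intro a b h
  cases a <;> cases b <;> simp_all [mvN]

theorem countable_mv : Countable Mv := mvN_inj.countable

def cellF (α : Type) : Cell α → Bool ⊕ α
  | .lend => Sum.inl false
  | .rend => Sum.inl true
  | .letter a => Sum.inr a

theorem cellF_inj (α : Type) : Function.Injective (cellF α) := by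
  intro a b h
  cases a <;> cases b <;> simp_all [cellF]

theorem finite_cell (α : Type) [Finite α] : Finite (Cell α) :=
  Finite.of_injective _ (cellF_inj α)

def actF (k m h : ℕ) : Act (Fin k) (Fin m) h →
    Unit ⊕ (Fin k × Fin k) ⊕ (Fin k × (Fin h → Mv) × Option (Fin m) × Mv × Option Bool)
  | .acc => Sum.inl ()
  | .ask q₁ q₀ => Sum.inr (Sum.inl (q₁, q₀))
  | .go q mv g wm o => Sum.inr (Sum.inr (q, mv, g, wm, o))

theorem actF_inj (k m h : ℕ) : Function.Injective (actF k m h) := by
  intro a b hab
  cases a <;> cases b <;> simp_all [actF]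

theorem countable_act (k m h : ℕ) : Countable (Act (Fin k) (Fin m) h) := by
  have := countable_mv
  exact (actF_inj k m h).countable

end CNT

theorem countable_mach (k m h : ℕ) : Countable (Mach (Fin k) (Fin m) h) := by
  have := CNT.countable_act k m h
  have := CNT.finite_cell Bool
  have := CNT.finite_cell (Fin m)
  have hinj : Function.Injective (fun M : Mach (Fin k) (Fin m) h => (M.start, M.blank, M.act)) := by
    intro M M' h
    cases M
    cases M'
    simp only [Prod.mk.injEq] at h
    obtain ⟨h1, h2, h3⟩ := h
    subst h1 h2 h3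
    rfl
  exact hinj.countable

end Pool.Agent.H628R4.SP
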