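import Pool.Agent.H628R4.SP.StubsT

/-!
# Task COT
-/

namespace Pool.Agent.H628R4.SP

open Pool.Agent.NPC Pool.Agent.H620R2.Gauge Finset H568R2 Pool.Agent.H676 Pool.Agent.H628R4.SP
open Filter (atTop)

theorem COT_poly (P : Polynomial ℕ) : ∃ κ : ℕ, ∀ n : ℕ, P.eval n ≤ (n + 2) ^ κ := by
  induction P using Polynomial.induction_on' with
  | add p q hp hq =>
    obtain ⟨a, ha⟩ := hp
    obtain ⟨b, hb⟩ := hq
    refine ⟨max a b + 1, fun n => ?_⟩
    rw [Polynomial.eval_add]
    have h1 : (n + 2) ^ a ≤ (n + 2) ^ max a b := Nat.pow_le_pow_right (by omega) (le_max_left _ _)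
    have h2 : (n + 2) ^ b ≤ (n + 2) ^ max a b := Nat.pow_le_pow_right (by omega) (le_max_right _ _)
    have h3 := ha n
    have h4 := hb n
    rw [pow_succ]
    nlinarith [Nat.zero_le ((n + 2) ^ max a b * n)]
  | monomial k a =>
    refine ⟨a + k, fun n => ?_⟩
    rw [Polynomial.eval_monomial, pow_add]
    apply Nat.mul_le_mul
    · have h1 : a < 2 ^ a := Nat.lt_two_pow_self
      have h2 : 2 ^ a ≤ (n + 2) ^ a := Nat.pow_le_pow_left (by omega) a
      omega
    · exact Nat.pow_le_pow_left (by omega) k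

theorem COT_lin (n e : ℕ) : n + e + 1 ≤ (n + 2) ^ (e + 1) := by
  induction e with
  | zero => simp
  | succ e ih =>
    have h1 : 1 ≤ (n + 2) ^ (e + 1) := Nat.one_le_pow _ _ (by omega)
    rw [pow_succ]
    nlinarith [Nat.zero_le ((n + 2) ^ (e + 1) * n)]

open CC in
theorem exists_codingT (K : ℕ) (P : List Bool → Prop) : ∃ (κ : ℕ → ℕ) (Φ : Oracle → Oracle),
    (∀ e n, (n + e + 1) ^ K ≤ (n + 2) ^ (κ e)) ∧
    (∀ B y, (∀ e x, P x → y ≠ codeL e (κ e) x) → Φ B y = B y) ∧
    ∀ B L, IsPSPACE (Φ B) L → ∃ e, ∀ x, P x → (x ∈ L ↔ Φ B (codeL e (κ e) x) = true) := by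
  obtain ⟨g, hg⟩ := exists_enum
  choose b hb using fun e : ℕ => act_length (g e).1 (g e).2
  choose κ₀ hκ₀ using fun e : ℕ => COT_poly (b e)
  set κ : ℕ → ℕ := fun e => max (κ₀ e) ((e + 1) * K) with hκ
  have hbκ : ∀ e n, (b e).eval n ≤ (n + 2) ^ κ e := fun e n =>
    (hκ₀ e n).trans (Nat.pow_le_pow_right (by omega) (le_max_left _ _))
  set R : ℕ → Polynomial ℕ := fun e => (Polynomial.X + Polynomial.C 2) ^ κ e with hR
  set V : Oracle → ℕ → Oracle → List Bool → Prop := fun B e A x =>
    (P x ∧ Acc (g e).1 (cut ((b e).eval x.length) A) x) ∨ (¬ P x ∧ B (code R e x) = true) with hV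
  have hRe : ∀ e n, (R e).eval n = (n + 2) ^ κ e := by
    intro e n
    rw [hR]
    simp only [Polynomial.eval_pow, Polynomial.eval_add, Polynomial.eval_X, Polynomial.eval_C]
  have hcode : ∀ e x, code R e x = codeL e (κ e) x := by
    intro e x
    unfold code codeL
    rw [hRe]
  have hloc : ∀ B e A A' x, (∀ z : List Bool, z.length < (code R e x).length → A z = A' z) →
      (V B e A x ↔ V B e A' x) := by
    intro B e A A' x h
    have hcut : cut ((b e).eval x.length) A = cut ((b e).eval x.length) A' := by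
      funext z
      unfold cut
      split_ifs with hz
      · apply h
        have h1 := lt_length_code R e x
        have h2 := hRe e x.length
        have h3 := hbκ e x.length
        omega
      · rfl
    simp only [hV, hcut]
  refine ⟨κ, fun B => Phi R (V B) B, ?_, ?_, ?_⟩
  · intro e n
    calc (n + e + 1) ^ K ≤ ((n + 2) ^ (e + 1)) ^ K := Nat.pow_le_pow_left (COT_lin n e) K
      _ = (n + 2) ^ ((e + 1) * K) := by rw [← pow_mul]
      _ ≤ (n + 2) ^ κ e := Nat.pow_le_pow_right (by omega) (le_max_right _ _)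
  · intro B y hy
    by_cases hex : ∃ e x, y = code R e x
    · obtain ⟨e, x, rfl⟩ := hex
      have hP : ¬ P x := fun hP => hy e x hP (hcode e x)
      have h1 := Phi_code R (V B) B (hloc B) e x
      have h2 : V B e (Phi R (V B) B) x ↔ B (code R e x) = true := by
        simp only [hV]
        constructor
        · rintro (⟨h, -⟩ | ⟨-, h⟩)
          · exact absurd h hP
          · exact h
        · exact fun h => Or.inr ⟨hP, h⟩
      have h3 : Phi R (V B) B (code R e x) = true ↔ B (code R e x) = true := by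
        rw [h1]; exact h2
      exact Bool.eq_iff_iff.mpr h3
    · exact Phi_not R (V B) B y (fun e x h => hex ⟨e, x, h⟩)
  · rintro B L ⟨M, p, hM⟩
    obtain ⟨e, he⟩ := hg (M, p)
    refine ⟨e, fun x hPx => ?_⟩
    rw [← hcode]
    change x ∈ L ↔ Phi R (V B) B (code R e x) = true
    rw [Phi_code R (V B) B (hloc B) e x]
    have hVx : V B e (Phi R (V B) B) x ↔
        Acc (g e).1 (cut ((b e).eval x.length) (Phi R (V B) B)) x := by
      simp only [hV]
      constructor
      · rintro (⟨-, h⟩ | ⟨h, -⟩)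
        · exact h
        · exact absurd hPx h
      · exact fun h => Or.inl ⟨hPx, h⟩
    rw [hVx]
    have hbe := hb e
    rw [he] at hbe ⊢
    obtain ⟨hM1, s, z, hs, hz, hL⟩ := hM x
    have hcong : ∀ s, M.Reach (cut ((b e).eval x.length) (Phi R (V B) B)) x s ↔
        M.Reach (Phi R (V B) B) x s := by
      refine reach_congr (fun s => s.length ≤ p.eval x.length) hM1 ?_
      intro s q h1 h2
      have h3 := hbe x s h1
      rw [h2, List.length_cons] at h3
      unfold cut
      rw [if_pos (by omega)]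
    constructor
    · intro hx
      refine ⟨s, (hcong s).2 hs, ?_⟩
      rw [hz, hL.1 hx]
    · rintro ⟨t, ht, ht2⟩
      have hst := reach_unique hs ((hcong t).1 ht) ⟨_, hz⟩ ⟨_, ht2⟩
      rw [hst, ht2] at hz
      simp only [List.cons.injEq, true_and] at hz
      exact hL.2 hz.symm

end Pool.Agent.H628R4.SP
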