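import Pool.Agent.H628R4.SP.Stubs

set_option autoImplicit false

namespace Pool.Agent.H628R4.SP

open Pool.Agent.NPC Pool.Agent.H620R2.Gauge Finset H568R2 Pool.Agent.H676 Pool.Agent.H628R4.SP

private theorem incr_digits : ∀ (s i : ℕ),
    (i + 1 < 2 ^ s → Stub.incr (List.ofFn (fun j : Fin s => i.testBit j)) =
      some (List.ofFn (fun j : Fin s => (i + 1).testBit j))) ∧
    (i + 1 = 2 ^ s → Stub.incr (List.ofFn (fun j : Fin s => i.testBit j)) = none) := by
  intro s
  induction s with
  | zero =>
    intro i
    refine ⟨fun h => ?_, fun _ => by simp [Stub.incr]⟩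
    simp at h
  | succ s ih =>
    intro i
    obtain ⟨h1, h2⟩ := ih (i / 2)
    have hof : ∀ m : ℕ, List.ofFn (fun j : Fin (s + 1) => m.testBit j) =
        decide (m % 2 = 1) :: List.ofFn (fun j : Fin s => (m / 2).testBit j) := by
      intro m
      rw [List.ofFn_succ]
      congr 1
      · simp [Nat.testBit_zero]
      · congr 1
        funext j
        simp [Nat.testBit_succ]
    rcases Nat.mod_two_eq_zero_or_one i with hi | hi
    · have e1 : (i + 1) / 2 = i / 2 := by omega
      have e2 : (i + 1) % 2 = 1 := by omega
      rw [hof i, hof (i + 1), e1, e2, hi]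
      refine ⟨fun _ => by simp [Stub.incr], fun h => ?_⟩
      rw [pow_succ] at h
      omega
    · have e1 : (i + 1) / 2 = i / 2 + 1 := by omega
      have e2 : (i + 1) % 2 = 0 := by omega
      rw [hof i, hof (i + 1), e1, e2, hi]
      rw [pow_succ]
      constructor
      · intro h
        have := h1 (by omega)
        simp [Stub.incr, this]
      · intro h
        have := h2 (by omega)
        simp [Stub.incr, this]

theorem counter (s : ℕ) : ∃ w : ℕ → List Bool, w 0 = List.replicate s false ∧
    (∀ i, i + 1 < 2 ^ s → Stub.incr (w i) = some (w (i + 1))) ∧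
    Stub.incr (w (2 ^ s - 1)) = none ∧
    (∀ i, i < 2 ^ s → (w i).length = s) ∧
    ∀ y : List Bool, y.length = s → ∃! i, i < 2 ^ s ∧ w i = y := by
  refine ⟨fun i => List.ofFn (fun j : Fin s => i.testBit j), ?_, ?_, ?_, ?_, ?_⟩
  · simp
  · intro i hi
    exact (incr_digits s i).1 hi
  · exact (incr_digits s (2 ^ s - 1)).2 (Nat.sub_add_cancel Nat.one_le_two_pow)
  · intro i _
    simp
  · intro y hy
    have hinj : ∀ i j : ℕ, i < 2 ^ s → j < 2 ^ s →
        List.ofFn (fun t : Fin s => i.testBit t) = List.ofFn (fun t : Fin s => j.testBit t) →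
        i = j := by
      intro i j hi hj hij
      have h1 := List.ofFn_injective hij
      apply Nat.eq_of_testBit_eq
      intro t
      by_cases ht : t < s
      · exact congrFun h1 ⟨t, ht⟩
      · rw [Nat.testBit_eq_false_of_lt (hi.trans_le (Nat.pow_le_pow_right (by norm_num)
          (by omega))), Nat.testBit_eq_false_of_lt (hj.trans_le
          (Nat.pow_le_pow_right (by norm_num) (by omega)))]
    -- surjectivity by counting
    let F : Fin (2 ^ s) → (Fin s → Bool) := fun i t => (i : ℕ).testBit t
    have hF : Function.Injective F := by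
      intro i j hij
      exact Fin.ext (hinj i j i.2 j.2 (by
        change F i = F j at hij
        simp only [F] at hij
        rw [hij]))
    have hFb : Function.Bijective F :=
      (Fintype.bijective_iff_injective_and_card F).mpr ⟨hF, by simp⟩
    subst hy
    obtain ⟨i, hi⟩ := hFb.2 (fun t => y.get t)
    refine ⟨i, ⟨i.2, ?_⟩, ?_⟩
    · change List.ofFn (F i) = y
      rw [hi]
      exact List.ofFn_get y
    · rintro j ⟨hj, hjy⟩
      apply hinj j i hj i.2
      refine hjy.trans ?_
      change y = List.ofFn (F i)
      rw [hi]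
      exact (List.ofFn_get y).symm

end Pool.Agent.H628R4.SP
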