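import Pool.Agent.H628R4.SP.Stubs

/-!
# The walk has few oracles (helper205)
-/

namespace Pool.Agent.H628R4.SP

open Pool.Agent.NPC Pool.Agent.H620R2.Gauge Finset H568R2 Pool.Agent.H676
open Filter (atTop)

theorem length_walk (A : Oracle) (x : List Bool) (j : ℕ) : (walk A x j).length = j := by
  induction j with
  | zero => rfl
  | succ j ih => rw [walk, List.length_append, ih]; rfl

theorem walk_take (A : Oracle) (x : List Bool) (j k : ℕ) (hjk : j ≤ k) :
    (walk A x k).take j = walk A x j := by
  induction k with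
  | zero =>
    have : j = 0 := by omega
    subst this
    rfl
  | succ k ih =>
    rcases Nat.lt_or_ge k j with h | h
    · have : j = k + 1 := by omega
      subst this
      exact List.take_of_length_le (by rw [length_walk])
    · rw [walk, List.take_append_of_le_length (by rw [length_walk]; exact h), ih h]

theorem walk_getElem (A : Oracle) (x : List Bool) (j k : ℕ) (hjk : j < k)
    (h : j < (walk A x k).length) : (walk A x k)[j] = A (pairBits x ((walk A x k).take j)) := by
  rw [walk_take A x j k hjk.le]
  have h1 : (walk A x k)[j] = ((walk A x k).take (j + 1))[j]'(by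
      rw [List.length_take]; omega) := by
    rw [List.getElem_take]
  rw [h1]
  simp only [walk_take A x (j + 1) k hjk]
  simp only [walk]
  rw [List.getElem_append_right (by rw [length_walk])]
  simp [length_walk]

theorem card_fixed {ι : Type*} [Fintype ι] (N : ℕ) (p : ι → Fin N) (hp : Function.Injective p)
    (c : ι → Bool) :
    (univ.filter (fun v : Fin N → Bool => ∀ i, v (p i) = c i)).card * 2 ^ Fintype.card ι ≤ 2 ^ N := by
  classical
  have h1 : (2 : ℕ) ^ Fintype.card ι = (univ : Finset (ι → Bool)).card := by simp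
  have h2 : (2 : ℕ) ^ N = (univ : Finset (Fin N → Bool)).card := by simp
  rw [h1, h2, ← Finset.card_product]
  refine Finset.card_le_card_of_injOn
    (fun vw j => if h : ∃ i, p i = j then vw.2 h.choose else vw.1 j) (fun _ _ => Finset.mem_coe.mpr (mem_univ _)) ?_
  rintro ⟨v, w⟩ hv ⟨v', w'⟩ hv' heq
  rw [Finset.mem_coe, Finset.mem_product, Finset.mem_filter] at hv hv'
  have h3 : ∀ i, (if h : ∃ i', p i' = p i then w h.choose else v (p i)) = w i := by
    intro i
    have h : ∃ i', p i' = p i := ⟨i, rfl⟩
    rw [dif_pos h, hp h.choose_spec]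
  have h3' : ∀ i, (if h : ∃ i', p i' = p i then w' h.choose else v' (p i)) = w' i := by
    intro i
    have h : ∃ i', p i' = p i := ⟨i, rfl⟩
    rw [dif_pos h, hp h.choose_spec]
  have hw : w = w' := by
    funext i
    have h4 := congrFun heq (p i)
    simp only at h4
    rw [h3, h3'] at h4
    exact h4
  have hvv : v = v' := by
    funext j
    by_cases h : ∃ i, p i = j
    · obtain ⟨i, rfl⟩ := h
      exact (hv.1.2 i).trans (hv'.1.2 i).symm
    · have h4 := congrFun heq j
      simp only [dif_neg h] at h4
      exact h4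
  rw [hw, hvv]

theorem walk_fix (n N : ℕ) (hN : 2 ^ (4 * n + 2) ≤ N) (S : Finset (List Bool)) (hS : S ⊆ strs n)
    (a : List Bool → List Bool) :
    (univ.filter (fun v : Fin N → Bool =>
      ∀ x ∈ S, walk (orc N v) x (2 * n) = a x)).card * 2 ^ (2 * n * S.card) ≤ 2 ^ N := by
  classical
  by_cases hlen : ∀ x ∈ S, (a x).length = 2 * n
  · have hlx : ∀ x ∈ S, x.length = n := by
      intro x hx
      have h1 := hS hx
      rw [strs, Finset.mem_image] at h1
      obtain ⟨g, _, rfl⟩ := h1
      simp
    have hlt : ∀ i : S × Fin (2 * n), idx (pairBits i.1.1 ((a i.1.1).take i.2)) < N := by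
      intro i
      have h1 := idx_lt (pairBits i.1.1 ((a i.1.1).take i.2))
      rw [length_pairBits, hlx _ i.1.2, List.length_take] at h1
      have h2 : 2 * n + 1 + min (i.2 : ℕ) (a i.1.1).length + 1 ≤ 4 * n + 2 := by
        have := i.2.2
        omega
      have h3 : 2 ^ (2 * n + 1 + min (i.2 : ℕ) (a i.1.1).length + 1) ≤ 2 ^ (4 * n + 2) :=
        Nat.pow_le_pow_right (by norm_num) h2
      omega
    have hinj : Function.Injective (fun i : S × Fin (2 * n) =>
        (⟨idx (pairBits i.1.1 ((a i.1.1).take i.2)), hlt i⟩ : Fin N)) := by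
      rintro ⟨⟨x, hx⟩, j⟩ ⟨⟨x', hx'⟩, j'⟩ h
      rw [Fin.mk.injEq] at h
      have h1 := congrArg str h
      rw [str_idx, str_idx] at h1
      have h2 := congrArg unpair h1
      rw [unpair_pairBits, unpair_pairBits, Prod.mk.injEq] at h2
      obtain ⟨h3, h4⟩ := h2
      simp only at h3
      subst h3
      have h5 := congrArg List.length h4
      rw [List.length_take, List.length_take] at h5
      simp only [hlen _ hx] at h5
      have h6 := j.2
      have h7 := j'.2
      have h8 : (j : ℕ) = j' := by omega
      rw [Fin.ext h8]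
    have h1 := card_fixed N _ hinj (fun i => (a i.1.1)[(i.2 : ℕ)]'(by
      rw [hlen _ i.1.2]; exact i.2.2))
    have h2 : Fintype.card (S × Fin (2 * n)) = 2 * n * S.card := by
      rw [Fintype.card_prod, Fintype.card_coe, Fintype.card_fin, mul_comm]
    rw [h2] at h1
    refine le_trans (Nat.mul_le_mul_right _ (Finset.card_le_card ?_)) h1
    intro v hv
    rw [Finset.mem_filter] at hv ⊢
    refine ⟨mem_univ _, ?_⟩
    rintro ⟨⟨x, hx⟩, j⟩
    have h3 := hv.2 x hx
    have h4 := walk_getElem (orc N v) x j (2 * n) j.2 (by rw [length_walk]; exact j.2)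
    simp only [h3] at h4
    rw [h4]
    unfold orc
    rw [dif_pos (hlt ⟨⟨x, hx⟩, j⟩)]
  · push Not at hlen
    obtain ⟨x, hx, hx2⟩ := hlen
    have h1 : (univ.filter (fun v : Fin N → Bool =>
      ∀ x ∈ S, walk (orc N v) x (2 * n) = a x)) = ∅ := by
      rw [Finset.filter_eq_empty_iff]
      intro v _ h
      apply hx2
      rw [← h x hx, length_walk]
    rw [h1]
    simp

end Pool.Agent.H628R4.SP
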