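import Pool.Agent.H628R4.SP.Stubs

/-! D1 (helper596): the walk rarely ends in a small set for half of the inputs -/

namespace Pool.Agent.H628R4.SP

open Pool.Agent.NPC Pool.Agent.H620R2.Gauge Finset H568R2 Pool.Agent.H676

theorem D1_card_strs (n : ℕ) : (strs n).card ≤ 2 ^ n := by
  unfold strs
  refine card_image_le.trans ?_
  rw [card_univ, Fintype.card_fun, Fintype.card_bool, Fintype.card_fin]

/-- the end points given by a function with values in `W` -/
def D1_ext {S : Finset (List Bool)} (f : S → List Bool) (x : List Bool) : List Bool :=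
  if h : x ∈ S then (unpair (f ⟨x, h⟩)).2 else []

theorem D1_arith (T M w B n N : ℕ) (hM : 4 * M = 2 * B)
    (hT : T * 2 ^ (2 * n * M) ≤ 2 ^ B * (w ^ M * 2 ^ N)) (hw : 16 * w ≤ 2 ^ (2 * n)) :
    T * 2 ^ B ≤ 2 ^ N := by
  have h1 : (16 * w) ^ M ≤ 2 ^ (2 * n * M) := by
    rw [pow_mul]
    exact Nat.pow_le_pow_left hw M
  have h2 : (16 : ℕ) ^ M = 2 ^ B * 2 ^ B := by
    have : (16 : ℕ) = 2 ^ 4 := by norm_num
    rw [this, ← pow_mul, hM, two_mul, pow_add]
  rw [mul_pow, h2] at h1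
  have h3 : T * 2 ^ B * (2 ^ B * 2 ^ (2 * n * M)) ≤ 2 ^ N * (2 ^ B * 2 ^ (2 * n * M)) := by
    calc T * 2 ^ B * (2 ^ B * 2 ^ (2 * n * M)) = T * 2 ^ (2 * n * M) * (2 ^ B * 2 ^ B) := by ring
      _ ≤ 2 ^ B * (w ^ M * 2 ^ N) * (2 ^ B * 2 ^ B) := Nat.mul_le_mul_right _ hT
      _ = 2 ^ N * 2 ^ B * (2 ^ B * 2 ^ B * w ^ M) := by ring
      _ ≤ 2 ^ N * 2 ^ B * 2 ^ (2 * n * M) := Nat.mul_le_mul_left _ h1
      _ = 2 ^ N * (2 ^ B * 2 ^ (2 * n * M)) := by ring
  exact Nat.le_of_mul_le_mul_right h3 (by positivity)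

/-- D1 -/
theorem many_bad (n N : ℕ) (hn : 1 ≤ n) (hN : 2 ^ (4 * n + 2) ≤ N) (W : Finset (List Bool))
    (hW : 16 * W.card ≤ 2 ^ (2 * n)) :
    (univ.filter (fun v : Fin N → Bool =>
      2 ^ (n - 1) ≤ (bad n W (orc N v)).card)).card * 2 ^ 2 ^ n ≤ 2 ^ N := by
  classical
  refine D1_arith _ (2 ^ (n - 1)) W.card (2 ^ n) n N ?_ ?_ hW
  · obtain ⟨m, rfl⟩ : ∃ m, n = m + 1 := ⟨n - 1, by omega⟩
    rw [Nat.add_sub_cancel, pow_succ]
    ring
  · have hsub : (univ.filter (fun v : Fin N → Bool =>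
        2 ^ (n - 1) ≤ (bad n W (orc N v)).card)) ⊆
        (powersetCard (2 ^ (n - 1)) (strs n)).biUnion fun S =>
          (Fintype.piFinset (fun _ : S => W)).biUnion fun f =>
            univ.filter (fun v : Fin N → Bool =>
              ∀ x ∈ S, walk (orc N v) x (2 * n) = D1_ext f x) := by
      intro v hv
      have hv' := (mem_filter.1 hv).2
      obtain ⟨S, hS, hSc⟩ := Finset.exists_subset_card_eq hv'
      rw [mem_biUnion]
      refine ⟨S, mem_powersetCard.2 ⟨fun x hx => (mem_filter.1 (hS hx)).1, hSc⟩, ?_⟩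
      rw [mem_biUnion]
      refine ⟨fun x => pairBits x.1 (walk (orc N v) x.1 (2 * n)),
        Fintype.mem_piFinset.2 fun x => (mem_filter.1 (hS x.2)).2, ?_⟩
      refine mem_filter.2 ⟨mem_univ _, fun x hx => ?_⟩
      unfold D1_ext
      rw [dif_pos hx, unpair_pairBits]
    have hS : ∀ S ∈ powersetCard (2 ^ (n - 1)) (strs n),
        ((Fintype.piFinset (fun _ : S => W)).biUnion fun f =>
            univ.filter (fun v : Fin N → Bool =>
              ∀ x ∈ S, walk (orc N v) x (2 * n) = D1_ext f x)).card * 2 ^ (2 * n * 2 ^ (n - 1)) ≤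
          W.card ^ (2 ^ (n - 1)) * 2 ^ N := by
      intro S hS
      obtain ⟨hS1, hS2⟩ := mem_powersetCard.1 hS
      refine (Nat.mul_le_mul_right _ card_biUnion_le).trans ?_
      rw [Finset.sum_mul]
      have h2 : ∀ f ∈ Fintype.piFinset (fun _ : S => W),
          (univ.filter (fun v : Fin N → Bool =>
            ∀ x ∈ S, walk (orc N v) x (2 * n) = D1_ext f x)).card * 2 ^ (2 * n * 2 ^ (n - 1)) ≤
          2 ^ N := by
        intro f _
        have h3 := Stub.walk_fix n N hN S hS1 (D1_ext f)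
        rw [hS2] at h3
        exact h3
      refine (Finset.sum_le_card_nsmul _ _ _ h2).trans ?_
      have h4 : (Fintype.piFinset (fun _ : S => W)).card = W.card ^ 2 ^ (n - 1) := by
        rw [Fintype.card_piFinset, Finset.prod_const, card_univ, Fintype.card_coe, hS2]
      rw [smul_eq_mul, h4]
    refine (Nat.mul_le_mul_right _ (card_le_card hsub)).trans ?_
    refine (Nat.mul_le_mul_right _ card_biUnion_le).trans ?_
    rw [Finset.sum_mul]
    refine (Finset.sum_le_card_nsmul _ _ _ hS).trans ?_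
    rw [smul_eq_mul]
    refine Nat.mul_le_mul_right _ ?_
    rw [card_powersetCard]
    refine (Nat.choose_le_two_pow _ _).trans ?_
    exact Nat.pow_le_pow_right (by norm_num) (D1_card_strs n)

end Pool.Agent.H628R4.SP
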