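import Pool.Agent.H628R4.SP.Stubs
import Pool.Agent.H620R2.Gauge.Cover

/-! Task D3: the probability that a machine with few possible queries is correct. -/

namespace Pool.Agent.H628R4.SP

open Pool.Agent.NPC Pool.Agent.H620R2.Gauge Finset H568R2 Pool.Agent.H676
open Filter (atTop)

theorem D3_card_strs (n : ℕ) : (strs n).card = 2 ^ n := by
  unfold strs
  rw [card_image_of_injective _ List.ofFn_injective]
  simp

open Classical in
theorem testT_bound (n N : ℕ) (hn : 1 ≤ n) (hN : 2 ^ (4 * n + 2) ≤ N) (W : Finset (List Bool))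
    (hW : 16 * W.card ≤ 2 ^ (2 * n)) (G : List Bool → (Fin N → Bool) → Bool)
    (hG : ∀ x v v', (∀ y ∈ W, orc N v y = orc N v' y) → G x v = G x v') :
    Ex unif (fun v : Fin N → Bool =>
      if ∀ x ∈ strs n, (x ∈ testT (orc N v) ↔ G x v = true) then (1 : ℝ) else 0)
      ≤ 2 / 2 ^ 2 ^ (n - 1) := by
  have h1 := Stub.many_bad n N hn hN W hW
  have h2 := Stub.few_good n N hN W G hG
  set E1 : Finset (Fin N → Bool) :=
    univ.filter (fun v : Fin N → Bool => 2 ^ (n - 1) ≤ (bad n W (orc N v)).card) with hE1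
  set E2 : Finset (Fin N → Bool) := univ.filter (fun v : Fin N → Bool =>
      (∀ x ∈ strs n, (x ∈ testT (orc N v) ↔ G x v = true)) ∧
      2 ^ (n - 1) ≤ (good n W (orc N v)).card) with hE2
  set E : Finset (Fin N → Bool) := univ.filter (fun v : Fin N → Bool =>
      ∀ x ∈ strs n, (x ∈ testT (orc N v) ↔ G x v = true)) with hE
  have h0 : Ex unif (fun v : Fin N → Bool =>
      if ∀ x ∈ strs n, (x ∈ testT (orc N v) ↔ G x v = true) then (1 : ℝ) else 0) =
      (E.card : ℝ) * 2 ^ (-(N : ℝ)) := by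
    rw [hE]
    convert (card_of_Ex (fun v : Fin N → Bool =>
      ∀ x ∈ strs n, (x ∈ testT (orc N v) ↔ G x v = true))).symm
  rw [h0]
  have hsub : E ⊆ E1 ∪ E2 := by
    intro v hv
    rw [hE, mem_filter] at hv
    rw [mem_union, hE1, hE2, mem_filter, mem_filter]
    by_cases hg : 2 ^ (n - 1) ≤ (good n W (orc N v)).card
    · right; exact ⟨mem_univ _, hv.2, hg⟩
    · left
      refine ⟨mem_univ _, ?_⟩
      have h3 : (bad n W (orc N v)).card + (good n W (orc N v)).card = 2 ^ n := by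
        rw [← D3_card_strs n]
        exact card_filter_add_card_filter_not _
      have h4 : 2 ^ n = 2 ^ (n - 1) + 2 ^ (n - 1) := by
        obtain ⟨m, rfl⟩ := Nat.exists_eq_add_of_le hn
        rw [Nat.add_sub_cancel_left, pow_add]; ring
      omega
  have hc : (E.card : ℝ) ≤ E1.card + E2.card := by
    exact_mod_cast (card_le_card hsub).trans (card_union_le _ _)
  have hp : (0 : ℝ) < 2 ^ 2 ^ (n - 1) := by positivity
  have hNN : (2 : ℝ) ^ (-(N : ℝ)) = 1 / 2 ^ N := by
    rw [Real.rpow_neg (by norm_num), Real.rpow_natCast, one_div]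
  have h1' : (E1.card : ℝ) * 2 ^ 2 ^ (n - 1) ≤ 2 ^ N := by
    have h5 : E1.card * 2 ^ 2 ^ (n - 1) ≤ 2 ^ N := by
      refine le_trans (Nat.mul_le_mul_left _ ?_) h1
      exact Nat.pow_le_pow_right (by norm_num) (Nat.pow_le_pow_right (by norm_num) (by omega))
    exact_mod_cast h5
  have h2' : (E2.card : ℝ) * 2 ^ 2 ^ (n - 1) ≤ 2 ^ N := by exact_mod_cast h2
  rw [hNN, mul_one_div, div_le_div_iff₀ (by positivity) hp]
  nlinarith

end Pool.Agent.H628R4.SP
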