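import Pool.Agent.H628R4.SP.StubsT
import Pool.Agent.H620R2.Gauge.S
import Pool.Agent.H620R2.Gauge.A1

/-!
# Task G0 (helper368): oracles with prescribed walks
-/

namespace Pool.Agent.H628R4.SP

open Pool.Agent.NPC Pool.Agent.H620R2.Gauge Finset H568R2 Pool.Agent.H676
open Filter (atTop)

theorem G0_pair_inj : ∀ (x x' w w' : List Bool), pairBits x w = pairBits x' w' → x = x' ∧ w = w' := by
  intro x
  induction x with
  | nil =>
    intro x' w w' h
    cases x' with
    | nil =>
      simp only [pairBits, List.flatMap_nil, List.nil_append, List.cons.injEq, true_and] at h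
      exact ⟨rfl, h⟩
    | cons b x' => simp [pairBits] at h
  | cons b x ih =>
    intro x' w w' h
    cases x' with
    | nil => simp [pairBits] at h
    | cons b' x' =>
      have h1 : b = b' ∧ pairBits x w = pairBits x' w' := by
        simp only [pairBits, List.flatMap_cons, List.cons_append, List.nil_append,
          List.cons.injEq, true_and] at h
        exact h
      obtain ⟨h2, h3⟩ := ih x' w w' h1.2
      exact ⟨by rw [h1.1, h2], h3⟩

theorem G0_length_walk (A : Oracle) (x : List Bool) (j : ℕ) : (walk A x j).length = j := by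
  induction j with
  | zero => rfl
  | succ j ih => simp only [walk, List.length_append, ih, List.length_cons, List.length_nil]

theorem G0_walk_take (A : Oracle) (x : List Bool) {j m : ℕ} (h : j ≤ m) :
    walk A x j = (walk A x m).take j := by
  induction m with
  | zero =>
    obtain rfl : j = 0 := by omega
    rfl
  | succ m ih =>
    rcases Nat.lt_or_ge m j with h1 | h1
    · obtain rfl : j = m + 1 := by omega
      rw [List.take_of_length_le (by rw [G0_length_walk])]
    · rw [walk, List.take_append_of_le_length (by rw [G0_length_walk]; exact h1)]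
      exact ih h1

theorem G0_walk_bit (A : Oracle) (x l : List Bool) {j m : ℕ} (hj : j < m)
    (h : walk A x m = l) : A (pairBits x (l.take j)) = l.getD j false := by
  subst h
  rw [← G0_walk_take A x hj.le]
  have h1 := G0_walk_take A x (Nat.succ_le_of_lt hj)
  have h2 : (walk A x (j + 1)).getD j false = A (pairBits x (walk A x j)) := by
    have e : walk A x (j + 1) = walk A x j ++ [A (pairBits x (walk A x j))] := rfl
    rw [e, List.getD_eq_getElem?_getD, List.getElem?_append_right (by rw [G0_length_walk])]
    simp [G0_length_walk]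
  rw [← h2, h1, List.getD_eq_getElem?_getD, List.getD_eq_getElem?_getD, List.getElem?_take,
    if_pos (Nat.lt_succ_self j)]

theorem G0_count {N : ℕ} (J : Finset (Fin N)) (F : Finset (Fin N → Bool))
    (h : ∀ v ∈ F, ∀ v' ∈ F, ∀ i ∈ J, v i = v' i) : F.card * 2 ^ J.card ≤ 2 ^ N := by
  have hJ : J.card ≤ N := by
    have := card_le_univ J
    rwa [Fintype.card_fin] at this
  have hcard : Fintype.card ({i : Fin N // i ∉ J} → Bool) = 2 ^ (N - J.card) := by
    rw [Fintype.card_fun, Fintype.card_bool]
    congr 1
    rw [Fintype.card_subtype_compl, Fintype.card_fin, Fintype.card_coe]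
  have h1 : F.card ≤ 2 ^ (N - J.card) := by
    rw [← hcard, ← card_univ]
    refine card_le_card_of_injOn (fun v i => v i.1) (fun _ _ => mem_coe.2 (mem_univ _)) ?_
    intro v hv v' hv' hvv
    funext i
    by_cases hi : i ∈ J
    · exact h v (mem_coe.1 hv) v' (mem_coe.1 hv') i hi
    · exact congrFun hvv ⟨i, hi⟩
  calc F.card * 2 ^ J.card ≤ 2 ^ (N - J.card) * 2 ^ J.card := Nat.mul_le_mul_right _ h1
    _ = 2 ^ N := by rw [← pow_add, Nat.sub_add_cancel hJ]

-- G0
theorem walk_fixG (b N : ℕ) (hN : 2 ^ (4 * b + 2) ≤ N) (S : Finset (List Bool))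
    (hS : ∀ x ∈ S, x.length ≤ b) (a : List Bool → List Bool) :
    (univ.filter (fun v : Fin N → Bool =>
      ∀ x ∈ S, walk (orc N v) x (2 * x.length) = a x)).card * 2 ^ (∑ x ∈ S, 2 * x.length)
      ≤ 2 ^ N := by
  by_cases hlen : ∀ x ∈ S, (a x).length = 2 * x.length
  · have hidx : ∀ x ∈ S, ∀ j < 2 * x.length, idx (pairBits x ((a x).take j)) < N := by
      intro x hx j hj
      have h1 := idx_lt (pairBits x ((a x).take j))
      have h2 : (pairBits x ((a x).take j)).length + 1 ≤ 4 * b + 2 := by
        rw [Pool.Agent.H620R2.Gauge.length_pairBits, List.length_take, hlen x hx]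
        have := hS x hx
        omega
      have h3 : 2 ^ ((pairBits x ((a x).take j)).length + 1) ≤ 2 ^ (4 * b + 2) :=
        Nat.pow_le_pow_right (by norm_num) h2
      omega
    have hinj : ∀ x ∈ S, ∀ x' ∈ S, ∀ j < 2 * x.length, ∀ j' < 2 * x'.length,
        idx (pairBits x ((a x).take j)) = idx (pairBits x' ((a x').take j')) →
        x = x' ∧ j = j' := by
      intro x hx x' hx' j hj j' hj' h
      have h1 : pairBits x ((a x).take j) = pairBits x' ((a x').take j') := by
        rw [← str_idx (pairBits x ((a x).take j)), h, str_idx]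
      obtain ⟨h2, h3⟩ := G0_pair_inj _ _ _ _ h1
      subst h2
      refine ⟨rfl, ?_⟩
      have h4 := congrArg List.length h3
      rw [List.length_take, List.length_take, hlen x hx] at h4
      omega
    obtain ⟨I, hI⟩ : ∃ I : Finset (Σ _ : List Bool, ℕ), I = S.sigma (fun x => range (2 * x.length)) :=
      ⟨_, rfl⟩
    have hmem : ∀ q ∈ I, q.1 ∈ S ∧ q.2 < 2 * q.1.length := by
      intro q hq
      rw [hI, mem_sigma, mem_range] at hq
      exact hq
    obtain ⟨J, hJ⟩ : ∃ J : Finset (Fin N), J = univ.filter (fun i => ∃ q ∈ I,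
      idx (pairBits q.1 ((a q.1).take q.2)) = i.1) := by
      classical
      exact ⟨univ.filter (fun i => ∃ q ∈ I, idx (pairBits q.1 ((a q.1).take q.2)) = i.1), by
        congr⟩
    have hc : J.card = ∑ x ∈ S, 2 * x.length := by
      have h1 : I.card = ∑ x ∈ S, 2 * x.length := by
        rw [hI, card_sigma]
        exact sum_congr rfl fun x _ => card_range _
      rw [← h1]
      symm
      refine card_bij (fun q hq => ⟨idx (pairBits q.1 ((a q.1).take q.2)),
        hidx q.1 (hmem q hq).1 q.2 (hmem q hq).2⟩) ?_ ?_ ?_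
      · intro q hq
        rw [hJ, mem_filter]
        exact ⟨mem_univ _, q, hq, rfl⟩
      · intro q hq q' hq' h
        obtain ⟨h2, h3⟩ := hinj q.1 (hmem q hq).1 q'.1 (hmem q' hq').1 q.2 (hmem q hq).2
          q'.2 (hmem q' hq').2 (congrArg Fin.val h)
        obtain ⟨x, j⟩ := q
        obtain ⟨x', j'⟩ := q'
        simp only at h2 h3
        subst h2 h3
        rfl
      · intro i hi
        rw [hJ, mem_filter] at hi
        obtain ⟨-, q, hq, h⟩ := hi
        exact ⟨q, hq, Fin.ext h⟩
    rw [← hc]
    apply G0_count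
    intro v hv v' hv' i hi
    rw [hJ, mem_filter] at hi
    obtain ⟨-, q, hq, h⟩ := hi
    rw [mem_filter] at hv hv'
    have h1 := G0_walk_bit _ _ _ (hmem q hq).2 (hv.2 q.1 (hmem q hq).1)
    have h2 := G0_walk_bit _ _ _ (hmem q hq).2 (hv'.2 q.1 (hmem q hq).1)
    have h3 : ∀ u : Fin N → Bool, orc N u (pairBits q.1 ((a q.1).take q.2)) = u i := by
      intro u
      unfold orc
      rw [dif_pos (by rw [h]; exact i.2)]
      congr 1
      exact Fin.ext h
    rw [h3] at h1 h2
    rw [h1, h2]
  · push Not at hlen
    obtain ⟨x, hx, hne⟩ := hlen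
    have h1 : (univ.filter (fun v : Fin N → Bool =>
        ∀ x ∈ S, walk (orc N v) x (2 * x.length) = a x)) = ∅ := by
      rw [filter_eq_empty_iff]
      intro v _ hv
      apply hne
      rw [← hv x hx, G0_length_walk]
    rw [h1, card_empty, zero_mul]
    exact Nat.zero_le _

end Pool.Agent.H628R4.SP
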