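import Pool.Agent.H628R4.SP.StubsT

/-! G1 (helper596): the walks rarely end in a small set for half of the inputs -/

namespace Pool.Agent.H628R4.SP

open Pool.Agent.NPC Pool.Agent.H620R2.Gauge Finset H568R2 Pool.Agent.H676

/-- the end points given by a function with values in `W` -/
def G1_ext {S : Finset (List Bool)} (f : S → List Bool) (x : List Bool) : List Bool :=
  if h : x ∈ S then (unpair (f ⟨x, h⟩)).2 else []

theorem G1_arith (T M w B n N : ℕ) (hM : 4 * M = 2 * B)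
    (hT : T * 2 ^ (2 * n * M) ≤ 2 ^ B * (w ^ M * 2 ^ N)) (hw : 16 * w ≤ 2 ^ (2 * n)) :
    T * 2 ^ B ≤ 2 ^ N := by
  have h1 : (16 * w) ^ M ≤ 2 ^ (2 * n * M) := by
    rw [pow_mul]
    exact Nat.pow_le_pow_left hw M
  have h2 : (16 : ℕ) ^ M = 2 ^ B * 2 ^ B := by
    have : (16 : ℕ) = 2 ^ 4 := by norm_num
    rw [this, ← pow_mul, hM, two_mul, pow_add]
  rw [mul_pow, h2] at h1
  have h3 : T * 2 ^ B * (2 ^ B * 2 ^ (2 * n * M)) ≤ 2 ^ N * (2 ^ B * 2 ^ (2 * n * M)) := by
    calc T * 2 ^ B * (2 ^ B * 2 ^ (2 * n * M)) = T * 2 ^ (2 * n * M) * (2 ^ B * 2 ^ B) := by ring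
      _ ≤ 2 ^ B * (w ^ M * 2 ^ N) * (2 ^ B * 2 ^ B) := Nat.mul_le_mul_right _ hT
      _ = 2 ^ N * 2 ^ B * (2 ^ B * 2 ^ B * w ^ M) := by ring
      _ ≤ 2 ^ N * 2 ^ B * 2 ^ (2 * n * M) := Nat.mul_le_mul_left _ h1
      _ = 2 ^ N * (2 ^ B * 2 ^ (2 * n * M)) := by ring
  exact Nat.le_of_mul_le_mul_right h3 (by positivity)

/-- G1 -/
theorem many_badG (n b N u : ℕ) (hN : 2 ^ (4 * b + 2) ≤ N) (X : Finset (List Bool))
    (hX : ∀ x ∈ X, n ≤ x.length ∧ x.length ≤ b) (hu : X.card ≤ 2 * u) (W : Finset (List Bool))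
    (hW : 16 * W.card ≤ 2 ^ (2 * n)) :
    (univ.filter (fun v : Fin N → Bool =>
      u ≤ (X.filter (fun x => leaf (orc N v) x ∈ W)).card)).card * 2 ^ (2 * u) ≤ 2 ^ N := by
  classical
  refine G1_arith _ u W.card (2 * u) n N (by ring) ?_ hW
  have hsub : (univ.filter (fun v : Fin N → Bool =>
      u ≤ (X.filter (fun x => leaf (orc N v) x ∈ W)).card)) ⊆
      (powersetCard u X).biUnion fun S =>
        (Fintype.piFinset (fun _ : S => W)).biUnion fun f =>
          univ.filter (fun v : Fin N → Bool =>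
            ∀ x ∈ S, walk (orc N v) x (2 * x.length) = G1_ext f x) := by
    intro v hv
    have hv' := (mem_filter.1 hv).2
    obtain ⟨S, hS, hSc⟩ := Finset.exists_subset_card_eq hv'
    rw [mem_biUnion]
    refine ⟨S, mem_powersetCard.2 ⟨fun x hx => (mem_filter.1 (hS hx)).1, hSc⟩, ?_⟩
    rw [mem_biUnion]
    refine ⟨fun x => leaf (orc N v) x.1,
      Fintype.mem_piFinset.2 fun x => (mem_filter.1 (hS x.2)).2, ?_⟩
    refine mem_filter.2 ⟨mem_univ _, fun x hx => ?_⟩
    unfold G1_ext leaf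
    rw [dif_pos hx, unpair_pairBits]
  have hS : ∀ S ∈ powersetCard u X,
      ((Fintype.piFinset (fun _ : S => W)).biUnion fun f =>
          univ.filter (fun v : Fin N → Bool =>
            ∀ x ∈ S, walk (orc N v) x (2 * x.length) = G1_ext f x)).card * 2 ^ (2 * n * u) ≤
        W.card ^ u * 2 ^ N := by
    intro S hS
    obtain ⟨hS1, hS2⟩ := mem_powersetCard.1 hS
    refine (Nat.mul_le_mul_right _ card_biUnion_le).trans ?_
    rw [Finset.sum_mul]
    have h2 : ∀ f ∈ Fintype.piFinset (fun _ : S => W),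
        (univ.filter (fun v : Fin N → Bool =>
          ∀ x ∈ S, walk (orc N v) x (2 * x.length) = G1_ext f x)).card * 2 ^ (2 * n * u) ≤
        2 ^ N := by
      intro f _
      have h3 := Stub.walk_fixG b N hN S (fun x hx => (hX x (hS1 hx)).2) (G1_ext f)
      refine (Nat.mul_le_mul_left _ ?_).trans h3
      refine Nat.pow_le_pow_right (by norm_num) ?_
      have h4 : S.card • (2 * n) ≤ ∑ x ∈ S, 2 * x.length :=
        Finset.card_nsmul_le_sum S (fun x => 2 * x.length) (2 * n)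
          fun x hx => Nat.mul_le_mul_left 2 (hX x (hS1 hx)).1
      rw [hS2, smul_eq_mul] at h4
      calc 2 * n * u = u * (2 * n) := by ring
        _ ≤ _ := h4
    refine (Finset.sum_le_card_nsmul _ _ _ h2).trans ?_
    have h4 : (Fintype.piFinset (fun _ : S => W)).card = W.card ^ u := by
      rw [Fintype.card_piFinset, Finset.prod_const, card_univ, Fintype.card_coe, hS2]
    rw [smul_eq_mul, h4]
  refine (Nat.mul_le_mul_right _ (card_le_card hsub)).trans ?_
  refine (Nat.mul_le_mul_right _ card_biUnion_le).trans ?_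
  rw [Finset.sum_mul]
  refine (Finset.sum_le_card_nsmul _ _ _ hS).trans ?_
  rw [smul_eq_mul]
  refine Nat.mul_le_mul_right _ ?_
  rw [card_powersetCard]
  exact (Nat.choose_le_two_pow _ _).trans (Nat.pow_le_pow_right (by norm_num) hu)

end Pool.Agent.H628R4.SP
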