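import Pool.Agent.H628R4.SP.StubsT

/-! Task G3: bound for the test. -/

namespace Pool.Agent.H628R4.SP

open Pool.Agent.NPC Pool.Agent.H620R2.Gauge Finset H568R2 Pool.Agent.H676 Pool.Agent.H628R4.SP
open Filter (atTop)

open Classical in
theorem testT_boundG (n b N u : ℕ) (hN : 2 ^ (4 * b + 2) ≤ N) (X : Finset (List Bool))
    (hX : ∀ x ∈ X, n ≤ x.length ∧ x.length ≤ b) (hu : X.card = 2 * u) (W : Finset (List Bool))
    (hW : 16 * W.card ≤ 2 ^ (2 * n)) (G : List Bool → (Fin N → Bool) → Bool)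
    (hG : ∀ x v v', (∀ y ∈ W, orc N v y = orc N v' y) → G x v = G x v') :
    Ex unif (fun v : Fin N → Bool =>
      if ∀ x ∈ X, (x ∈ testT (orc N v) ↔ G x v = true) then (1 : ℝ) else 0)
      ≤ 2 / 2 ^ u := by
  have h1 := Stub.many_badG n b N u hN X hX hu.le W hW
  have h2 := Stub.few_goodG b N u hN X (fun x hx => (hX x hx).2) W G hG
  set B := univ.filter (fun v : Fin N → Bool =>
      u ≤ (X.filter (fun x => leaf (orc N v) x ∈ W)).card) with hB
  set D := univ.filter (fun v : Fin N → Bool =>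
      (∀ x ∈ X, (x ∈ testT (orc N v) ↔ G x v = true)) ∧
      u ≤ (X.filter (fun x => leaf (orc N v) x ∉ W)).card) with hD
  have hsub : (univ.filter (fun v : Fin N → Bool =>
      ∀ x ∈ X, (x ∈ testT (orc N v) ↔ G x v = true))) ⊆ B ∪ D := by
    intro v hv
    rw [Finset.mem_filter] at hv
    have hsum : (X.filter (fun x => leaf (orc N v) x ∈ W)).card +
        (X.filter (fun x => leaf (orc N v) x ∉ W)).card = 2 * u := by
      rw [← hu]
      exact Finset.card_filter_add_card_filter_not (s := X) (fun x => leaf (orc N v) x ∈ W)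
    rw [Finset.mem_union, hB, hD, Finset.mem_filter, Finset.mem_filter]
    by_cases hc : u ≤ (X.filter (fun x => leaf (orc N v) x ∈ W)).card
    · exact Or.inl ⟨Finset.mem_univ _, hc⟩
    · exact Or.inr ⟨Finset.mem_univ _, hv.2, by omega⟩
  have hcard := (Finset.card_le_card hsub).trans (Finset.card_union_le B D)
  have hE : Ex unif (fun v : Fin N → Bool =>
      if ∀ x ∈ X, (x ∈ testT (orc N v) ↔ G x v = true) then (1 : ℝ) else 0) =
      (((univ.filter (fun v : Fin N → Bool =>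
        ∀ x ∈ X, (x ∈ testT (orc N v) ↔ G x v = true))).card : ℕ) : ℝ) * 2 ^ (-(N : ℝ)) := by
    have h := card_of_Ex (N := N) (fun v => ∀ x ∈ X, (x ∈ testT (orc N v) ↔ G x v = true))
    convert h.symm
  rw [hE]
  have h1' : ((B.card : ℕ) : ℝ) * 2 ^ (2 * u) ≤ 2 ^ N := by exact_mod_cast h1
  have h2' : ((D.card : ℕ) : ℝ) * 2 ^ u ≤ 2 ^ N := by exact_mod_cast h2
  have hcard' : (((univ.filter (fun v : Fin N → Bool =>
      ∀ x ∈ X, (x ∈ testT (orc N v) ↔ G x v = true))).card : ℕ) : ℝ) ≤ B.card + D.card := by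
    exact_mod_cast hcard
  have hu1 : (1 : ℝ) ≤ 2 ^ u := one_le_pow₀ (by norm_num)
  have hN0 : (0 : ℝ) < 2 ^ N := by positivity
  have hB1 : (B.card : ℝ) * 2 ^ u ≤ 2 ^ N := by
    refine le_trans ?_ h1'
    refine mul_le_mul_of_nonneg_left ?_ (by positivity)
    exact pow_le_pow_right₀ (by norm_num) (by omega)
  have hfin : (((univ.filter (fun v : Fin N → Bool =>
      ∀ x ∈ X, (x ∈ testT (orc N v) ↔ G x v = true))).card : ℕ) : ℝ) * 2 ^ u ≤ 2 * 2 ^ N := by
    nlinarith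
  rw [Real.rpow_neg (by norm_num), Real.rpow_natCast, le_div_iff₀ (by positivity)]
  have : (((univ.filter (fun v : Fin N → Bool =>
      ∀ x ∈ X, (x ∈ testT (orc N v) ↔ G x v = true))).card : ℕ) : ℝ) * ((2 : ℝ) ^ N)⁻¹ * 2 ^ u =
      ((((univ.filter (fun v : Fin N → Bool =>
      ∀ x ∈ X, (x ∈ testT (orc N v) ↔ G x v = true))).card : ℕ) : ℝ) * 2 ^ u) / 2 ^ N := by
    field_simp
  rw [this, div_le_iff₀ hN0]
  exact hfin

end Pool.Agent.H628R4.SP
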