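import Pool.Agent.H628R4.SP.StubsT
import Pool.Agent.H620R2.Gauge.M

/-! The other direction for tally languages: too many oracles. -/

namespace Pool.Agent.H628R4.SP

open Pool.Agent.NPC Pool.Agent.H620R2.Gauge Finset H568R2 Pool.Agent.H676
open Filter (atTop)

/-- The tally part of a set recognised by the decoder is in logarithmic space. -/
theorem NNT_log (e κ : ℕ) (A : Oracle) :
    IsLogSpace A {x | (∀ b ∈ x, b = true) ∧ A (codeL e κ x) = true} := by
  obtain ⟨Q, hQ, M, d, hM, hacc⟩ := Stub.dec e κ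
  obtain ⟨Q', hQ', M', hM', hacc'⟩ := Stub.check M hM
  obtain ⟨k, m, M'', hM'', hacc''⟩ := Stub.transport M' hM'
  refine ⟨k, m, κ + 1, d, M'', hM'', ?_⟩
  intro x
  rw [hacc'', hacc', hacc]
  rfl

theorem not_nullT (f : ℕ → ℝ) (ε : ℝ) (hε : 0 < ε)
    (hf : ∀ᶠ N : ℕ in atTop, (Real.logb 2 N) ^ ε < f N) (O : Set Oracle)
    (hO : ∀ A : Oracle, (∀ L, Tally L → IsPSPACE A L → IsLogSpace A L) → A ∈ O) :
    ¬ Null f O := by
  classical
  intro hnull
  obtain ⟨K, hK⟩ := exists_nat_gt (2 / ε)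
  have hK' : 2 < ε * K := by
    rw [div_lt_iff₀ hε] at hK
    linarith
  obtain ⟨κ, Φ, hκ, hΦ, hΦL⟩ := Stub.exists_codingT K (fun x => ∃ n, x = List.replicate n true)
  have hsp := Stub.sparseT κ hκ hε hK'
  obtain ⟨N₀, hN₀⟩ := Filter.eventually_atTop.1 (hf.and hsp)
  have hΦO : ∀ B : Oracle, ∀ L, Tally L → IsPSPACE (Φ B) L → IsLogSpace (Φ B) L := by
    intro B L hT hL
    obtain ⟨e, he⟩ := hΦL B L hL
    have hset : L = {x | (∀ b ∈ x, b = true) ∧ Φ B (codeL e (κ e) x) = true} := by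
      ext x
      constructor
      · intro hx
        have hx' := hT x hx
        exact ⟨hx', (he x ⟨x.length, List.eq_replicate_of_mem hx'⟩).1 hx⟩
      · rintro ⟨hx', hx⟩
        exact (he x ⟨x.length, List.eq_replicate_of_mem hx'⟩).2 hx
    rw [hset]
    exact NNT_log e (κ e) (Φ B)
  -- the bound for the short sequences
  obtain ⟨δ, hδ, hδ1, hδ2⟩ : ∃ δ : ℝ, 0 < δ ∧ δ < 1 ∧
      ∀ N < N₀, δ < 2 ^ (f N - N) := by
    have h1 : ∀ M : ℕ, ∃ δ : ℝ, 0 < δ ∧ δ < 1 ∧ ∀ N < M, δ < 2 ^ (f N - N) := by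
      intro M
      induction M with
      | zero => exact ⟨1 / 2, by norm_num, by norm_num, fun N hN => by omega⟩
      | succ M ih =>
        obtain ⟨δ, h1, h2, h3⟩ := ih
        have h4 : (0 : ℝ) < 2 ^ (f M - M) := Real.rpow_pos_of_pos (by norm_num) _
        refine ⟨min δ (2 ^ (f M - M) / 2), lt_min h1 (by positivity),
          (min_le_left _ _).trans_lt h2, ?_⟩
        intro N hN
        rcases Nat.lt_succ_iff_lt_or_eq.1 hN with h | h
        · exact (min_le_left _ _).trans_lt (h3 N h)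
        · subst h
          exact (min_le_right _ _).trans_lt (by linarith)
    exact h1 N₀
  obtain ⟨S, hS, hsum⟩ := hnull δ hδ
  have hm := mass Φ {y | ∃ e n, y = codeL e (κ e) (List.replicate n true)}
    (fun B y hy => hΦ B y (by
      rintro e x ⟨n, rfl⟩ h
      exact hy ⟨e, n, h⟩)) S (fun B => hS (Φ B) (hO _ (hΦO B)))
  have hle : ∀ σ : S, ENNReal.ofReal
      (2 ^ ((((Finset.range σ.1.length).filter
        (fun i => str i ∈ {y | ∃ e n, y = codeL e (κ e) (List.replicate n true)})).card : ℝ) -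
          (σ.1.length : ℝ))) ≤
      ENNReal.ofReal (2 ^ (f σ.1.length - σ.1.length)) := by
    intro σ
    have hlen : N₀ ≤ σ.1.length := by
      by_contra hlt
      push Not at hlt
      have h1 := hδ2 _ hlt
      have h2 : ENNReal.ofReal (2 ^ (f σ.1.length - σ.1.length)) ≤ ENNReal.ofReal δ :=
        (ENNReal.le_tsum σ).trans hsum
      have h3 := (ENNReal.ofReal_le_ofReal_iff hδ.le).1 h2
      linarith
    obtain ⟨h1, h2⟩ := hN₀ _ hlen
    apply ENNReal.ofReal_le_ofReal
    apply Real.rpow_le_rpow_of_exponent_le (by norm_num)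
    have h3 : (((Finset.range σ.1.length).filter
        (fun i => str i ∈ {y | ∃ e n, y = codeL e (κ e) (List.replicate n true)})).card : ℝ) ≤
        (Real.logb 2 σ.1.length) ^ ε := by
      refine le_trans (le_of_eq ?_) h2
      congr 2
    linarith
  have h1 : (1 : ENNReal) ≤ ENNReal.ofReal δ := hm.trans ((ENNReal.tsum_le_tsum hle).trans hsum)
  rw [← ENNReal.ofReal_one] at h1
  have h2 := (ENNReal.ofReal_le_ofReal_iff hδ.le).1 h1
  linarith

end Pool.Agent.H628R4.SP
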