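import Pool.Agent.H628R4.SP.Stubs

/-! The second test language is hard for polynomial time (task NULP, helper774). -/

namespace Pool.Agent.H628R4.SP

open Pool.Agent.NPC Pool.Agent.H620R2.Gauge Finset H568R2 Pool.Agent.H676
open Filter (atTop)

theorem nulp_mem_strs {n : ℕ} {x : List Bool} : x ∈ strs n ↔ x.length = n := by
  unfold strs
  rw [Finset.mem_image]
  constructor
  · rintro ⟨g, _, rfl⟩
    simp
  · rintro rfl
    exact ⟨fun i => x.get i, mem_univ _, List.ofFn_get x⟩

theorem nulp_card_strs (n : ℕ) : (strs n).card = 2 ^ n := by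
  unfold strs
  rw [Finset.card_image_of_injective _ List.ofFn_injective]
  simp

open Classical in
/-- the positions of the strings `x w` with `|w| = s` -/
noncomputable def nulp_B (N s : ℕ) (x : List Bool) : Finset (Fin N) :=
  univ.filter (fun i => ∃ w : Fin s → Bool, str i = x ++ List.ofFn w)

theorem nulp_card_filter (N s : ℕ) (x : List Bool) (hN : 2 ^ (x.length + s + 1) ≤ N + 1)
    (P : List Bool → Prop) [DecidablePred P] :
    ((nulp_B N s x).filter (fun i : Fin N => P (str i))).card =
      (univ.filter (fun w : Fin s → Bool => P (x ++ List.ofFn w))).card := by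
  symm
  have hlen : ∀ w : Fin s → Bool, (x ++ List.ofFn w).length = x.length + s := by
    intro w
    rw [List.length_append, List.length_ofFn]
  have hlt : ∀ w : Fin s → Bool, idx (x ++ List.ofFn w) < N := by
    intro w
    have h1 := idx_lt (x ++ List.ofFn w)
    rw [hlen] at h1
    omega
  refine Finset.card_bij (fun w _ => ⟨idx (x ++ List.ofFn w), hlt w⟩) ?_ ?_ ?_
  · intro w hw
    rw [Finset.mem_filter] at hw
    rw [Finset.mem_filter, nulp_B, Finset.mem_filter]
    refine ⟨⟨Finset.mem_univ _, w, ?_⟩, ?_⟩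
    · exact str_idx _
    · show P (str (idx (x ++ List.ofFn w)))
      rw [str_idx]; exact hw.2
  · intro w hw w' hw' h
    have h1 : idx (x ++ List.ofFn w) = idx (x ++ List.ofFn w') := by
      simpa using h
    have h2 : x ++ List.ofFn w = x ++ List.ofFn w' := by
      rw [← str_idx (x ++ List.ofFn w), h1, str_idx]
    exact List.ofFn_injective (List.append_cancel_left h2)
  · intro i hi
    rw [Finset.mem_filter, nulp_B, Finset.mem_filter] at hi
    obtain ⟨⟨_, w, hw⟩, hP⟩ := hi
    refine ⟨w, ?_, ?_⟩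
    · rw [Finset.mem_filter]
      exact ⟨mem_univ _, by rw [← hw]; exact hP⟩
    · apply Fin.ext
      show idx (x ++ List.ofFn w) = i
      rw [← hw, idx_str]

theorem nulp_card (N s : ℕ) (x : List Bool) (hN : 2 ^ (x.length + s + 1) ≤ N + 1) :
    (nulp_B N s x).card = 2 ^ s := by
  have h := nulp_card_filter N s x hN (fun _ => True)
  simpa using h

theorem nulp_par (N : ℕ) (A : Oracle) (x : List Bool)
    (hN : 2 ^ (x.length + side x.length + 1) ≤ N + 1) :
    par (nulp_B N (side x.length) x) (pre N A) = true ↔ x ∈ testP A := by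
  have h := nulp_card_filter N (side x.length) x hN (fun y => A y = true)
  unfold par pre testP
  rw [decide_eq_true_eq, Set.mem_ofPred_eq, ← h]

theorem nulp_disj (N s : ℕ) (x x' : List Bool) (hl : x.length = x'.length) (hne : x ≠ x') :
    Disjoint (nulp_B N s x) (nulp_B N s x') := by
  rw [Finset.disjoint_left]
  intro i hi hi'
  rw [nulp_B, Finset.mem_filter] at hi hi'
  obtain ⟨_, w, hw⟩ := hi
  obtain ⟨_, w', hw'⟩ := hi'
  apply hne
  rw [hw] at hw'
  exact (List.append_inj hw' hl).1

theorem nulp_side_le (n : ℕ) : side n ≤ (n + 1) ^ 2 :=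
  Nat.pow_le_pow_left (Nat.succ_le_succ (Nat.log_le_self 2 n)) 2

theorem nulp_one (M : Alg) (f : ℕ → ℝ)
    (hf : ∀ ε : ℝ, 0 < ε → ∃ᶠ N : ℕ in Filter.atTop, f N ≤ 2 ^ (Real.logb 2 N) ^ ε) :
    Null f {A : Oracle | ∀ x, x ∈ testP A ↔ M.out A x = some [true]} := by
  classical
  intro δ hδ
  obtain ⟨qb, hqb⟩ := Alg.out_local M
  obtain ⟨n₀, hn₀⟩ := Filter.eventually_atTop.1 (Stub.side_large M.p)
  obtain ⟨n, N, hn, hN, hb⟩ := Stub.asyT (qb + (Polynomial.X + 1) ^ 2 + Polynomial.X + 1) f hf δ hδ n₀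
  have hQ : (qb + (Polynomial.X + 1) ^ 2 + Polynomial.X + 1 : Polynomial ℕ).eval n =
      qb.eval n + (n + 1) ^ 2 + n + 1 := by simp
  rw [hQ] at hN
  have hs := nulp_side_le n
  have hN1 : 2 ^ (n + side n + 1) ≤ N + 1 :=
    le_trans (Nat.pow_le_pow_right (by norm_num) (by omega)) (hN.trans (Nat.le_succ _))
  have hN2 : 2 ^ (qb.eval n + 1) ≤ N :=
    le_trans (Nat.pow_le_pow_right (by norm_num) (by omega)) hN
  refine cover_of_event (N := N) (fun a => ∀ x ∈ strs n,
    decide (M.out (orc N a) x = some [true]) = par (nulp_B N (side n) x) a) _ ?_ f δ ?_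
  · intro A hA x hx
    have hxl : x.length = n := nulp_mem_strs.1 hx
    obtain ⟨Q, _, hQl, hQA⟩ := hqb A x
    have h1 : M.out (orc N (pre N A)) x = M.out A x := by
      apply hQA
      intro q hq
      apply orc_pre
      have h2 := idx_lt q
      have h3 : q.length ≤ qb.eval n := by
        have := hQl q hq
        rwa [hxl] at this
      have h4 : 2 ^ (q.length + 1) ≤ 2 ^ (qb.eval n + 1) :=
        Nat.pow_le_pow_right (by norm_num) (by omega)
      omega
    have h2 := nulp_par N A x (by rw [hxl]; exact hN1)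
    rw [hxl] at h2
    have h3 := hA x
    rw [h1]
    rw [Bool.eq_iff_iff, decide_eq_true_eq, h2]
    exact h3.symm
  · have hX := Stub.xor_bound' (I := Fin N) (strs n) (fun x => nulp_B N (side n) x)
      (fun x hx x' hx' hne => nulp_disj N (side n) x x'
        (by rw [nulp_mem_strs.1 hx, nulp_mem_strs.1 hx']) hne)
      (fun x a => decide (M.out (orc N a) x = some [true])) (M.p.eval n)
      (fun x hx => by
        have := dtr_out M N x
        rwa [nulp_mem_strs.1 hx] at this)
      (fun x hx => by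
        show M.p.eval n < (nulp_B N (side n) x).card
        rw [nulp_card N (side n) x (by rw [nulp_mem_strs.1 hx]; exact hN1)]
        exact hn₀ n hn)
    rw [nulp_card_strs] at hX
    have h5 : ((1 : ℝ) / 2) ^ 2 ^ n ≤ 2 / 2 ^ 2 ^ (n - 1) := by
      have h6 : (2 : ℝ) ^ 2 ^ (n - 1) ≤ 2 ^ 2 ^ n :=
        pow_le_pow_right₀ (by norm_num) (Nat.pow_le_pow_right (by norm_num) (Nat.sub_le _ _))
      rw [one_div, inv_pow, inv_eq_one_div, div_le_div_iff₀ (by positivity) (by positivity)]
      have h7 : (0 : ℝ) < 2 ^ 2 ^ n := by positivity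
      linarith
    refine le_trans ?_ hb
    refine mul_le_mul_of_nonneg_right ?_ (by positivity)
    refine le_trans ?_ h5
    refine le_trans (le_of_eq ?_) hX
    congr 1
    funext a
    congr 1

theorem nullP (f : ℕ → ℝ)
    (hf : ∀ ε : ℝ, 0 < ε → ∃ᶠ N : ℕ in Filter.atTop, f N ≤ 2 ^ (Real.logb 2 N) ^ ε) :
    Null f {A : Oracle | IsP A (testP A)} := by
  refine (null_iUnion (fun M : Alg => {A : Oracle | ∀ x, x ∈ testP A ↔ M.out A x = some [true]})
    (fun M => nulp_one M f hf)).mono ?_
  rintro A ⟨V, ⟨M, hM⟩, hV⟩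
  rw [Set.mem_iUnion]
  refine ⟨M, fun x => ?_⟩
  rw [hV x, hM x, Option.some.injEq]

end Pool.Agent.H628R4.SP
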