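import Pool.Agent.H628R4.SP.StubsT

/-! The oracles for which the first tally test language is in polylogarithmic space
(helper208, after `nullT` of helper616). -/

namespace Pool.Agent.H628R4.SP

open Pool.Agent.NPC Pool.Agent.H620R2.Gauge Finset H568R2 Pool.Agent.H676
open Filter (atTop)

namespace NUT

theorem walk_length (A : Oracle) (x : List Bool) (j : ℕ) : (walk A x j).length = j := by
  induction j with
  | zero => rfl
  | succ j ih => simp [walk, ih]

theorem walk_congr {A A' : Oracle} {x : List Bool} {J : ℕ}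
    (h : ∀ a : List Bool, a.length < J → A (pairBits x a) = A' (pairBits x a)) :
    ∀ j ≤ J, walk A x j = walk A' x j := by
  intro j
  induction j with
  | zero => intro _; rfl
  | succ j ih =>
    intro hj
    have h1 := ih (by omega)
    simp only [walk]
    rw [h1, h _ (by rw [walk_length]; omega)]

/-- the words `true ^ i`, `n ≤ i < 3 n` -/
def XX (n : ℕ) : Finset (List Bool) := (Finset.Ico n (3 * n)).image (fun i => List.replicate i true)

theorem mem_XX {n : ℕ} {x : List Bool} :
    x ∈ XX n ↔ n ≤ x.length ∧ x.length < 3 * n ∧ ∀ b ∈ x, b = true := by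
  unfold XX
  rw [Finset.mem_image]
  constructor
  · rintro ⟨i, hi, rfl⟩
    rw [Finset.mem_Ico] at hi
    rw [List.length_replicate]
    exact ⟨hi.1, hi.2, fun b hb => List.eq_of_mem_replicate hb⟩
  · rintro ⟨h1, h2, h3⟩
    exact ⟨x.length, Finset.mem_Ico.2 ⟨h1, h2⟩, (List.eq_replicate_of_mem h3).symm⟩

theorem card_XX (n : ℕ) : (XX n).card = 2 * n := by
  unfold XX
  rw [Finset.card_image_of_injective, Nat.card_Ico]
  · omega
  · intro i j hij
    have := congrArg List.length hij
    simpa using this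

open Classical in
theorem null_one {f : ℕ → ℝ}
    (hf : ∀ ε : ℝ, 0 < ε → ∃ᶠ N : ℕ in Filter.atTop, f N ≤ (Real.logb 2 N) ^ ε)
    {k m h : ℕ} (c d : ℕ) (M : Mach (Fin k) (Fin m) h) :
    Null f {A : Oracle | ∀ x, x ∈ testT1 A ↔
      M.Acc A ((Nat.log 2 x.length + 1) ^ c) ((x.length + 2) ^ d) x} := by
  intro δ hδ
  obtain ⟨n₀, hn₀⟩ := Filter.eventually_atTop.1 (Stub.small_coresT k m h c)
  let Q : Polynomial ℕ := (Polynomial.C 3 * Polynomial.X + Polynomial.C 2) ^ d +
    Polynomial.C 12 * Polynomial.X + Polynomial.C 3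
  obtain ⟨n, N, hn, hN, hδN⟩ := Stub.asyT1 Q f hf δ hδ (max n₀ 1)
  have hQ : Q.eval n = (3 * n + 2) ^ d + 12 * n + 3 := by simp [Q]
  rw [hQ] at hN
  have hn0 : n₀ ≤ n := (le_max_left _ _).trans hn
  have hn1 : 1 ≤ n := (le_max_right _ _).trans hn
  have hsm := hn₀ n hn0
  let s : List Bool → ℕ := fun x => (Nat.log 2 x.length + 1) ^ c
  let l : List Bool → ℕ := fun x => (x.length + 2) ^ d
  set sm : ℕ := (Nat.log 2 (3 * n) + 1) ^ c with hsmdef
  set lm : ℕ := (3 * n + 2) ^ d with hlm
  have hs1 : ∀ x, 1 ≤ s x := fun x => Nat.one_le_pow _ _ (by omega)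
  have hsle : ∀ x ∈ XX n, s x ≤ sm := by
    intro x hx
    have h1 := (mem_XX.1 hx).2.1
    exact Nat.pow_le_pow_left (Nat.add_le_add_right (Nat.log_mono_right h1.le) 1) c
  have hlle : ∀ x ∈ XX n, l x ≤ lm := by
    intro x hx
    have h1 := (mem_XX.1 hx).2.1
    exact Nat.pow_le_pow_left (by omega) d
  choose W hW1 hW2 hW3 using fun x : List Bool => Stub.queries M (s x) (l x) x
  let WW : Finset (List Bool) := (XX n).biUnion W
  have hWW : 16 * WW.card ≤ 2 ^ (2 * n) := by
    have h1 : WW.card ≤ (XX n).card * (2 * (k * (3 * n + 2) ^ h * (sm + 2) * m ^ sm) + 1) := by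
      refine Finset.card_biUnion_le_card_mul _ _ _ ?_
      intro x hx
      refine (hW2 x).trans ?_
      have h3 := hsle x hx
      have h4 : x.length ≤ 3 * n := (mem_XX.1 hx).2.1.le
      have h5 : m ^ s x ≤ m ^ sm := by
        rcases Nat.eq_zero_or_pos m with hm | hm
        · subst hm
          rw [Nat.zero_pow (hs1 x)]
          exact Nat.zero_le _
        · exact Nat.pow_le_pow_right hm h3
      have h6 : (x.length + 2) ^ h ≤ (3 * n + 2) ^ h := Nat.pow_le_pow_left (by omega) h
      gcongr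
    rw [card_XX] at h1
    exact (Nat.mul_le_mul_left 16 h1).trans hsm
  let G : List Bool → (Fin N → Bool) → Bool := fun x v =>
    if x ∈ XX n then decide (M.Acc (orc N v) (s x) (l x) x) else false
  have hG : ∀ x v v', (∀ y ∈ WW, orc N v y = orc N v' y) → G x v = G x v' := by
    intro x v v' hv
    simp only [G]
    split_ifs with hx
    · have h1 := hW3 x (orc N v) (orc N v') (fun y hy => hv y
        (Finset.mem_biUnion.2 ⟨x, hx, hy⟩))
      exact decide_eq_decide.2 h1
    · rfl
  have hN1 : 2 ^ (4 * (3 * n) + 2) ≤ N :=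
    (Nat.pow_le_pow_right (by norm_num) (by omega)).trans hN
  have hN2 : 2 ^ (4 * (3 * n) + 1 + 1) ≤ N := hN1
  have hN3 : 2 ^ (lm + 1) ≤ N :=
    (Nat.pow_le_pow_right (by norm_num) (by omega)).trans hN
  have hb := Stub.testT_boundG n (3 * n) N n hN1 (XX n)
    (fun x hx => ⟨(mem_XX.1 hx).1, (mem_XX.1 hx).2.1.le⟩) (card_XX n) WW hWW G hG
  obtain ⟨S, hS, hS'⟩ := cover_of_event
    (fun v : Fin N → Bool => ∀ x ∈ XX n, (x ∈ testT (orc N v) ↔ G x v = true))
    {A : Oracle | ∀ x, x ∈ testT1 A ↔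
      M.Acc A ((Nat.log 2 x.length + 1) ^ c) ((x.length + 2) ^ d) x} (by
      intro A hA x hx
      obtain ⟨hx1, hx2, hx3⟩ := mem_XX.1 hx
      have hloc : ∀ y : List Bool, y.length ≤ 4 * (3 * n) + 1 → orc N (pre N A) y = A y := by
        intro y hy
        apply orc_pre
        have h1 := idx_lt y
        have h2 : 2 ^ (y.length + 1) ≤ 2 ^ (4 * (3 * n) + 1 + 1) :=
          Nat.pow_le_pow_right (by norm_num) (by omega)
        omega
      have hloc2 : ∀ y : List Bool, y.length ≤ lm → orc N (pre N A) y = A y := by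
        intro y hy
        apply orc_pre
        have h1 := idx_lt y
        have h2 : 2 ^ (y.length + 1) ≤ 2 ^ (lm + 1) :=
          Nat.pow_le_pow_right (by norm_num) (by omega)
        omega
      have hw : walk (orc N (pre N A)) x (2 * x.length) = walk A x (2 * x.length) := by
        apply walk_congr (J := 2 * x.length) _ _ le_rfl
        intro a ha
        apply hloc
        rw [length_pairBits]
        omega
      have h1 : x ∈ testT (orc N (pre N A)) ↔ x ∈ testT A := by
        unfold testT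
        change _ = true ↔ _ = true
        rw [hw, hloc]
        rw [length_pairBits, walk_length]
        omega
      have h2 : G x (pre N A) = true ↔ M.Acc A (s x) (l x) x := by
        simp only [G]
        rw [if_pos hx, decide_eq_true_iff]
        exact hW3 x _ _ (fun y hy => hloc2 y ((hW1 x y hy).trans (hlle x hx)))
      have h4 : x ∈ testT1 A ↔ x ∈ testT A := by
        unfold testT1
        exact ⟨fun h => h.2, fun h => ⟨hx3, h⟩⟩
      rw [h1, h2, ← h4]
      exact hA x) f δ (by
      refine le_trans ?_ hδN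
      refine mul_le_mul_of_nonneg_right (le_trans (le_of_eq ?_) hb) (by positivity)
      congr 1
      funext v
      by_cases hE : ∀ x ∈ XX n, (x ∈ testT (orc N v) ↔ G x v = true)
      · simp only [if_pos hE]
      · simp only [if_neg hE])
  exact ⟨S, hS, hS'⟩

end NUT

theorem nullT1 (f : ℕ → ℝ)
    (hf : ∀ ε : ℝ, 0 < ε → ∃ᶠ N : ℕ in atTop, f N ≤ (Real.logb 2 N) ^ ε) :
    Null f {A : Oracle | IsNPolylog A (testT1 A)} := by
  have hcount : ∀ k m h : ℕ, Countable (Mach (Fin k) (Fin m) h) := Stub.countable_mach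
  obtain ⟨g, hg⟩ : ∃ g : ℕ → Option (Σ _ : ℕ, Σ _ : ℕ, Σ k : ℕ, Σ m : ℕ, Σ h : ℕ,
      Mach (Fin k) (Fin m) h), Function.Surjective g := exists_surjective_nat _
  refine (null_iUnion (f := f) (fun i : ℕ => {A : Oracle | ∃ p ∈ g i,
    ∀ x, x ∈ testT1 A ↔ p.2.2.2.2.2.Acc A ((Nat.log 2 x.length + 1) ^ p.1)
      ((x.length + 2) ^ p.2.1) x}) fun i => ?_).mono fun A hA => ?_
  · cases hgi : g i with
    | none =>
      intro δ hδ
      refine ⟨∅, ?_, ?_⟩
      · rintro A ⟨p, hp, -⟩
        simp at hp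
      · simp
    | some p =>
      refine (NUT.null_one hf p.1 p.2.1 p.2.2.2.2.2).mono ?_
      rintro A ⟨p', hp', h⟩
      rw [Option.mem_some_iff] at hp'
      subst hp'
      exact h
  · obtain ⟨c, k, m, h, d, M, hM⟩ := hA
    obtain ⟨i, hi⟩ := hg (some ⟨c, d, k, m, h, M⟩)
    exact Set.mem_iUnion.2 ⟨i, ⟨c, d, k, m, h, M⟩, by rw [hi]; rfl, hM⟩

end Pool.Agent.H628R4.SP
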