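import Pool.Agent.H628R4.SP.StubsN

/-! Task P1. -/

namespace Pool.Agent.H628R4.SP

open Pool.Agent.NPC Pool.Agent.H620R2.Gauge Finset H568R2 Pool.Agent.H676 Pool.Agent.H628R4.SP
open Filter (atTop)

section

variable {I : Type*} [Fintype I] [DecidableEq I]

theorem p1_dec (c : ℕ) : decide (Odd (c + 1)) = !decide (Odd c) := by
  by_cases h : Odd c <;> simp [h, Nat.odd_add_one]

omit [Fintype I] in
theorem p1_par_flip (B : Finset I) (a : I → Bool) (i : I) (hi : i ∈ B) :
    par B (Function.update a i (!a i)) = !par B a := by
  unfold par
  cases ha : a i with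
  | true =>
    have h : B.filter (fun j => Function.update a i (!true) j = true) =
        (B.filter (fun j => a j = true)).erase i := by
      ext j
      by_cases hj : j = i
      · subst hj; simp
      · simp [hj, Function.update_of_ne hj]
    rw [h]
    have hmem : i ∈ B.filter (fun j => a j = true) := by simp [hi, ha]
    have hc := Finset.card_erase_add_one hmem
    rw [← hc, p1_dec, Bool.not_not]
  | false =>
    have h : B.filter (fun j => Function.update a i (!false) j = true) =
        insert i (B.filter (fun j => a j = true)) := by
      ext j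
      by_cases hj : j = i
      · subst hj; simp [hi]
      · simp [hj, Function.update_of_ne hj]
    rw [h]
    have hmem : i ∉ B.filter (fun j => a j = true) := by simp [ha]
    rw [Finset.card_insert_of_notMem hmem, p1_dec]

omit [Fintype I] in
theorem p1_flip_flip (a : I → Bool) (i : I) :
    Function.update (Function.update a i (!a i)) i
      (!(Function.update a i (!a i)) i) = a := by
  simp

theorem p1_Ex (E : (I → Bool) → Prop) [DecidablePred E] :
    Ex unif (fun a : I → Bool => if E a then (1 : ℝ) else 0) =
      (1 / 2 : ℝ) ^ Fintype.card I * ((univ.filter E).card : ℝ) := by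
  unfold Ex unif
  simp only [Finset.prod_const, Finset.card_univ]
  rw [← Finset.mul_sum, Finset.sum_boole]

open Classical in
theorem p1_count {p : ℕ} (B : Finset I) (hB : 2 * p ≤ B.card) (G : (I → Bool) → Prop)
    (hG : ∀ a, G a → ∃ A : Finset I, A.card ≤ p ∧ ∀ y : I → Bool, (∀ i ∈ A, y i = a i) → G y) :
    (univ.filter (fun a : I → Bool => par B a = true ∧ G a)).card ≤
      2 * (univ.filter (fun a : I → Bool => par B a = false ∧ G a)).card := by
  set O := univ.filter (fun a : I → Bool => par B a = true ∧ G a) with hO
  set E := univ.filter (fun a : I → Bool => par B a = false ∧ G a) with hE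
  rcases Nat.eq_zero_or_pos B.card with h0 | hpos
  · have : O = ∅ := by
      rw [Finset.eq_empty_iff_forall_notMem]
      intro a ha
      rw [hO, Finset.mem_filter] at ha
      have hBe := Finset.card_eq_zero.1 h0
      have h1 := ha.2.1
      rw [hBe] at h1
      simp [par] at h1
    rw [this]
    simp
  · have hkey := Finset.sum_card_bipartiteAbove_eq_sum_card_bipartiteBelow
      (s := O) (t := B) (fun (a : I → Bool) (i : I) => Function.update a i (!a i) ∈ E)
    have hup : ∀ i ∈ B, (Finset.bipartiteBelow
        (fun (a : I → Bool) (i : I) => Function.update a i (!a i) ∈ E) O i).card ≤ E.card := by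
      intro i _
      refine Finset.card_le_card_of_injOn (fun a => Function.update a i (!a i)) ?_ ?_
      · intro a ha
        rw [Finset.mem_coe, Finset.mem_bipartiteBelow] at ha
        exact ha.2
      · intro a _ a' _ haa
        have h1 := congrArg (fun f => Function.update f i (!f i)) haa
        simp only at h1
        rwa [p1_flip_flip, p1_flip_flip] at h1
    have hlo : ∀ a ∈ O, B.card - p ≤ (Finset.bipartiteAbove
        (fun (a : I → Bool) (i : I) => Function.update a i (!a i) ∈ E) B a).card := by
      intro a ha
      rw [hO, Finset.mem_filter] at ha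
      obtain ⟨A, hA1, hA2⟩ := hG a ha.2.2
      have hsub : B \ A ⊆ Finset.bipartiteAbove
          (fun (a : I → Bool) (i : I) => Function.update a i (!a i) ∈ E) B a := by
        intro i hi
        rw [Finset.mem_sdiff] at hi
        rw [Finset.mem_bipartiteAbove]
        refine ⟨hi.1, ?_⟩
        rw [hE, Finset.mem_filter]
        refine ⟨Finset.mem_univ _, ?_, hA2 _ ?_⟩
        · rw [p1_par_flip B a i hi.1, ha.2.1]
          rfl
        · intro j hj
          rw [Function.update_of_ne]
          rintro rfl
          exact hi.2 hj
      have h1 := Finset.card_le_card hsub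
      have h2 := Finset.le_card_sdiff A B
      omega
    have h1 : O.card * (B.card - p) ≤ B.card * E.card := by
      calc O.card * (B.card - p) = ∑ _a ∈ O, (B.card - p) := by
            rw [Finset.sum_const, smul_eq_mul]
        _ ≤ _ := Finset.sum_le_sum hlo
        _ = _ := hkey
        _ ≤ ∑ _i ∈ B, E.card := Finset.sum_le_sum hup
        _ = B.card * E.card := by rw [Finset.sum_const, smul_eq_mul]
    have h2 : B.card ≤ 2 * (B.card - p) := by omega
    have h3 : 0 < B.card - p := by omega
    have h4 : O.card * (B.card - p) ≤ (2 * E.card) * (B.card - p) := by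
      calc O.card * (B.card - p) ≤ B.card * E.card := h1
        _ ≤ (2 * (B.card - p)) * E.card := Nat.mul_le_mul_right _ h2
        _ = (2 * E.card) * (B.card - p) := by ring
    exact Nat.le_of_mul_le_mul_right h4 h3

open Classical in
theorem single_par {p : ℕ} (B : Finset I) (hB : 2 * p ≤ B.card) (G : (I → Bool) → Prop)
    (hG : ∀ a, G a → ∃ A : Finset I, A.card ≤ p ∧ ∀ y : I → Bool, (∀ i ∈ A, y i = a i) → G y) :
    Ex unif (fun a : I → Bool => if par B a = true ∧ G a then (1 : ℝ) else 0) ≤
      2 * Ex unif (fun a : I → Bool => if par B a = false ∧ G a then (1 : ℝ) else 0) := by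
  rw [p1_Ex (fun a : I → Bool => par B a = true ∧ G a),
    p1_Ex (fun a : I → Bool => par B a = false ∧ G a)]
  have h := p1_count B hB G hG
  have h' : ((univ.filter (fun a : I → Bool => par B a = true ∧ G a)).card : ℝ) ≤
      2 * ((univ.filter (fun a : I → Bool => par B a = false ∧ G a)).card : ℝ) := by
    exact_mod_cast h
  have h2 : (0 : ℝ) ≤ (1 / 2 : ℝ) ^ Fintype.card I := by positivity
  nlinarith

end

end Pool.Agent.H628R4.SP
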