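import Pool.Agent.H628R4.SP.StubsN
import Pool.Agent.H620R2.Gauge2.V5

/-! # Averaging over selections, for the parity -/

namespace Pool.Agent.H628R4.SP

open Pool.Agent.NPC Pool.Agent.H620R2.Gauge Finset H568R2 Pool.Agent.H676

namespace P4

variable {I : Type*} [Fintype I] [DecidableEq I]

omit [Fintype I] [DecidableEq I] in
open Classical in
lemma good_count {m p R : ℕ} (hR : 2 * p ≤ R) (hR1 : 1 ≤ R)
    (W : Fin m × Fin R → Finset I)
    (hd : ∀ k k', k ≠ k' → Disjoint (W k) (W k'))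
    (V : (I → Bool) → Bool) (i : Fin m) (r : Fin R) (a : I → Bool)
    (hc : ∃ A : Finset I, A.card ≤ p ∧ ∀ y : I → Bool, (∀ i ∈ A, y i = a i) → V y = true) :
    R ^ m ≤ 2 * R * (univ.filter (fun c : Fin m → Fin R =>
      c i = r ∧ CertP (fun i' => W (i', c i')) p V i a)).card := by
  obtain ⟨A, hA, hV⟩ := hc
  set G := univ.filter (fun c : Fin m → Fin R =>
      c i = r ∧ CertP (fun i' => W (i', c i')) p V i a) with hG
  set B : I → Finset (Fin m → Fin R) := fun e => univ.filter (fun c : Fin m → Fin R =>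
      c i = r ∧ ∃ i', i' ≠ i ∧ e ∈ W (i', c i')) with hB
  have hBc : ∀ e, (B e).card * R ^ 2 ≤ R ^ m := by
    intro e
    rcases (B e).eq_empty_or_nonempty with h | ⟨c0, hc0⟩
    · rw [h]; simp
    · simp only [hB, mem_filter, mem_univ, true_and] at hc0
      obtain ⟨-, i', hi', hj0⟩ := hc0
      rw [← V5.count_two i i' (Ne.symm hi') r (c0 i')]
      apply Nat.mul_le_mul_right
      apply Finset.card_le_card
      intro c hc
      simp only [hB, mem_filter, mem_univ, true_and] at hc ⊢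
      obtain ⟨h1, i'', hi'', hj⟩ := hc
      refine ⟨h1, ?_⟩
      by_contra hne
      have h2 : ((i'', c i'') : Fin m × Fin R) ≠ (i', c0 i') := by
        intro h
        simp only [Prod.mk.injEq] at h
        obtain ⟨h3, h4⟩ := h
        subst h3
        exact hne h4
      exact (Finset.disjoint_left.mp (hd _ _ h2)) hj hj0
  have hsub : univ.filter (fun c : Fin m → Fin R => c i = r) ⊆ G ∪ A.biUnion B := by
    intro c hc
    simp only [mem_filter, mem_univ, true_and] at hc
    rw [mem_union]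
    by_cases hx : ∃ e ∈ A, ∃ i', i' ≠ i ∧ e ∈ W (i', c i')
    · right
      obtain ⟨e, he, h1⟩ := hx
      rw [mem_biUnion]
      exact ⟨e, he, by simp only [hB, mem_filter, mem_univ, true_and]; exact ⟨hc, h1⟩⟩
    · left
      simp only [hG, mem_filter, mem_univ, true_and]
      refine ⟨hc, A, hA, ?_, hV⟩
      intro k' hk'
      rw [Finset.disjoint_left]
      intro e he he'
      exact hx ⟨e, he, k', hk', he'⟩
  have h1 := Finset.card_le_card hsub
  have h2 := Finset.card_union_le G (A.biUnion B)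
  have h3 : (A.biUnion B).card ≤ ∑ e ∈ A, (B e).card := Finset.card_biUnion_le
  have h4 : (∑ e ∈ A, (B e).card) * R ^ 2 ≤ p * R ^ m := by
    rw [Finset.sum_mul]
    calc ∑ e ∈ A, (B e).card * R ^ 2 ≤ ∑ _e ∈ A, R ^ m := Finset.sum_le_sum fun e _ => hBc e
      _ = A.card * R ^ m := by rw [Finset.sum_const, smul_eq_mul]
      _ ≤ p * R ^ m := Nat.mul_le_mul_right _ hA
  have h5 := V5.count_one i r (R := R)
  set X := (univ.filter (fun c : Fin m → Fin R => c i = r)).card
  have h6 : X ≤ G.card + ∑ e ∈ A, (B e).card := by omega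
  have h7 : X * R ^ 2 ≤ G.card * R ^ 2 + p * R ^ m := by
    calc X * R ^ 2 ≤ (G.card + ∑ e ∈ A, (B e).card) * R ^ 2 := Nat.mul_le_mul_right _ h6
      _ = G.card * R ^ 2 + (∑ e ∈ A, (B e).card) * R ^ 2 := by ring
      _ ≤ _ := Nat.add_le_add_left h4 _
  have h8 : X * R ^ 2 = R * R ^ m := by rw [← h5]; ring
  rw [h8] at h7
  have h9 : 2 * p * R ^ m ≤ R * R ^ m := Nat.mul_le_mul_right _ hR
  have h10 : R * R ^ m ≤ R * (2 * R * G.card) := by nlinarith
  exact Nat.le_of_mul_le_mul_left h10 (by omega)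

open Classical in
lemma sum_claim {m p R : ℕ} (hR : 2 * p ≤ R) (hR1 : 1 ≤ R)
    (W : Fin m × Fin R → Finset I)
    (hd : ∀ k k', k ≠ k' → Disjoint (W k) (W k'))
    (V : Fin m × Fin R → (I → Bool) → Bool) (hV : ∀ k, Cert p true (V k)) (a : I → Bool)
    (hE : ∀ k, V k a = par (W k) a) :
    (univ.filter (fun k => par (W k) a = true)).card * R ^ m ≤
      2 * R * ∑ c : Fin m → Fin R, (univ.filter (fun i => par (W (i, c i)) a = true ∧
        CertP (fun i' => W (i', c i')) p (V (i, c i)) i a)).card := by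
  have h1 : ∑ c : Fin m → Fin R, (univ.filter (fun i => par (W (i, c i)) a = true ∧
        CertP (fun i' => W (i', c i')) p (V (i, c i)) i a)).card =
      ∑ k : Fin m × Fin R, (univ.filter (fun c : Fin m → Fin R => c k.1 = k.2 ∧
        (par (W k) a = true ∧ CertP (fun i' => W (i', c i')) p (V k) k.1 a))).card := by
    simp only [Finset.card_filter]
    rw [Finset.sum_comm, Fintype.sum_prod_type]
    refine Finset.sum_congr rfl fun i _ => ?_
    rw [Finset.sum_comm]
    refine Finset.sum_congr rfl fun c _ => ?_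
    rw [Finset.sum_eq_single (c i)]
    · simp
    · intro r _ hr
      rw [if_neg]
      rintro ⟨h, -⟩
      exact hr h.symm
    · simp
  rw [h1, Finset.mul_sum]
  have h2 : (univ.filter (fun k => par (W k) a = true)).card * R ^ m =
      ∑ k ∈ univ.filter (fun k => par (W k) a = true), R ^ m := by
    rw [Finset.sum_const, smul_eq_mul]
  rw [h2]
  calc ∑ k ∈ univ.filter (fun k => par (W k) a = true), R ^ m
      ≤ ∑ k ∈ univ.filter (fun k => par (W k) a = true),
        2 * R * (univ.filter (fun c : Fin m → Fin R => c k.1 = k.2 ∧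
        (par (W k) a = true ∧ CertP (fun i' => W (i', c i')) p (V k) k.1 a))).card := by
        apply Finset.sum_le_sum
        intro k hk
        simp only [mem_filter, mem_univ, true_and] at hk
        have h3 := good_count hR hR1 W hd (V k) k.1 k.2 a (hV k a ((hE k).trans hk))
        refine h3.trans ?_
        apply Nat.mul_le_mul_left
        apply Finset.card_le_card
        intro c hc
        simp only [mem_filter, mem_univ, true_and] at hc ⊢
        exact ⟨hc.1, hk, hc.2⟩
    _ ≤ _ := Finset.sum_le_sum_of_subset (Finset.filter_subset _ _)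

open Classical in
theorem np_comb_aux {p σ R m : ℕ} (hm : m = 16 * σ) (hR : 2 * p ≤ R) (hR1 : 1 ≤ R)
    (W : Fin m × Fin R → Finset I) (hW : ∀ k, 1 ≤ (W k).card) (hW2 : ∀ k, 2 * p ≤ (W k).card)
    (hd : ∀ k k', k ≠ k' → Disjoint (W k) (W k'))
    (V : Fin m × Fin R → (I → Bool) → Bool) (hV : ∀ k, Cert p true (V k)) :
    Ex unif (fun a : I → Bool =>
      if ∀ k, V k a = par (W k) a then (1 : ℝ) else 0) ≤ 2 * (2 / 3) ^ σ := by
  have hw : ∀ b : Bool, 0 ≤ unif b := fun b => by unfold unif; norm_num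
  set g : (Fin m → Fin R) → (I → Bool) → ℕ := fun c a =>
    (univ.filter (fun i => par (W (i, c i)) a = true ∧
        CertP (fun i' => W (i', c i')) p (V (i, c i)) i a)).card with hg
  set Z : (I → Bool) → ℕ := fun a => (univ.filter (fun k => par (W k) a = true)).card with hZ
  set Sc : (Fin m → Fin R) → (I → Bool) → ℝ := fun c a =>
    if ∀ i, V (i, c i) a = par (W (i, c i)) a then (3 / 2 : ℝ) ^ (g c a) else 0 with hSc
  have hsel : ∀ c : Fin m → Fin R, Ex unif (Sc c) ≤ 1 := by
    intro c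
    have h := Stub.selectionP (I := I) (p := p) (fun i => W (i, c i)) (fun k => hW2 (k, c k))
      (fun k k' hne => hd (k, c k) (k', c k') (fun h => hne (by
        simp only [Prod.mk.injEq] at h
        exact h.1)))
      (fun i => V (i, c i))
    refine le_trans (le_of_eq ?_) h
    apply congrArg
    funext a
    simp only [hSc, hg]
    congr!
  have hR0 : (0:ℝ) < R := by exact_mod_cast hR1
  set F : (I → Bool) → ℝ := fun a =>
    if (∀ k, V k a = par (W k) a) ∧ 2 * (σ * R) ≤ Z a then (1 : ℝ) else 0 with hF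
  have hN : (Fintype.card (Fin m → Fin R) : ℝ) = (R:ℝ) ^ m := by
    rw [Fintype.card_fun, Fintype.card_fin, Fintype.card_fin]
    push_cast
    rfl
  have hpt : ∀ a, (3 / 2 : ℝ) ^ σ * (R:ℝ) ^ m * F a ≤ ∑ c : Fin m → Fin R, Sc c a := by
    intro a
    by_cases h : (∀ k, V k a = par (W k) a) ∧ 2 * (σ * R) ≤ Z a
    · have hF1 : F a = 1 := by simp only [hF]; rw [if_pos h]
      rw [hF1, mul_one]
      have h1 := sum_claim hR hR1 W hd V hV a h.1
      have h2 : (Z a : ℝ) * (R:ℝ) ^ m ≤ 2 * R * ∑ c : Fin m → Fin R, (g c a : ℝ) := by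
        exact_mod_cast h1
      have h3 : (2 : ℝ) * (σ * R) ≤ Z a := by exact_mod_cast h.2
      have hRm : (0:ℝ) < (R:ℝ) ^ m := by positivity
      have h4 : (σ : ℝ) * (R:ℝ) ^ m ≤ ∑ c : Fin m → Fin R, (g c a : ℝ) := by
        have h5 : 2 * (R:ℝ) * ((σ : ℝ) * (R:ℝ) ^ m) ≤ 2 * R * ∑ c : Fin m → Fin R, (g c a : ℝ) := by
          calc 2 * (R:ℝ) * ((σ : ℝ) * (R:ℝ) ^ m) = (2 * (σ * R)) * (R:ℝ) ^ m := by ring
            _ ≤ (Z a : ℝ) * (R:ℝ) ^ m := mul_le_mul_of_nonneg_right h3 hRm.le
            _ ≤ _ := h2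
        exact le_of_mul_le_mul_left h5 (by positivity)
      have h6 : ∀ c, (3 / 2 : ℝ) ^ σ * (1 + ((g c a : ℝ) - σ) / 3) ≤ Sc c a := by
        intro c
        have : Sc c a = (3 / 2 : ℝ) ^ (g c a) := by
          simp only [hSc]
          rw [if_pos (fun i => h.1 (i, c i))]
        rw [this]
        exact V5.tangent _ _
      calc (3 / 2 : ℝ) ^ σ * (R:ℝ) ^ m
          ≤ (3 / 2 : ℝ) ^ σ * ((R:ℝ) ^ m + (∑ c : Fin m → Fin R, (g c a : ℝ) - σ * (R:ℝ) ^ m) / 3) := by
            apply mul_le_mul_of_nonneg_left _ (by positivity)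
            linarith
        _ = ∑ c : Fin m → Fin R, (3 / 2 : ℝ) ^ σ * (1 + ((g c a : ℝ) - σ) / 3) := by
            rw [← Finset.mul_sum, Finset.sum_add_distrib, Finset.sum_const, nsmul_eq_mul,
              Finset.card_univ, hN, ← Finset.sum_div, Finset.sum_sub_distrib, Finset.sum_const,
              nsmul_eq_mul, Finset.card_univ, hN]
            ring
        _ ≤ _ := Finset.sum_le_sum fun c _ => h6 c
    · have hF0 : F a = 0 := by simp only [hF]; rw [if_neg h]
      rw [hF0, mul_zero]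
      apply Finset.sum_nonneg
      intro c _
      simp only [hSc]
      split_ifs
      · positivity
      · exact le_rfl
  have hFle : Ex unif F ≤ (2 / 3 : ℝ) ^ σ := by
    have h1 : Ex unif (fun a => (3 / 2 : ℝ) ^ σ * (R:ℝ) ^ m * F a) ≤
        Ex unif (fun a => ∑ c : Fin m → Fin R, Sc c a) := Ex_mono hw hpt
    rw [Ex_smul, Ex_sum] at h1
    have h2 : ∑ c : Fin m → Fin R, Ex unif (Sc c) ≤ (R:ℝ) ^ m := by
      calc ∑ c : Fin m → Fin R, Ex unif (Sc c) ≤ ∑ _c : Fin m → Fin R, (1:ℝ) :=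
            Finset.sum_le_sum fun c _ => hsel c
        _ = (R:ℝ) ^ m := by rw [Finset.sum_const, nsmul_eq_mul, Finset.card_univ, hN, mul_one]
    have h3 := h1.trans h2
    have h4 : (2 / 3 : ℝ) ^ σ * (3 / 2) ^ σ = 1 := by rw [← mul_pow]; norm_num
    have hRm : (0:ℝ) < (R:ℝ) ^ m := by positivity
    have h5 : (3 / 2 : ℝ) ^ σ * Ex unif F ≤ 1 := by
      have h6 : (R:ℝ) ^ m * ((3 / 2 : ℝ) ^ σ * Ex unif F) ≤ (R:ℝ) ^ m * 1 := by
        calc _ = (3 / 2 : ℝ) ^ σ * (R:ℝ) ^ m * Ex unif F := by ring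
          _ ≤ _ := by rw [mul_one]; exact h3
      exact le_of_mul_le_mul_left h6 hRm
    calc Ex unif F = (2 / 3 : ℝ) ^ σ * (3 / 2) ^ σ * Ex unif F := by rw [h4, one_mul]
      _ = (2 / 3 : ℝ) ^ σ * ((3 / 2) ^ σ * Ex unif F) := by ring
      _ ≤ (2 / 3 : ℝ) ^ σ * 1 := mul_le_mul_of_nonneg_left h5 (by positivity)
      _ = _ := mul_one _
  have htail : Ex unif (fun a : I → Bool => if Z a < 2 * (σ * R) then (1 : ℝ) else 0) ≤
      (2 / 3) ^ σ := by
    have h := Stub.tailP (I := I) (κ := Fin m × Fin R) (s := σ * R)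
      (by rw [Fintype.card_prod, Fintype.card_fin, Fintype.card_fin, hm]; ring) W hW hd
    have h' : Ex unif (fun a : I → Bool => if Z a < 2 * (σ * R) then (1 : ℝ) else 0) ≤
        (1 / 2) ^ (σ * R) := by
      refine le_trans (le_of_eq ?_) h
      apply congrArg
      funext a
      simp only [hZ]
    refine h'.trans ?_
    have h1 : (1 / 2 : ℝ) ^ (σ * R) ≤ (1 / 2) ^ σ :=
      pow_le_pow_of_le_one (by norm_num) (by norm_num) (Nat.le_mul_of_pos_right _ (by omega))
    exact h1.trans (pow_le_pow_left₀ (by norm_num) (by norm_num) _)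
  calc Ex unif (fun a : I → Bool =>
      if ∀ k, V k a = par (W k) a then (1 : ℝ) else 0)
      ≤ Ex unif (fun a => F a + (if Z a < 2 * (σ * R) then (1 : ℝ) else 0)) := by
        apply Ex_mono hw
        intro a
        by_cases h : ∀ k, V k a = par (W k) a
        · by_cases h2 : Z a < 2 * (σ * R)
          · rw [if_pos h, if_pos h2]
            have : 0 ≤ F a := by simp only [hF]; split_ifs <;> norm_num
            linarith
          · rw [if_pos h, if_neg h2]
            have : F a = 1 := by simp only [hF]; rw [if_pos ⟨h, by omega⟩]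
            rw [this]; norm_num
        · rw [if_neg h]
          have : 0 ≤ F a := by simp only [hF]; split_ifs <;> norm_num
          have h3 : (0:ℝ) ≤ (if Z a < 2 * (σ * R) then (1 : ℝ) else 0) := by
            split_ifs <;> norm_num
          linarith
    _ = Ex unif F + Ex unif (fun a : I → Bool => if Z a < 2 * (σ * R) then (1 : ℝ) else 0) :=
        Ex_add _ _ _
    _ ≤ (2 / 3) ^ σ + (2 / 3) ^ σ := add_le_add hFle htail
    _ = 2 * (2 / 3) ^ σ := by ring

end P4

section

variable {I : Type*} [Fintype I] [DecidableEq I]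

open Classical in
theorem np_combP {p σ R : ℕ} (hR : 2 * p ≤ R) (hR1 : 1 ≤ R)
    (B : Fin (16 * σ) × Fin R → Finset I) (hB1 : ∀ k, 1 ≤ (B k).card)
    (hB : ∀ k, 2 * p ≤ (B k).card) (hd : ∀ k k', k ≠ k' → Disjoint (B k) (B k'))
    (V : Fin (16 * σ) × Fin R → (I → Bool) → Bool) (hV : ∀ k, Cert p true (V k)) :
    Ex unif (fun a : I → Bool => if ∀ k, V k a = par (B k) a then (1 : ℝ) else 0) ≤
      2 * (2 / 3) ^ σ :=
  P4.np_comb_aux rfl hR hR1 B hB1 hB hd V hV

end

end Pool.Agent.H628R4.SP
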