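import Pool.Agent.H628R4.SP.StubsN
import Pool.Agent.H628R4.SP.P_NULP

/-! The second test language is hard for `NP` with advice (task P5, helper309). -/

namespace Pool.Agent.H628R4.SP

open Pool.Agent.NPC Pool.Agent.H620R2.Gauge Finset H568R2 Pool.Agent.H676
open Filter (atTop)

/-- the block of an input -/
noncomputable def p5_B (n N σ R : ℕ) (k : Fin (16 * σ) × Fin R) : Finset (Fin N) :=
  nulp_B N (side n) (inp n σ R k)

/-- The event. -/
def P5Ev (θ : Par) (n N σ R : ℕ) (a : Fin N → Bool) : Prop :=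
  ∃ c ≤ θ.p'.eval n, ∃ h : List Bool, h.length = c ∧ ∀ k : Fin (16 * σ) × Fin R,
    QF (θ.m n c) (Pool.Agent.H620R2.Gauge.leaf θ.M N) 1 true (pairBits (inp n σ R k) h) a =
      par (p5_B n N σ R k) a

theorem p5_card {n N σ R : ℕ} (hN : 2 ^ (n + side n + 1) ≤ N + 1) (k : Fin (16 * σ) × Fin R) :
    (p5_B n N σ R k).card = 2 ^ side n :=
  nulp_card N (side n) (inp n σ R k) (by rw [length_inp]; exact hN)

open Classical in
theorem p5_bound (θ : Par) {n N σ R : ℕ} (hR1 : 1 ≤ R)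
    (hR : 2 * θ.P1.eval n ≤ R) (hp : 2 * θ.P1.eval n ≤ 2 ^ side n)
    (hσ : 16 * σ * R ≤ 2 ^ n) (hN : 2 ^ (n + side n + 1) ≤ N + 1) :
    Ex unif (fun a : Fin N → Bool => if P5Ev θ n N σ R a then (1 : ℝ) else 0) ≤
      2 ^ θ.P1.eval n * (2 * (2 / 3 : ℝ) ^ σ) := by
  have hP : θ.P1.eval n = 2 * θ.p'.eval n + θ.M.p.eval (θ.L1.eval n) := by
    simp [Par.P1, Polynomial.eval_comp]
  have h1 : ∀ c ∈ Finset.range (θ.p'.eval n + 1), ∀ h ∈ strsOf c,
      Ex unif (fun a : Fin N → Bool => if ∀ k : Fin (16 * σ) × Fin R,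
        QF (θ.m n c) (Pool.Agent.H620R2.Gauge.leaf θ.M N) 1 true
          (pairBits (inp n σ R k) h) a = par (p5_B n N σ R k) a then (1 : ℝ) else 0) ≤
        2 * (2 / 3 : ℝ) ^ σ := by
    intro c hc h hh
    rw [Finset.mem_range, Nat.lt_succ_iff] at hc
    have hhl : h.length = c := by
      obtain ⟨i, _, rfl⟩ := Finset.mem_image.1 hh
      rw [length_bitsOf]
    have hlen := θ.len_le1 hc
    refine Stub.np_combP (p := θ.P1.eval n) hR hR1 (p5_B n N σ R) ?_ ?_ ?_
      (fun k => QF (θ.m n c) (Pool.Agent.H620R2.Gauge.leaf θ.M N) 1 true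
        (pairBits (inp n σ R k) h)) ?_
    · intro k
      rw [p5_card hN]
      exact Nat.one_le_two_pow
    · intro k
      rw [p5_card hN]
      exact hp
    · intro k k' hne
      apply nulp_disj
      · rw [length_inp, length_inp]
      · exact fun he => hne (inp_inj hσ he)
    · intro k
      apply cert_QF (ℓ := θ.L1.eval n)
      · intro y hy
        refine (dtr_out θ.M N y).mono ?_
        have := eval_mono θ.M.p hy
        omega
      · rw [length_pairBits, length_inp, hhl]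
        exact hlen
  have hU : Ex unif (fun a : Fin N → Bool => if P5Ev θ n N σ R a then (1 : ℝ) else 0) ≤
      ∑ c ∈ Finset.range (θ.p'.eval n + 1), ∑ h ∈ strsOf c, Ex unif (fun a : Fin N → Bool =>
        if ∀ k : Fin (16 * σ) × Fin R,
        QF (θ.m n c) (Pool.Agent.H620R2.Gauge.leaf θ.M N) 1 true
          (pairBits (inp n σ R k) h) a = par (p5_B n N σ R k) a then (1 : ℝ) else 0) := by
    simp only [← Ex_sum]
    apply Ex_mono unif_nonneg
    intro a
    by_cases hE : P5Ev θ n N σ R a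
    · rw [if_pos hE]
      obtain ⟨c, hc, h, hh, hk⟩ := hE
      refine le_trans ?_ (Finset.single_le_sum (f := fun c => ∑ h ∈ strsOf c,
        if ∀ k : Fin (16 * σ) × Fin R,
        QF (θ.m n c) (Pool.Agent.H620R2.Gauge.leaf θ.M N) 1 true
          (pairBits (inp n σ R k) h) a = par (p5_B n N σ R k) a then (1 : ℝ) else 0)
        (fun c _ => Finset.sum_nonneg fun h _ => by positivity)
        (Finset.mem_range.2 (Nat.lt_succ_of_le hc)))
      refine le_trans ?_ (Finset.single_le_sum (f := fun h =>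
        if ∀ k : Fin (16 * σ) × Fin R,
        QF (θ.m n c) (Pool.Agent.H620R2.Gauge.leaf θ.M N) 1 true
          (pairBits (inp n σ R k) h) a = par (p5_B n N σ R k) a then (1 : ℝ) else 0)
        (fun h _ => by positivity) (by rw [← hh]; exact mem_strsOf h))
      rw [if_pos hk]
    · rw [if_neg hE]
      exact Finset.sum_nonneg fun c _ => Finset.sum_nonneg fun h _ => by positivity
  refine hU.trans ((Finset.sum_le_sum fun c hc => Finset.sum_le_sum (h1 c hc)).trans ?_)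
  have hB : (0 : ℝ) ≤ 2 * (2 / 3 : ℝ) ^ σ := by positivity
  have h2 : ∀ c ∈ Finset.range (θ.p'.eval n + 1), ∑ _h ∈ strsOf c, 2 * (2 / 3 : ℝ) ^ σ ≤
      2 ^ θ.p'.eval n * (2 * (2 / 3 : ℝ) ^ σ) := by
    intro c hc
    rw [Finset.mem_range, Nat.lt_succ_iff] at hc
    rw [Finset.sum_const, nsmul_eq_mul]
    apply mul_le_mul_of_nonneg_right _ hB
    have h5 : (strsOf c).card ≤ 2 ^ θ.p'.eval n :=
      (card_strsOf c).trans (Nat.pow_le_pow_right (by norm_num) hc)
    exact_mod_cast h5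
  refine (Finset.sum_le_sum h2).trans ?_
  rw [Finset.sum_const, Finset.card_range, nsmul_eq_mul, ← mul_assoc]
  apply mul_le_mul_of_nonneg_right _ hB
  have hp1 : ((θ.p'.eval n + 1 : ℕ) : ℝ) ≤ 2 ^ θ.p'.eval n := by
    have : θ.p'.eval n + 1 ≤ 2 ^ θ.p'.eval n := Nat.lt_two_pow_self
    exact_mod_cast this
  calc ((θ.p'.eval n + 1 : ℕ) : ℝ) * 2 ^ θ.p'.eval n ≤ 2 ^ θ.p'.eval n * 2 ^ θ.p'.eval n := by
        gcongr
    _ = 2 ^ (2 * θ.p'.eval n) := by rw [← pow_add]; congr 1; ring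
    _ ≤ 2 ^ θ.P1.eval n := pow_le_pow_right₀ (by norm_num) (by omega)

/-- the oracles for which the parameters are good -/
def P5Easy (θ : Par) : Set Oracle :=
  {A | ∃ (V : List Bool → List Bool) (h : ℕ → List Bool),
    (∀ x, θ.M.out A x = some (V x)) ∧ (∀ n, (h n).length ≤ θ.p'.eval n) ∧
    ∀ x, x ∈ testP A ↔ Quant (θ.p.eval (pairBits x (h x.length)).length) V 1 true
      (pairBits x (h x.length))}

theorem p5_mem_easy {A : Oracle} (h : WithAdvice (IsNP A) (testP A)) : ∃ θ, A ∈ P5Easy θ := by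
  obtain ⟨L', h, p', ⟨V, p, ⟨M, hM⟩, hL'⟩, hh, hx⟩ := h
  exact ⟨⟨M, p, 1, p'⟩, V, h, hM, hh, fun x => (hx x).trans (hL' _)⟩

theorem p5_ev_of_easy (θ : Par) : ∃ Q : Polynomial ℕ, ∀ A ∈ P5Easy θ, ∀ n N σ R : ℕ,
    2 ^ (Q.eval n + 1) ≤ N → P5Ev θ n N σ R (pre N A) := by
  obtain ⟨qb, hqb⟩ := Alg.out_local θ.M
  refine ⟨qb.comp θ.L1 + (Polynomial.X + (Polynomial.X + 1) ^ 2), ?_⟩
  rintro A ⟨V, h, hM, hh, hx⟩ n N σ R hN
  have hQ : (qb.comp θ.L1 + (Polynomial.X + (Polynomial.X + 1) ^ 2)).eval n =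
      qb.eval (θ.L1.eval n) + (n + (n + 1) ^ 2) := by
    simp [Polynomial.eval_comp]
  rw [hQ] at hN
  have hs := nulp_side_le n
  have hV : ∀ y : List Bool, y.length ≤ θ.L1.eval n →
      (V y = [true] ↔ Pool.Agent.H620R2.Gauge.leaf θ.M N y (pre N A) = true) := by
    intro y hy
    obtain ⟨Q, _, hQl, hQA⟩ := hqb A y
    have h1 : θ.M.out (orc N (pre N A)) y = θ.M.out A y := by
      apply hQA
      intro q hq
      apply orc_pre
      have h2 := idx_lt q
      have h3 : q.length ≤ qb.eval (θ.L1.eval n) := (hQl q hq).trans (eval_mono _ hy)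
      have h4 : 2 ^ (q.length + 1) ≤ 2 ^ (qb.eval (θ.L1.eval n) + (n + (n + 1) ^ 2) + 1) :=
        Nat.pow_le_pow_right (by norm_num) (by omega)
      omega
    unfold Pool.Agent.H620R2.Gauge.leaf
    rw [h1, hM y, decide_eq_true_eq, Option.some.injEq]
  refine ⟨(h n).length, hh n, h n, rfl, ?_⟩
  intro k
  have hlen := length_inp n σ R k
  have h1 := hx (inp n σ R k)
  rw [hlen, length_pairBits, hlen] at h1
  have hN' : 2 ^ (n + side n + 1) ≤ N + 1 := by
    have h4 : 2 ^ (n + side n + 1) ≤ 2 ^ (qb.eval (θ.L1.eval n) + (n + (n + 1) ^ 2) + 1) :=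
        Nat.pow_le_pow_right (by norm_num) (by omega)
    omega
  have h3 := quant_iff (m := θ.m n (h n).length) (θ.L1.eval n) hV 1 true
    (pairBits (inp n σ R k) (h n)) (by
      rw [length_pairBits, hlen]
      have := θ.len_le1 (hh n)
      omega)
  have h5 := nulp_par N A (inp n σ R k) (by rw [hlen]; exact hN')
  rw [hlen] at h5
  rw [Bool.eq_iff_iff]
  exact h3.symm.trans (h1.symm.trans h5.symm)

theorem nullNP {f : ℕ → ℝ} (hf : Cond f) :
    Null f {A : Oracle | WithAdvice (IsNP A) (testP A)} := by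
  refine (null_iUnion (f := f) P5Easy fun θ => ?_).mono fun A hA => ?_
  · intro δ hδ
    obtain ⟨Q, hQ⟩ := p5_ev_of_easy θ
    obtain ⟨n₀, hn₀⟩ := Filter.eventually_atTop.1 (Stub.side_large (2 * θ.P1))
    obtain ⟨n, N, σ, hn, hσ, hp, hN, hb⟩ := asym2 (θ.P1 + Polynomial.C (2 ^ n₀))
      (Q + (Polynomial.X + (Polynomial.X + 1) ^ 2)) f hf δ hδ
    have hQe : (Q + (Polynomial.X + (Polynomial.X + 1) ^ 2)).eval n =
        Q.eval n + (n + (n + 1) ^ 2) := by simp
    have hPe : (θ.P1 + Polynomial.C (2 ^ n₀)).eval n = θ.P1.eval n + 2 ^ n₀ := by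
      rw [Polynomial.eval_add, Polynomial.eval_C]
    rw [hQe] at hN
    rw [hPe] at hσ hp hb
    have hs := nulp_side_le n
    have hN1 : 2 ^ (Q.eval n + 1) ≤ N :=
      le_trans (Nat.pow_le_pow_right (by norm_num) (by omega)) hN
    have hN2 : 2 ^ (n + side n + 1) ≤ N + 1 :=
      le_trans (Nat.pow_le_pow_right (by norm_num) (by omega)) (hN.trans (Nat.le_succ _))
    have hnn : n₀ ≤ n := by
      have h1 : 2 ^ n₀ < 2 ^ n := by
        have h0 : 0 < 2 ^ n₀ := Nat.two_pow_pos n₀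
        have h00 : 0 ≤ θ.P1.eval n := Nat.zero_le _
        linarith
      exact ((Nat.pow_lt_pow_iff_right (by norm_num)).1 h1).le
    have hp2 : 2 * θ.P1.eval n ≤ 2 ^ side n := by
      have h1 := hn₀ n hnn
      have h2 : (2 * θ.P1).eval n = 2 * θ.P1.eval n := by simp
      rw [h2] at h1
      exact h1.le
    refine cover_of_event (P5Ev θ n N σ (2 * (θ.P1.eval n + 1))) (P5Easy θ)
      (fun A hA => hQ A hA n N σ _ hN1) f δ ?_
    have hev := p5_bound θ (n := n) (N := N) (σ := σ) (R := 2 * (θ.P1.eval n + 1))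
      (by omega) (by omega) hp2 (by
        calc 16 * σ * (2 * (θ.P1.eval n + 1)) = 32 * σ * (θ.P1.eval n + 1) := by ring
          _ ≤ 32 * σ * (θ.P1.eval n + 2 ^ n₀ + 1) :=
            Nat.mul_le_mul_left _ (Nat.add_le_add_right (Nat.le_add_right _ _) 1)
          _ ≤ 2 ^ n := hσ) hN2
    refine (mul_le_mul_of_nonneg_right hev (by positivity)).trans (le_trans ?_ hb)
    have h7 : (2 : ℝ) ^ θ.P1.eval n ≤ 2 ^ (θ.P1.eval n + 2 ^ n₀) :=
      pow_le_pow_right₀ (by norm_num) (Nat.le_add_right _ _)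
    have h8 : (0 : ℝ) < 2 ^ f N := by positivity
    gcongr
  · obtain ⟨θ, hθ⟩ := p5_mem_easy hA
    exact Set.mem_iUnion.2 ⟨θ, hθ⟩

end Pool.Agent.H628R4.SP
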