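import Pool.Agent.H628R4.SP.Stubs

set_option autoImplicit false

namespace Pool.Agent.H628R4.SP

open Pool.Agent.NPC Pool.Agent.H620R2.Gauge Finset H568R2 Pool.Agent.H676 Pool.Agent.H628R4.SP

theorem testP_polylog (A : Oracle) : IsPolylog A (testP A) := by
  obtain ⟨Q, hQ, M, d, hM, hacc⟩ := Stub.par_machine
  obtain ⟨k, m, M', hM', hacc'⟩ := Stub.transport M hM
  exact ⟨2, k, m, 1, d, M', hM', fun x => ((hacc' A _ _ x).trans (hacc A x)).symm⟩

end Pool.Agent.H628R4.SP
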