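import Pool.Agent.H628R4.SP.Base
import Pool.Agent.H620R2.Gauge.C
import Pool.Agent.H620R2.Gauge2.Null
import Pool.Agent.H620R2.Gauge.X

/-! The tasks. -/

namespace Pool.Agent.H628R4.SP.Stub

open Pool.Agent.NPC Pool.Agent.H620R2.Gauge Finset H568R2 Pool.Agent.H676 Pool.Agent.H628R4.SP
open Filter (atTop)

/-! ### The decoder -/

-- RUN : states may form any finite type
theorem transport {Q Γ : Type} [Fintype Q] [Fintype Γ] {h : ℕ} (M : Mach Q Γ h) (hM : M.Det) :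
    ∃ (k m : ℕ) (M' : Mach (Fin k) (Fin m) h), M'.Det ∧
      ∀ A s l x, M'.Acc A s l x ↔ M.Acc A s l x := by sorry

-- DEC
theorem dec (e κ : ℕ) : ∃ (Q : Type) (_ : Fintype Q) (M : Mach Q Unit (κ + 1)) (d : ℕ), M.Det ∧
    ∀ (A : Oracle) (s : ℕ) (x : List Bool),
      M.Acc A s ((x.length + 2) ^ d) x ↔ A (codeL e κ x) = true := by sorry

-- DECL
theorem dec_log (e κ : ℕ) (A : Oracle) : IsLogSpace A {x | A (codeL e κ x) = true} := by sorry

-- COD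
theorem exists_codingL (K : ℕ) : ∃ (κ : ℕ → ℕ) (Φ : Oracle → Oracle),
    (∀ e n, (n + e + 1) ^ K ≤ (n + 2) ^ (κ e)) ∧
    (∀ B y, (∀ e x, y ≠ codeL e (κ e) x) → Φ B y = B y) ∧
    ∀ B L, IsPSPACE (Φ B) L → ∃ e, ∀ x, x ∈ L ↔ Φ B (codeL e (κ e) x) = true := by sorry

-- NN
theorem not_nullL (f : ℕ → ℝ) (ε : ℝ) (hε : 0 < ε)
    (hf : ∀ᶠ N : ℕ in Filter.atTop, 2 ^ (Real.logb 2 N) ^ ε < f N) (O : Set Oracle)
    (hO : ∀ A : Oracle, (∀ L, IsPSPACE A L → IsLogSpace A L) → A ∈ O) :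
    ¬ Null f O := by sorry

/-! ### The first test language -/

-- CNT
theorem countable_mach (k m h : ℕ) : Countable (Mach (Fin k) (Fin m) h) := by sorry

-- WC
theorem queries {k m h : ℕ} (M : Mach (Fin k) (Fin m) h) (s l : ℕ) (x : List Bool) :
    ∃ W : Finset (List Bool), (∀ y ∈ W, y.length ≤ l) ∧
      W.card ≤ 2 * (k * (x.length + 2) ^ h * (s + 2) * m ^ s) + 1 ∧
      ∀ A A' : Oracle, (∀ y ∈ W, A y = A' y) → (M.Acc A s l x ↔ M.Acc A' s l x) := by sorry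

-- TP
theorem testT_isP (A : Oracle) : IsP A (testT A) := by sorry

-- D0
theorem walk_fix (n N : ℕ) (hN : 2 ^ (4 * n + 2) ≤ N) (S : Finset (List Bool)) (hS : S ⊆ strs n)
    (a : List Bool → List Bool) :
    (univ.filter (fun v : Fin N → Bool =>
      ∀ x ∈ S, walk (orc N v) x (2 * n) = a x)).card * 2 ^ (2 * n * S.card) ≤ 2 ^ N := by sorry

-- D1
theorem many_bad (n N : ℕ) (hn : 1 ≤ n) (hN : 2 ^ (4 * n + 2) ≤ N) (W : Finset (List Bool))
    (hW : 16 * W.card ≤ 2 ^ (2 * n)) :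
    (univ.filter (fun v : Fin N → Bool =>
      2 ^ (n - 1) ≤ (bad n W (orc N v)).card)).card * 2 ^ 2 ^ n ≤ 2 ^ N := by sorry

-- D2
open Classical in
theorem few_good (n N : ℕ) (hN : 2 ^ (4 * n + 2) ≤ N) (W : Finset (List Bool))
    (G : List Bool → (Fin N → Bool) → Bool)
    (hG : ∀ x v v', (∀ y ∈ W, orc N v y = orc N v' y) → G x v = G x v') :
    (univ.filter (fun v : Fin N → Bool =>
      (∀ x ∈ strs n, (x ∈ testT (orc N v) ↔ G x v = true)) ∧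
      2 ^ (n - 1) ≤ (good n W (orc N v)).card)).card * 2 ^ 2 ^ (n - 1) ≤ 2 ^ N := by sorry

-- D3
open Classical in
theorem testT_bound (n N : ℕ) (hn : 1 ≤ n) (hN : 2 ^ (4 * n + 2) ≤ N) (W : Finset (List Bool))
    (hW : 16 * W.card ≤ 2 ^ (2 * n)) (G : List Bool → (Fin N → Bool) → Bool)
    (hG : ∀ x v v', (∀ y ∈ W, orc N v y = orc N v' y) → G x v = G x v') :
    Ex unif (fun v : Fin N → Bool =>
      if ∀ x ∈ strs n, (x ∈ testT (orc N v) ↔ G x v = true) then (1 : ℝ) else 0)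
      ≤ 2 / 2 ^ 2 ^ (n - 1) := by sorry

-- ASY
theorem asyT (Q : Polynomial ℕ) (f : ℕ → ℝ)
    (hf : ∀ ε : ℝ, 0 < ε → ∃ᶠ N : ℕ in Filter.atTop, f N ≤ 2 ^ (Real.logb 2 N) ^ ε)
    (δ : ℝ) (hδ : 0 < δ) (n₀ : ℕ) :
    ∃ n N : ℕ, n₀ ≤ n ∧ 2 ^ (Q.eval n) ≤ N ∧ (2 / 2 ^ 2 ^ (n - 1) : ℝ) * 2 ^ f N ≤ δ := by sorry

-- SML
theorem small_cores (k m h c : ℕ) : ∀ᶠ n : ℕ in atTop,
    16 * (2 ^ n * (2 * (k * (n + 2) ^ h * ((Nat.log 2 n + 1) ^ c + 2) *
      m ^ ((Nat.log 2 n + 1) ^ c)) + 1)) ≤ 2 ^ (2 * n) := by sorry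

-- NULT
theorem nullT (f : ℕ → ℝ)
    (hf : ∀ ε : ℝ, 0 < ε → ∃ᶠ N : ℕ in Filter.atTop, f N ≤ 2 ^ (Real.logb 2 N) ^ ε) :
    Null f {A : Oracle | IsNPolylog A (testT A)} := by sorry

/-! ### The second test language -/

-- CTR : the binary counter
/-- the next contents of a binary counter (lowest digit first), `none` after the last one -/
def incr : List Bool → Option (List Bool)
  | [] => none
  | false :: w => some (true :: w)
  | true :: w => (incr w).map (fun w' => false :: w')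

theorem counter (s : ℕ) : ∃ w : ℕ → List Bool, w 0 = List.replicate s false ∧
    (∀ i, i + 1 < 2 ^ s → incr (w i) = some (w (i + 1))) ∧ incr (w (2 ^ s - 1)) = none ∧
    (∀ i, i < 2 ^ s → (w i).length = s) ∧
    ∀ y : List Bool, y.length = s → ∃! i, i < 2 ^ s ∧ w i = y := by sorry

-- PM
theorem par_machine : ∃ (Q : Type) (_ : Fintype Q) (M : Mach Q Bool 1) (d : ℕ), M.Det ∧
    ∀ (A : Oracle) (x : List Bool),
      M.Acc A (side x.length) ((x.length + 2) ^ d) x ↔ x ∈ testP A := by sorry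

-- PL
theorem testP_polylog (A : Oracle) : IsPolylog A (testP A) := by sorry

-- XOR
theorem xor_bound' {I : Type*} [Fintype I] [DecidableEq I] {ι : Type*} [DecidableEq ι]
    (X : Finset ι) (B : ι → Finset I)
    (hB : ∀ x ∈ X, ∀ x' ∈ X, x ≠ x' → Disjoint (B x) (B x')) (g : ι → (I → Bool) → Bool) (t : ℕ)
    (hg : ∀ x ∈ X, DTr t (g x)) (hs : ∀ x ∈ X, t < (B x).card) :
    Ex unif (fun a : I → Bool =>
      if ∀ x ∈ X, g x a = par (B x) a then (1 : ℝ) else 0) ≤ (1 / 2) ^ X.card := by sorry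

-- SID
theorem side_large (p : Polynomial ℕ) : ∀ᶠ n : ℕ in atTop, p.eval n < 2 ^ side n := by sorry

-- NULP
theorem nullP (f : ℕ → ℝ)
    (hf : ∀ ε : ℝ, 0 < ε → ∃ᶠ N : ℕ in Filter.atTop, f N ≤ 2 ^ (Real.logb 2 N) ^ ε) :
    Null f {A : Oracle | IsP A (testP A)} := by sorry

end Pool.Agent.H628R4.SP.Stub
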