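import Pool.Agent.H628R4.SP.BaseT
import Pool.Agent.H628R4.SP.Stubs
import Pool.Agent.H620R2.Gauge2.CoverN

/-! The tasks for `NP`. -/

namespace Pool.Agent.H628R4.SP

open Pool.Agent.NPC Pool.Agent.H620R2.Gauge Finset H568R2 Pool.Agent.H676

/-- The function `V` is forced to be true by at most `p` bits of `a` outside the other blocks. -/
def CertP {I κ : Type*} (B : κ → Finset I) (p : ℕ) (V : (I → Bool) → Bool) (k : κ)
    (a : I → Bool) : Prop :=
  ∃ A : Finset I, A.card ≤ p ∧ (∀ k', k' ≠ k → Disjoint A (B k')) ∧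
    ∀ y : I → Bool, (∀ i ∈ A, y i = a i) → V y = true

end Pool.Agent.H628R4.SP

namespace Pool.Agent.H628R4.SP.Stub

open Pool.Agent.NPC Pool.Agent.H620R2.Gauge Finset H568R2 Pool.Agent.H676 Pool.Agent.H628R4.SP
open Filter (atTop)

section

variable {I : Type*} [Fintype I] [DecidableEq I]

open Classical in
-- P1
theorem single_par {p : ℕ} (B : Finset I) (hB : 2 * p ≤ B.card) (G : (I → Bool) → Prop)
    (hG : ∀ a, G a → ∃ A : Finset I, A.card ≤ p ∧ ∀ y : I → Bool, (∀ i ∈ A, y i = a i) → G y) :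
    Ex unif (fun a : I → Bool => if par B a = true ∧ G a then (1 : ℝ) else 0) ≤
      2 * Ex unif (fun a : I → Bool => if par B a = false ∧ G a then (1 : ℝ) else 0) := by sorry

open Classical in
-- P2
theorem selectionP {κ : Type*} [Fintype κ] {p : ℕ} (B : κ → Finset I)
    (hB : ∀ k, 2 * p ≤ (B k).card) (hd : ∀ k k', k ≠ k' → Disjoint (B k) (B k'))
    (V : κ → (I → Bool) → Bool) :
    Ex unif (fun a : I → Bool => if ∀ k, V k a = par (B k) a then
      (3 / 2 : ℝ) ^ (univ.filter (fun k => par (B k) a = true ∧ CertP B p (V k) k a)).card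
      else 0) ≤ 1 := by sorry

-- P3
theorem tailP {κ : Type*} [Fintype κ] {s : ℕ} (hκ : Fintype.card κ = 16 * s)
    (B : κ → Finset I) (hB : ∀ k, 1 ≤ (B k).card)
    (hd : ∀ k k', k ≠ k' → Disjoint (B k) (B k')) :
    Ex unif (fun a : I → Bool =>
      if (univ.filter (fun k => par (B k) a = true)).card < 2 * s then (1 : ℝ) else 0) ≤
      (1 / 2) ^ s := by sorry

open Classical in
-- P4
theorem np_combP {p σ R : ℕ} (hR : 2 * p ≤ R) (hR1 : 1 ≤ R)
    (B : Fin (16 * σ) × Fin R → Finset I) (hB1 : ∀ k, 1 ≤ (B k).card)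
    (hB : ∀ k, 2 * p ≤ (B k).card) (hd : ∀ k k', k ≠ k' → Disjoint (B k) (B k'))
    (V : Fin (16 * σ) × Fin R → (I → Bool) → Bool) (hV : ∀ k, Cert p true (V k)) :
    Ex unif (fun a : I → Bool => if ∀ k, V k a = par (B k) a then (1 : ℝ) else 0) ≤
      2 * (2 / 3) ^ σ := by sorry

end

-- P5
theorem nullNP {f : ℕ → ℝ} (hf : Cond f) :
    Null f {A : Oracle | WithAdvice (IsNP A) (testP A)} := by sorry

end Pool.Agent.H628R4.SP.Stub
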