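import Pool.Agent.H628R4.SP.BaseT
import Pool.Agent.H628R4.SP.Stubs

/-! The tasks for tally languages. -/

namespace Pool.Agent.H628R4.SP.Stub

open Pool.Agent.NPC Pool.Agent.H620R2.Gauge Finset H568R2 Pool.Agent.H676 Pool.Agent.H628R4.SP
open Filter (atTop)

-- CHK : a machine can first check whether all letters of the input are `true`
theorem check {Q Γ : Type} [Fintype Q] {h : ℕ} (M : Mach Q Γ (h + 1)) (hM : M.Det) :
    ∃ (Q' : Type) (_ : Fintype Q') (M' : Mach Q' Γ (h + 1)), M'.Det ∧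
      ∀ A s l x, M'.Acc A s l x ↔ (∀ b ∈ x, b = true) ∧ M.Acc A s l x := by sorry

-- COT
theorem exists_codingT (K : ℕ) (P : List Bool → Prop) : ∃ (κ : ℕ → ℕ) (Φ : Oracle → Oracle),
    (∀ e n, (n + e + 1) ^ K ≤ (n + 2) ^ (κ e)) ∧
    (∀ B y, (∀ e x, P x → y ≠ codeL e (κ e) x) → Φ B y = B y) ∧
    ∀ B L, IsPSPACE (Φ B) L → ∃ e, ∀ x, P x → (x ∈ L ↔ Φ B (codeL e (κ e) x) = true) := by sorry

open Classical in
-- SPT
theorem sparseT {K : ℕ} (κ : ℕ → ℕ) (hκ : ∀ e n, (n + e + 1) ^ K ≤ (n + 2) ^ (κ e))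
    {ε : ℝ} (hε : 0 < ε) (hK : 2 < ε * K) :
    ∀ᶠ N : ℕ in atTop, (((Finset.range N).filter
      (fun i => ∃ e n, str i = codeL e (κ e) (List.replicate n true))).card : ℝ) ≤
        (Real.logb 2 N) ^ ε := by sorry

-- NNT
theorem not_nullT (f : ℕ → ℝ) (ε : ℝ) (hε : 0 < ε)
    (hf : ∀ᶠ N : ℕ in atTop, (Real.logb 2 N) ^ ε < f N) (O : Set Oracle)
    (hO : ∀ A : Oracle, (∀ L, Tally L → IsPSPACE A L → IsLogSpace A L) → A ∈ O) :
    ¬ Null f O := by sorry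

-- G0
theorem walk_fixG (b N : ℕ) (hN : 2 ^ (4 * b + 2) ≤ N) (S : Finset (List Bool))
    (hS : ∀ x ∈ S, x.length ≤ b) (a : List Bool → List Bool) :
    (univ.filter (fun v : Fin N → Bool =>
      ∀ x ∈ S, walk (orc N v) x (2 * x.length) = a x)).card * 2 ^ (∑ x ∈ S, 2 * x.length)
      ≤ 2 ^ N := by sorry

-- G1
theorem many_badG (n b N u : ℕ) (hN : 2 ^ (4 * b + 2) ≤ N) (X : Finset (List Bool))
    (hX : ∀ x ∈ X, n ≤ x.length ∧ x.length ≤ b) (hu : X.card ≤ 2 * u) (W : Finset (List Bool))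
    (hW : 16 * W.card ≤ 2 ^ (2 * n)) :
    (univ.filter (fun v : Fin N → Bool =>
      u ≤ (X.filter (fun x => leaf (orc N v) x ∈ W)).card)).card * 2 ^ (2 * u) ≤ 2 ^ N := by sorry

open Classical in
-- G2
theorem few_goodG (b N u : ℕ) (hN : 2 ^ (4 * b + 2) ≤ N) (X : Finset (List Bool))
    (hX : ∀ x ∈ X, x.length ≤ b) (W : Finset (List Bool))
    (G : List Bool → (Fin N → Bool) → Bool)
    (hG : ∀ x v v', (∀ y ∈ W, orc N v y = orc N v' y) → G x v = G x v') :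
    (univ.filter (fun v : Fin N → Bool =>
      (∀ x ∈ X, (x ∈ testT (orc N v) ↔ G x v = true)) ∧
      u ≤ (X.filter (fun x => leaf (orc N v) x ∉ W)).card)).card * 2 ^ u ≤ 2 ^ N := by sorry

open Classical in
-- G3
theorem testT_boundG (n b N u : ℕ) (hN : 2 ^ (4 * b + 2) ≤ N) (X : Finset (List Bool))
    (hX : ∀ x ∈ X, n ≤ x.length ∧ x.length ≤ b) (hu : X.card = 2 * u) (W : Finset (List Bool))
    (hW : 16 * W.card ≤ 2 ^ (2 * n)) (G : List Bool → (Fin N → Bool) → Bool)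
    (hG : ∀ x v v', (∀ y ∈ W, orc N v y = orc N v' y) → G x v = G x v') :
    Ex unif (fun v : Fin N → Bool =>
      if ∀ x ∈ X, (x ∈ testT (orc N v) ↔ G x v = true) then (1 : ℝ) else 0)
      ≤ 2 / 2 ^ u := by sorry

-- AST
theorem asyT1 (Q : Polynomial ℕ) (f : ℕ → ℝ)
    (hf : ∀ ε : ℝ, 0 < ε → ∃ᶠ N : ℕ in atTop, f N ≤ (Real.logb 2 N) ^ ε)
    (δ : ℝ) (hδ : 0 < δ) (n₀ : ℕ) :
    ∃ n N : ℕ, n₀ ≤ n ∧ 2 ^ (Q.eval n) ≤ N ∧ (2 / 2 ^ n : ℝ) * 2 ^ f N ≤ δ := by sorry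

-- SMT
theorem small_coresT (k m h c : ℕ) : ∀ᶠ n : ℕ in atTop,
    16 * (2 * n * (2 * (k * (3 * n + 2) ^ h * ((Nat.log 2 (3 * n) + 1) ^ c + 2) *
      m ^ ((Nat.log 2 (3 * n) + 1) ^ c)) + 1)) ≤ 2 ^ (2 * n) := by sorry

-- NUT
theorem nullT1 (f : ℕ → ℝ)
    (hf : ∀ ε : ℝ, 0 < ε → ∃ᶠ N : ℕ in atTop, f N ≤ (Real.logb 2 N) ^ ε) :
    Null f {A : Oracle | IsNPolylog A (testT1 A)} := by sorry

-- TPT
theorem testT1_isP (A : Oracle) : IsP A (testT1 A) := by sorry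

-- PLT
theorem testP1_polylog (A : Oracle) : IsPolylog A (testP1 A) := by sorry

-- NPT
theorem nullP1 (f : ℕ → ℝ)
    (hf : ∀ ε : ℝ, 0 < ε → ∃ᶠ N : ℕ in atTop, f N ≤ (Real.logb 2 N) ^ ε) :
    Null f {A : Oracle | IsP A (testP1 A)} := by sorry

end Pool.Agent.H628R4.SP.Stub
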